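import Mathlib
import Pool.Agent.Lib.MP_c95b3b_ag_SD.Map

set_option autoImplicit false

/-! Project GC (MP_c95b3b_ag, full conjecture, block CONES): types of a variety in the torus,
i.e. valuations of maximal rational rank of its function field. Definitions. -/

namespace Pool.Agent.GC

open Pool.Agent.SD Module MvPolynomial

/-- valuations of `L`, trivial on `k`, with residue field `k` and with values in `ℤ^t` with the
lexicographic order (surjective; the value of `0` is irrelevant and put equal to `0`) -/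
structure LV (k L : Type) [Field k] [Field L] [Algebra k L] (t : ℕ) where
  v : L → Fin t → ℤ
  map_zero : v 0 = 0
  map_mul : ∀ a b, a ≠ 0 → b ≠ 0 → v (a * b) = v a + v b
  map_add : ∀ a b, a ≠ 0 → b ≠ 0 → a + b ≠ 0 →
    min (toLex (v a)) (toLex (v b)) ≤ toLex (v (a + b))
  map_const : ∀ c : k, v (algebraMap k L c) = 0
  surj : ∀ γ, ∃ a, a ≠ 0 ∧ v a = γ
  resid : ∀ a, a ≠ 0 → v a = 0 →
    ∃ c : k, a = algebraMap k L c ∨ 0 < toLex (v (a - algebraMap k L c))

/-- discrete valuations of `L`, trivial on `k`, together with their residue fields; `res` is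
meaningful at the elements `a` with `0 ≤ ord a` -/
structure DP (k L : Type) [Field k] [Field L] [Algebra k L] where
  F : Type
  [fld : Field F]
  [alg : Algebra k F]
  ord : L → ℤ
  res : L → F
  ord_zero : ord 0 = 0
  ord_mul : ∀ a b, a ≠ 0 → b ≠ 0 → ord (a * b) = ord a + ord b
  ord_add : ∀ a b, a ≠ 0 → b ≠ 0 → a + b ≠ 0 → min (ord a) (ord b) ≤ ord (a + b)
  ord_const : ∀ c : k, ord (algebraMap k L c) = 0
  ord_surj : ∃ a, a ≠ 0 ∧ ord a = 1
  res_add : ∀ a b, 0 ≤ ord a → 0 ≤ ord b → res (a + b) = res a + res b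
  res_mul : ∀ a b, 0 ≤ ord a → 0 ≤ ord b → res (a * b) = res a * res b
  res_const : ∀ c : k, res (algebraMap k L c) = algebraMap k F c
  res_eq_zero : ∀ a, 0 ≤ ord a → (res a = 0 ↔ a = 0 ∨ 0 < ord a)
  res_surj : ∀ f, ∃ a, 0 ≤ ord a ∧ res a = f

attribute [instance] DP.fld DP.alg

/-- the exponent `u` of a finite set of elements `z` -/
noncomputable def lc {k L : Type} [Field k] [Field L] [Algebra k L] {t m : ℕ} (V : LV k L t)
    (z : Fin m → L) (u : Fin m → ℤ) : Fin t → ℤ := ∑ j, u j • V.v (z j)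

/-- the matrix of the values of `z` -/
noncomputable def vm {k L : Type} [Field k] [Field L] [Algebra k L] {t : ℕ} (V : LV k L t)
    (z : Fin t → L) : Matrix (Fin t) (Fin t) ℤ := Matrix.of fun j l => V.v (z j) l

/-- the elements `z` have the same position with respect to `V` and `V'` -/
def SameOrd {k L : Type} [Field k] [Field L] [Algebra k L] {t m : ℕ} (V V' : LV k L t)
    (z : Fin m → L) : Prop :=
  ∀ u : Fin m → ℤ, 0 ≤ toLex (lc V z u) ↔ 0 ≤ toLex (lc V' z u)

/-- `A` is surjective and its kernel is the saturation of the subgroup generated by the vectors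
`g J` -/
def IsTy {n t : ℕ} (g : (Fin (t + 1) → Fin n) → Fin n → ℤ)
    (A : (Fin n → ℤ) →+ (Fin t → ℤ)) : Prop :=
  Function.Surjective A ∧
    ∀ a, A a = 0 ↔ ∃ m : ℤ, m ≠ 0 ∧ m • a ∈ Submodule.span ℤ (Set.range g)

open Classical in
/-- a homomorphism of type `g` if there is one -/
noncomputable def tyOf {n t : ℕ} (g : (Fin (t + 1) → Fin n) → Fin n → ℤ) :
    (Fin n → ℤ) →+ (Fin t → ℤ) :=
  if h : ∃ A : (Fin n → ℤ) →+ (Fin t → ℤ), IsTy g A then h.choose else 0

/-- the finite set of the possible types of varieties of dimension `t` in `G_m^n` whose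
coordinates satisfy relations of degree at most `δ` -/
def AA (n t δ : ℕ) : Set ((Fin n → ℤ) →+ (Fin t → ℤ)) :=
  tyOf '' {g | ∀ J l, |g J l| ≤ (δ : ℤ)}

/-- every `t + 1` of the elements `x i` satisfy a relation of degree at most `δ` over `k` -/
def RelB (k : Type) {L : Type} [Field k] [Field L] [Algebra k L] {n : ℕ} (x : Fin n → L)
    (t δ : ℕ) : Prop :=
  ∀ J : Fin (t + 1) → Fin n, Function.Injective J → ∃ f : MvPolynomial (Fin (t + 1)) k,
    f ≠ 0 ∧ f.totalDegree ≤ δ ∧ aeval (fun j => x (J j)) f = 0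

/-- the homomorphism `A` comes from the valuation `V` -/
def Comes {k L : Type} [Field k] [Field L] [Algebra k L] {n t : ℕ} (V : LV k L t)
    (x : Fin n → L) (A : (Fin n → ℤ) →+ (Fin t → ℤ)) (M : Matrix (Fin t) (Fin t) ℤ) : Prop :=
  M.det ≠ 0 ∧ ∀ a, V.v (mn x a) = M.mulVec (A a)

end Pool.Agent.GC
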