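import Mathlib
import Pool.Agent.Lib.MP_c95b3b_ag_GC.Defs

set_option autoImplicit false

/-! Project GC, module CO: composition of a discrete valuation with a valuation of its residue
field. -/

namespace Pool.Agent.GC

namespace Comp

theorem lt_cons {t : ℕ} (m n : ℤ) (f g : Fin t → ℤ) :
    toLex (Fin.cons m f : Fin (t + 1) → ℤ) < toLex (Fin.cons n g : Fin (t + 1) → ℤ) ↔
      m < n ∨ m = n ∧ toLex f < toLex g :=
  Fin.pi_lex_lt_cons_cons (fun {_} a b => a < b)

theorem le_cons {t : ℕ} (m n : ℤ) (f g : Fin t → ℤ) :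
    toLex (Fin.cons m f : Fin (t + 1) → ℤ) ≤ toLex (Fin.cons n g : Fin (t + 1) → ℤ) ↔
      m < n ∨ m = n ∧ toLex f ≤ toLex g := by
  have h1 : toLex (Fin.cons m f : Fin (t + 1) → ℤ) = toLex (Fin.cons n g : Fin (t + 1) → ℤ) ↔
      m = n ∧ f = g := by
    rw [toLex_inj, Fin.cons_inj]
  have h2 : toLex f ≤ toLex g ↔ toLex f < toLex g ∨ f = g := by
    rw [le_iff_lt_or_eq, toLex_inj]
    exact Iff.rfl
  rw [le_iff_lt_or_eq, h1, h2]
  refine (or_congr (lt_cons m n f g) Iff.rfl).trans ?_
  tauto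

theorem cons_zero {t : ℕ} : (Fin.cons 0 0 : Fin (t + 1) → ℤ) = 0 := by
  funext i
  refine Fin.cases ?_ (fun j => ?_) i
  · rfl
  · rfl

section
variable {k L : Type} [Field k] [Field L] [Algebra k L] (D : DP k L)

theorem ord_one : D.ord 1 = 0 := by
  have h := D.ord_const 1
  rwa [map_one] at h

theorem ord_inv {a : L} (ha : a ≠ 0) : D.ord a⁻¹ = -D.ord a := by
  have h := D.ord_mul a a⁻¹ ha (inv_ne_zero ha)
  rw [mul_inv_cancel₀ ha, ord_one] at h
  omega

theorem ord_pow {a : L} (ha : a ≠ 0) (n : ℕ) : D.ord (a ^ n) = n * D.ord a := by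
  induction n with
  | zero => simp [ord_one]
  | succ n ih =>
    rw [pow_succ, D.ord_mul _ _ (pow_ne_zero n ha) ha, ih]
    push_cast
    ring

theorem ord_zpow {a : L} (ha : a ≠ 0) (n : ℤ) : D.ord (a ^ n) = n * D.ord a := by
  obtain ⟨m, rfl | rfl⟩ := n.eq_nat_or_neg
  · rw [zpow_natCast, ord_pow D ha]
  · rw [zpow_neg, zpow_natCast, ord_inv D (pow_ne_zero m ha), ord_pow D ha]
    ring

/-- the unit part -/
noncomputable def un (π a : L) : L := a * π ^ (-D.ord a)

variable {D} {π : L} (hπ : π ≠ 0) (hπ1 : D.ord π = 1)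

include hπ

theorem un_ne {a : L} (ha : a ≠ 0) : un D π a ≠ 0 := mul_ne_zero ha (zpow_ne_zero _ hπ)

theorem un_mul {a b : L} (ha : a ≠ 0) (hb : b ≠ 0) : un D π (a * b) = un D π a * un D π b := by
  unfold un
  rw [D.ord_mul a b ha hb, neg_add, zpow_add₀ hπ]
  ring

include hπ1

theorem ord_mul_zpow {a : L} (ha : a ≠ 0) (n : ℤ) : D.ord (a * π ^ n) = D.ord a + n := by
  rw [D.ord_mul _ _ ha (zpow_ne_zero _ hπ), ord_zpow D hπ, hπ1, mul_one]

theorem ord_un {a : L} (ha : a ≠ 0) : D.ord (un D π a) = 0 := by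
  unfold un
  rw [ord_mul_zpow hπ hπ1 ha]
  ring

theorem res_un_ne {a : L} (ha : a ≠ 0) : D.res (un D π a) ≠ 0 := by
  rw [Ne, D.res_eq_zero _ (ord_un hπ hπ1 ha).ge]
  rintro (h | h)
  · exact un_ne hπ ha h
  · rw [ord_un hπ hπ1 ha] at h
    exact lt_irrefl _ h

/-- the term of larger order does not change the leading coefficient -/
theorem res_un_add {a b : L} (ha : a ≠ 0) (hb : b ≠ 0) (hab : D.ord a < D.ord b)
    (h : D.ord (a + b) = D.ord a) : D.res (un D π (a + b)) = D.res (un D π a) := by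
  have h1 : un D π (a + b) = un D π a + b * π ^ (-D.ord a) := by
    unfold un
    rw [h, add_mul]
  have h2 : D.ord (b * π ^ (-D.ord a)) = D.ord b - D.ord a := by
    rw [ord_mul_zpow hπ hπ1 hb]
    ring
  have h3 : 0 ≤ D.ord (b * π ^ (-D.ord a)) := by rw [h2]; omega
  have h4 : D.res (b * π ^ (-D.ord a)) = 0 :=
    (D.res_eq_zero _ h3).2 (Or.inr (by rw [h2]; omega))
  rw [h1, D.res_add _ _ (ord_un hπ hπ1 ha).ge h3, h4, add_zero]

end

end Comp

open Pool.Agent.GC.Comp in
theorem exists_comp {k L : Type} [Field k] [Field L] [Algebra k L] {t : ℕ} (D : DP k L)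
    (W : LV k D.F t) : ∃ V : LV k L (t + 1), (∀ a, a ≠ 0 → V.v a 0 = D.ord a) ∧
      ∀ a, a ≠ 0 → D.ord a = 0 → ∀ l : Fin t, V.v a l.succ = W.v (D.res a) l := by
  classical
  obtain ⟨π, hπ, hπ1⟩ := D.ord_surj
  let v : L → Fin (t + 1) → ℤ := fun a =>
    if a = 0 then 0 else Fin.cons (D.ord a) (W.v (D.res (un D π a)))
  have hv : ∀ a, a ≠ 0 → v a = Fin.cons (D.ord a) (W.v (D.res (un D π a))) :=
    fun a ha => if_neg ha
  have hun : ∀ a, D.ord a = 0 → un D π a = a := by
    intro a h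
    unfold un
    rw [h, neg_zero, zpow_zero, mul_one]
  refine ⟨⟨v, if_pos rfl, ?_, ?_, ?_, ?_, ?_⟩, ?_, ?_⟩
  · intro a b ha hb
    rw [hv a ha, hv b hb, hv _ (mul_ne_zero ha hb), D.ord_mul a b ha hb, un_mul hπ ha hb,
      D.res_mul _ _ (ord_un hπ hπ1 ha).ge (ord_un hπ hπ1 hb).ge,
      W.map_mul _ _ (res_un_ne hπ hπ1 ha) (res_un_ne hπ hπ1 hb)]
    funext i
    refine Fin.cases ?_ (fun j => ?_) i
    · rfl
    · rfl
  · intro a b ha hb hab
    rw [hv a ha, hv b hb, hv _ hab]
    have h0 := D.ord_add a b ha hb hab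
    rw [min_le_iff, le_cons, le_cons]
    rcases lt_trichotomy (D.ord a) (D.ord b) with h1 | h1 | h1
    · rw [min_eq_left h1.le] at h0
      rcases h0.lt_or_eq with h2 | h2
      · exact Or.inl (Or.inl h2)
      · refine Or.inl (Or.inr ⟨h2, ?_⟩)
        rw [res_un_add hπ hπ1 ha hb h1 h2.symm]
    · rw [h1, min_self] at h0
      rcases h0.lt_or_eq with h2 | h2
      · exact Or.inr (Or.inl h2)
      · have h3 : un D π (a + b) = un D π a + un D π b := by
          unfold un
          rw [← h2, h1, add_mul]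
        have h4 : D.res (un D π (a + b)) = D.res (un D π a) + D.res (un D π b) := by
          rw [h3, D.res_add _ _ (ord_un hπ hπ1 ha).ge (ord_un hπ hπ1 hb).ge]
        have h5 := W.map_add _ _ (res_un_ne hπ hπ1 ha) (res_un_ne hπ hπ1 hb)
          (by rw [← h4]; exact res_un_ne hπ hπ1 hab)
        rw [← h4, min_le_iff] at h5
        rcases h5 with h5 | h5
        · exact Or.inl (Or.inr ⟨h1.trans h2, h5⟩)
        · exact Or.inr (Or.inr ⟨h2, h5⟩)
    · rw [min_eq_right h1.le] at h0
      rcases h0.lt_or_eq with h2 | h2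
      · exact Or.inr (Or.inl h2)
      · refine Or.inr (Or.inr ⟨h2, ?_⟩)
        rw [add_comm a b, res_un_add hπ hπ1 hb ha h1 (by rw [add_comm b a]; exact h2.symm)]
  · intro c
    by_cases hc : algebraMap k L c = 0
    · exact if_pos hc
    · rw [hv _ hc, hun _ (D.ord_const c), D.ord_const c, D.res_const, W.map_const, cons_zero]
  · intro γ
    obtain ⟨f, hf, hfv⟩ := W.surj (Fin.tail γ)
    obtain ⟨a, ha, hres⟩ := D.res_surj f
    have h1 : D.res a ≠ 0 := by rw [hres]; exact hf
    rw [Ne, D.res_eq_zero a ha] at h1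
    push Not at h1
    have h2 : D.ord a = 0 := le_antisymm h1.2 ha
    have h3 : a * π ^ (γ 0) ≠ 0 := mul_ne_zero h1.1 (zpow_ne_zero _ hπ)
    have h4 : D.ord (a * π ^ (γ 0)) = γ 0 := by
      rw [ord_mul_zpow hπ hπ1 h1.1, h2, zero_add]
    refine ⟨a * π ^ (γ 0), h3, ?_⟩
    have h5 : un D π (a * π ^ (γ 0)) = a := by
      unfold un
      rw [h4, mul_assoc, ← zpow_add₀ hπ, add_neg_cancel, zpow_zero, mul_one]
    rw [hv _ h3, h4, h5, hres, hfv, Fin.cons_self_tail]
  · intro a ha hva
    rw [hv a ha] at hva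
    have h1 : D.ord a = 0 := congrFun hva 0
    have h2 : W.v (D.res a) = 0 := by
      funext l
      have h3 := congrFun hva l.succ
      rw [Fin.cons_succ, hun a h1] at h3
      exact h3
    have h3 : D.res a ≠ 0 := by
      rw [← hun a h1]
      exact res_un_ne hπ hπ1 ha
    obtain ⟨c, hc⟩ := W.resid (D.res a) h3 h2
    have hc0 : algebraMap k L c ≠ 0 := by
      intro h4
      have h5 : c = 0 := by
        rw [← map_zero (algebraMap k L)] at h4
        exact (algebraMap k L).injective h4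
      rw [h5, map_zero, sub_zero, h2] at hc
      rcases hc with hc | hc
      · exact h3 hc
      · exact lt_irrefl _ hc
    refine ⟨c, ?_⟩
    by_cases hac : a = algebraMap k L c
    · exact Or.inl hac
    · right
      have h4 : a - algebraMap k L c ≠ 0 := sub_ne_zero.2 hac
      have h5 : a - algebraMap k L c = a + algebraMap k L (-c) := by
        rw [map_neg, sub_eq_add_neg]
      have h6 : 0 ≤ D.ord (a - algebraMap k L c) := by
        rw [h5] at h4 ⊢
        have h7 := D.ord_add a (algebraMap k L (-c)) ha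
          (by rw [map_neg]; exact neg_ne_zero.2 hc0) h4
        rw [h1, D.ord_const, min_self] at h7
        exact h7
      have h7 : D.res (a - algebraMap k L c) = D.res a - algebraMap k D.F c := by
        rw [h5, D.res_add _ _ h1.ge (D.ord_const _).ge, D.res_const, map_neg, sub_eq_add_neg]
      rw [hv _ h4]
      have h8 : (0 : Lex (Fin (t + 1) → ℤ)) = toLex (Fin.cons 0 0 : Fin (t + 1) → ℤ) := by
        rw [cons_zero]
        rfl
      rw [h8, lt_cons]
      rcases h6.lt_or_eq with h9 | h9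
      · exact Or.inl h9
      · refine Or.inr ⟨h9, ?_⟩
        rw [hun _ h9.symm, h7]
        rcases hc with hc | hc
        · exfalso
          have h10 : D.res (a - algebraMap k L c) = 0 := by rw [h7, hc, sub_self]
          rw [D.res_eq_zero _ h6] at h10
          rcases h10 with h10 | h10
          · exact h4 h10
          · omega
        · exact hc
  · intro a ha
    change v a 0 = D.ord a
    rw [hv a ha]
    rfl
  · intro a ha h l
    change v a l.succ = W.v (D.res a) l
    rw [hv a ha, hun a h]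
    rfl

end Pool.Agent.GC
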