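import Mathlib
import Pool.Agent.Lib.MP_c95b3b_ag_GC.Defs

set_option autoImplicit false

/-! Project GC, module DP: the place of a prime ideal of a Dedekind domain. -/

namespace Pool.Agent.GC

namespace DprAux

section

variable {S L : Type} [CommRing S] [IsDedekindDomain S] [Field L] [Algebra S L]
  [IsFractionRing S L] (P : IsDedekindDomain.HeightOneSpectrum S)

theorem val_ne {a : L} (ha : a ≠ 0) : P.valuation L a ≠ 0 :=
  (Valuation.ne_zero_iff _).2 ha

theorem nonneg_iff {a : L} (ha : a ≠ 0) :
    0 ≤ -WithZero.log (P.valuation L a) ↔ P.valuation L a ≤ 1 := by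
  rw [neg_nonneg, ← WithZero.log_one, WithZero.log_le_log (val_ne P ha) one_ne_zero]

theorem pos_iff {a : L} (ha : a ≠ 0) :
    0 < -WithZero.log (P.valuation L a) ↔ P.valuation L a < 1 := by
  rw [neg_pos, ← WithZero.log_one, WithZero.log_lt_log (val_ne P ha) one_ne_zero]

theorem le_one_of_nonneg {a : L} (h : 0 ≤ -WithZero.log (P.valuation L a)) :
    P.valuation L a ≤ 1 := by
  by_cases ha : a = 0
  · rw [ha, map_zero]
    exact zero_le_one
  · exact (nonneg_iff P ha).1 h

theorem nonneg_of_le_one {a : L} (h : P.valuation L a ≤ 1) :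
    0 ≤ -WithZero.log (P.valuation L a) := by
  by_cases ha : a = 0
  · rw [ha, map_zero, WithZero.log_zero, neg_zero]
  · exact (nonneg_iff P ha).2 h

theorem rep {a : L} (h : 0 ≤ -WithZero.log (P.valuation L a)) :
    ∃ q : S × S, q.2 ∉ P.asIdeal ∧ a * algebraMap S L q.2 = algebraMap S L q.1 := by
  obtain ⟨n, d, hd⟩ := P.exists_primeCompl_mul_eq_of_integer a (le_one_of_nonneg P h)
  exact ⟨(n, d), d.2, hd⟩

theorem val_eq_one {s : S} (hs : s ∉ P.asIdeal) : P.valuation L (algebraMap S L s) = 1 :=
  (P.valuation_eq_one_iff_notMem).2 hs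

theorem val_rep {a : L} {r s : S} (hs : s ∉ P.asIdeal)
    (h : a * algebraMap S L s = algebraMap S L r) :
    P.valuation L a = P.valuation L (algebraMap S L r) := by
  rw [← h, map_mul, val_eq_one P hs, mul_one]

omit [IsDedekindDomain S] in
theorem cross {a : L} {r s r' s' : S} (h : a * algebraMap S L s = algebraMap S L r)
    (h' : a * algebraMap S L s' = algebraMap S L r') : r * s' = r' * s := by
  apply IsFractionRing.injective S L
  rw [map_mul, map_mul, ← h, ← h']
  ring

end

end DprAux

open DprAux in
theorem exists_DP (k S L : Type) [Field k] [CommRing S] [IsDedekindDomain S] [Algebra k S]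
    [Field L] [Algebra S L] [IsFractionRing S L] [Algebra k L] [IsScalarTower k S L]
    (P : IsDedekindDomain.HeightOneSpectrum S) :
    ∃ (D : DP k L) (e : D.F ≃ₐ[k] (S ⧸ P.asIdeal)),
      (∀ a, D.ord a = -WithZero.log (P.valuation L a)) ∧
      ∀ s : S, e (D.res (algebraMap S L s)) = Ideal.Quotient.mk P.asIdeal s := by
  classical
  have hmax : P.asIdeal.IsMaximal := P.isMaximal
  let fF : Field (S ⧸ P.asIdeal) := Ideal.Quotient.field P.asIdeal
  have hmk : ∀ s : S, Ideal.Quotient.mk P.asIdeal s = 0 ↔ s ∈ P.asIdeal := fun s =>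
    Ideal.Quotient.eq_zero_iff_mem
  let res : L → S ⧸ P.asIdeal := fun a =>
    if h : 0 ≤ -WithZero.log (P.valuation L a) then
      Ideal.Quotient.mk P.asIdeal (rep P h).choose.1 /
        Ideal.Quotient.mk P.asIdeal (rep P h).choose.2
    else 0
  have spec : ∀ (a : L) (r s : S), s ∉ P.asIdeal → a * algebraMap S L s = algebraMap S L r →
      res a = Ideal.Quotient.mk P.asIdeal r / Ideal.Quotient.mk P.asIdeal s := by
    intro a r s hs h
    have h0 : 0 ≤ -WithZero.log (P.valuation L a) := by
      refine nonneg_of_le_one P ?_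
      rw [val_rep P hs h]
      exact P.valuation_le_one r
    have hr := (rep P h0).choose_spec
    have h1 : res a = Ideal.Quotient.mk P.asIdeal (rep P h0).choose.1 /
        Ideal.Quotient.mk P.asIdeal (rep P h0).choose.2 := dif_pos h0
    rw [h1]
    have h2 : Ideal.Quotient.mk P.asIdeal (rep P h0).choose.2 ≠ 0 := fun h =>
      hr.1 ((hmk _).1 h)
    have h3 : Ideal.Quotient.mk P.asIdeal s ≠ 0 := fun h => hs ((hmk _).1 h)
    rw [div_eq_div_iff h2 h3, ← map_mul, ← map_mul, cross h hr.2]
  have alg1 : ∀ s : S, res (algebraMap S L s) = Ideal.Quotient.mk P.asIdeal s := by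
    intro s
    have h1 : (1 : S) ∉ P.asIdeal := (Ideal.ne_top_iff_one _).1 hmax.ne_top
    rw [spec (algebraMap S L s) s 1 h1 (by rw [map_one, mul_one]), map_one, div_one]
  have hconst : ∀ c : k, -WithZero.log (P.valuation L (algebraMap k L c)) = 0 := by
    intro c
    by_cases hc : c = 0
    · rw [hc, map_zero, map_zero, WithZero.log_zero, neg_zero]
    · have h1 : algebraMap k S c ∉ P.asIdeal := by
        intro h
        refine hmax.ne_top (Ideal.eq_top_of_isUnit_mem _ h ?_)
        exact (IsUnit.mk0 c hc).map (algebraMap k S)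
      rw [IsScalarTower.algebraMap_apply k S L, val_eq_one P h1, WithZero.log_one, neg_zero]
  let D : DP k L :=
    { F := S ⧸ P.asIdeal
      fld := fF
      alg := inferInstance
      ord := fun a => -WithZero.log (P.valuation L a)
      res := res
      ord_zero := by
        rw [map_zero, WithZero.log_zero, neg_zero]
      ord_mul := by
        intro a b ha hb
        rw [map_mul, WithZero.log_mul (val_ne P ha) (val_ne P hb)]
        ring
      ord_add := by
        intro a b ha hb hab
        have h := Valuation.map_add (P.valuation L) a b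
        rcases le_total (P.valuation L a) (P.valuation L b) with h1 | h1
        · rw [max_eq_right h1] at h
          refine (min_le_right _ _).trans ?_
          rw [neg_le_neg_iff, WithZero.log_le_log (val_ne P hab) (val_ne P hb)]
          exact h
        · rw [max_eq_left h1] at h
          refine (min_le_left _ _).trans ?_
          rw [neg_le_neg_iff, WithZero.log_le_log (val_ne P hab) (val_ne P ha)]
          exact h
      ord_const := hconst
      ord_surj := by
        obtain ⟨π, hπ⟩ := P.valuation_exists_uniformizer L
        refine ⟨π, ?_, ?_⟩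
        · intro h
          rw [h, map_zero] at hπ
          exact WithZero.exp_ne_zero hπ.symm
        · rw [hπ, WithZero.log_exp, neg_neg]
      res_add := by
        intro a b ha hb
        obtain ⟨⟨r, s⟩, hs, h⟩ := rep P ha
        obtain ⟨⟨r', s'⟩, hs', h'⟩ := rep P hb
        dsimp only at hs h hs' h'
        have h1 : s * s' ∉ P.asIdeal := by
          intro h
          rcases P.isPrime.mem_or_mem h with h | h
          · exact hs h
          · exact hs' h
        have h2 : (a + b) * algebraMap S L (s * s') = algebraMap S L (r * s' + r' * s) := by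
          rw [map_mul, map_add, map_mul, map_mul, ← h, ← h']
          ring
        rw [spec _ _ _ h1 h2, spec _ _ _ hs h, spec _ _ _ hs' h']
        have h3 : Ideal.Quotient.mk P.asIdeal s ≠ 0 := fun h => hs ((hmk _).1 h)
        have h4 : Ideal.Quotient.mk P.asIdeal s' ≠ 0 := fun h => hs' ((hmk _).1 h)
        rw [div_add_div _ _ h3 h4, map_add, map_mul, map_mul, map_mul]
        congr 1
        ring
      res_mul := by
        intro a b ha hb
        obtain ⟨⟨r, s⟩, hs, h⟩ := rep P ha
        obtain ⟨⟨r', s'⟩, hs', h'⟩ := rep P hb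
        dsimp only at hs h hs' h'
        have h1 : s * s' ∉ P.asIdeal := by
          intro h
          rcases P.isPrime.mem_or_mem h with h | h
          · exact hs h
          · exact hs' h
        have h2 : (a * b) * algebraMap S L (s * s') = algebraMap S L (r * r') := by
          rw [map_mul, map_mul, ← h, ← h']
          ring
        rw [spec _ _ _ h1 h2, spec _ _ _ hs h, spec _ _ _ hs' h', div_mul_div_comm, map_mul,
          map_mul]
      res_const := by
        intro c
        rw [IsScalarTower.algebraMap_apply k S L, alg1]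
        rfl
      res_eq_zero := by
        intro a ha
        obtain ⟨⟨r, s⟩, hs, h⟩ := rep P ha
        dsimp only at hs h
        have h3 : Ideal.Quotient.mk P.asIdeal s ≠ 0 := fun h => hs ((hmk _).1 h)
        rw [spec _ _ _ hs h, div_eq_zero_iff]
        have h4 : (Ideal.Quotient.mk P.asIdeal r = 0 ∨ Ideal.Quotient.mk P.asIdeal s = 0) ↔
            P.valuation L a < 1 := by
          rw [or_iff_left h3, hmk, val_rep P hs h]
          exact (P.valuation_lt_one_iff_mem r).symm
        rw [h4]
        by_cases ha0 : a = 0
        · rw [ha0, map_zero]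
          simp
        · rw [pos_iff P ha0]
          simp [ha0]
      res_surj := by
        intro f
        obtain ⟨s, rfl⟩ := Ideal.Quotient.mk_surjective f
        refine ⟨algebraMap S L s, nonneg_of_le_one P (P.valuation_le_one s), alg1 s⟩ }
  refine ⟨D, AlgEquiv.refl, fun a => rfl, fun s => alg1 s⟩

end Pool.Agent.GC
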