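import Mathlib
import Pool.Agent.Lib.MP_c95b3b_ag_GC.Dpr

set_option autoImplicit false

/-! Project GC, module PL: the places over `y = 0`. -/

namespace Pool.Agent.GC

open Module

namespace Places

open IsDedekindDomain

/-- the places over a prime ideal `p` of `R`, for a finite extension `S` of `R` -/
theorem core (k R K L S : Type) [Field k] [CommRing R] [IsDedekindDomain R] [Algebra k R]
    [Field K] [Algebra R K] [IsFractionRing R K] [Field L] [Algebra K L] [Algebra R L]
    [IsScalarTower R K L] [CommRing S] [IsDedekindDomain S] [Algebra R S] [Algebra S L]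
    [IsFractionRing S L] [IsScalarTower R S L] [Module.Finite R S] [Module.IsTorsionFree R S]
    [Algebra k S] [IsScalarTower k R S] [Algebra k L] [IsScalarTower k S L]
    (p : HeightOneSpectrum R) (x : R) (hx : p.intValuation x = WithZero.exp (-1 : ℤ))
    (hp : Function.Surjective (algebraMap k (R ⧸ p.asIdeal))) :
    ∃ (N : ℕ) (P : Fin N → DP k L), (∀ i, 0 < (P i).ord (algebraMap R L x)) ∧
      (∀ i, Module.Finite k (P i).F) ∧
      ∑ i, ((P i).ord (algebraMap R L x)).toNat * finrank k (P i).F = finrank K L ∧
      ∀ f : ∀ i, (P i).F, ∃ a, ∀ i, 0 ≤ (P i).ord a ∧ (P i).res a = f i := by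
  classical
  have hpm : p.asIdeal.IsMaximal := p.isPrime.isMaximal p.ne_bot
  set T : Finset (Ideal S) := IsDedekindDomain.primesOverFinset p.asIdeal S with hT
  have hTm : ∀ Q ∈ T, Q.IsPrime ∧ Q.LiesOver p.asIdeal := by
    intro Q hQ
    exact (IsDedekindDomain.mem_primesOverFinset_iff p.ne_bot S).1 hQ
  have hTb : ∀ Q ∈ T, Q ≠ ⊥ := by
    intro Q hQ
    have := (hTm Q hQ).2
    exact Ideal.ne_bot_of_liesOver_of_ne_bot p.ne_bot Q
  let e : T ≃ Fin T.card := T.equivFin
  let H : Fin T.card → HeightOneSpectrum S := fun i =>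
    ⟨(e.symm i).1, (hTm _ (e.symm i).2).1, hTb _ (e.symm i).2⟩
  have hover : ∀ i, (H i).asIdeal.LiesOver p.asIdeal := fun i => (hTm _ (e.symm i).2).2
  choose P E hP1 hP2 using fun i => exists_DP k S L (H i)
  -- the order of x
  have hord : ∀ i, (P i).ord (algebraMap R L x) =
      (p.asIdeal.ramificationIdx' (H i).asIdeal : ℤ) := by
    intro i
    have := hover i
    rw [hP1, IsScalarTower.algebraMap_apply R S L, HeightOneSpectrum.valuation_of_algebraMap,
      ← HeightOneSpectrum.intValuation_liesOver p (H i), hx, WithZero.log_pow, WithZero.log_exp]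
    simp
  have hpos : ∀ i, 0 < p.asIdeal.ramificationIdx' (H i).asIdeal := by
    intro i
    have := hover i
    have := (H i).isPrime
    exact Nat.pos_of_ne_zero
      (Ideal.IsDedekindDomain.ramificationIdx'_ne_zero_of_liesOver (H i).asIdeal p.ne_bot)
  -- finiteness and the residue degrees
  have hkfin : Module.Finite k (R ⧸ p.asIdeal) :=
    Module.Finite.of_surjective (Algebra.linearMap k (R ⧸ p.asIdeal)) hp
  have htow : ∀ i, IsScalarTower k (R ⧸ p.asIdeal) (S ⧸ (H i).asIdeal) := by
    intro i
    have := hover i
    refine IsScalarTower.of_algebraMap_eq fun c => ?_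
    rw [IsScalarTower.algebraMap_apply k R (R ⧸ p.asIdeal),
      IsScalarTower.algebraMap_apply k S (S ⧸ (H i).asIdeal), IsScalarTower.algebraMap_apply k R S]
    rfl
  have hfinq : ∀ i, Module.Finite k (S ⧸ (H i).asIdeal) := by
    intro i
    have := hover i
    have := htow i
    exact Module.Finite.trans (R ⧸ p.asIdeal) (S ⧸ (H i).asIdeal)
  have hdeg : ∀ i, finrank k (P i).F = p.asIdeal.inertiaDeg' (H i).asIdeal := by
    intro i
    have := hover i
    have := htow i
    rw [(E i).toLinearEquiv.finrank_eq, Ideal.inertiaDeg'_algebraMap]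
    have hbij : Function.Bijective (algebraMap k (R ⧸ p.asIdeal)) :=
      ⟨(algebraMap k (R ⧸ p.asIdeal)).injective, hp⟩
    refine Algebra.finrank_eq_of_equiv_equiv
      (RingEquiv.ofBijective (algebraMap k (R ⧸ p.asIdeal)) hbij) (RingEquiv.refl _) ?_
    ext c
    simp [← IsScalarTower.algebraMap_apply]
  refine ⟨T.card, P, ?_, ?_, ?_, ?_⟩
  · intro i
    rw [hord]
    exact_mod_cast hpos i
  · intro i
    have := hfinq i
    exact Module.Finite.equiv (E i).symm.toLinearEquiv
  · have hsum := Ideal.sum_ramification_inertia S K L p.ne_bot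
    rw [← hT, ← Finset.sum_coe_sort T, ← e.symm.sum_comp] at hsum
    rw [← hsum]
    refine Finset.sum_congr rfl fun i _ => ?_
    rw [hord, hdeg]
    rfl
  · intro f
    choose g hg using fun i => Ideal.Quotient.mk_surjective (E i (f i))
    obtain ⟨s, hs⟩ := IsDedekindDomain.exists_forall_sub_mem_ideal (s := Finset.univ)
      (fun i : Fin T.card => (H i).asIdeal) (fun _ => 1)
      (fun i _ => (Ideal.prime_iff_isPrime (H i).ne_bot).2 (H i).isPrime)
      (fun i _ j _ hij h => hij (e.symm.injective (Subtype.ext h)))
      (fun i => g i.1)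
    refine ⟨algebraMap S L s, fun i => ⟨?_, ?_⟩⟩
    · rw [hP1]
      have h1 : (H i).valuation L (algebraMap S L s) ≤ 1 := (H i).valuation_le_one s
      rcases eq_or_ne ((H i).valuation L (algebraMap S L s)) 0 with h0 | h0
      · rw [h0]; simp
      · have h2 := (WithZero.log_le_log h0 one_ne_zero).2 h1
        rw [WithZero.log_one] at h2
        omega
    · apply (E i).injective
      rw [hP2, ← hg i]
      have h3 := hs i (Finset.mem_univ i)
      rw [pow_one] at h3
      exact Ideal.Quotient.eq.2 h3

end Places

theorem exists_places (k L : Type) [Field k] [CharZero k] [Field L] [Algebra k L] (y : L)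
    (hy : Transcendental k y) (hfin : FiniteDimensional (IntermediateField.adjoin k {y}) L) :
    ∃ (N : ℕ) (P : Fin N → DP k L), (∀ i, 0 < (P i).ord y) ∧ (∀ i, Module.Finite k (P i).F) ∧
      ∑ i, ((P i).ord y).toNat * finrank k (P i).F =
        finrank (IntermediateField.adjoin k {y}) L ∧
      ∀ f : ∀ i, (P i).F, ∃ a, ∀ i, 0 ≤ (P i).ord a ∧ (P i).res a = f i := by
  let φ : Polynomial k →ₐ[k] L := Polynomial.aeval y
  have hφ : Function.Injective φ := transcendental_iff_injective.1 hy
  let _ : Algebra (Polynomial k) L := φ.toRingHom.toAlgebra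
  have hRL : ∀ q : Polynomial k, algebraMap (Polynomial k) L q = Polynomial.aeval y q :=
    fun q => rfl
  have h1 : IsScalarTower k (Polynomial k) L := IsScalarTower.of_algebraMap_eq fun c => by
    rw [hRL, Polynomial.algebraMap_apply, Polynomial.aeval_C, Algebra.algebraMap_self_apply]
  have h2 : FaithfulSMul (Polynomial k) L := (faithfulSMul_iff_algebraMap_injective _ _).2 hφ
  let e : RatFunc k ≃ₐ[k] IntermediateField.adjoin k {y} := RatFunc.algEquivOfTranscendental y hy
  let _ : Algebra (RatFunc k) L :=
    ((algebraMap (IntermediateField.adjoin k {y}) L).comp e.toRingEquiv.toRingHom).toAlgebra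
  have hKL : ∀ q : RatFunc k, algebraMap (RatFunc k) L q = (e q : L) := fun q => rfl
  have h3 : IsScalarTower (Polynomial k) (RatFunc k) L :=
    IsScalarTower.of_algebraMap_eq fun q => by
      rw [hKL, hRL]
      change _ = ((RatFunc.algEquivOfTranscendental y hy
        (algebraMap (Polynomial k) (RatFunc k) q) : IntermediateField.adjoin k {y}) : L)
      rw [RatFunc.algEquivOfTranscendental_algebraMap]
      exact (Polynomial.aeval_algebraMap_apply L
        (IntermediateField.AdjoinSimple.gen k y) q).symm ▸ rfl
  have hrank : finrank (RatFunc k) L = finrank (IntermediateField.adjoin k {y}) L :=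
    Algebra.finrank_eq_of_equiv_equiv e.toRingEquiv (RingEquiv.refl L) (by
      ext q
      rfl)
  have hfinK : FiniteDimensional (RatFunc k) L :=
    Module.Finite.of_equiv_equiv e.symm.toRingEquiv (RingEquiv.refl L) (by
      ext q
      change ((e (e.symm q) : IntermediateField.adjoin k {y}) : L) = _
      rw [e.apply_symm_apply]
      rfl)
  have hchar : CharZero (RatFunc k) :=
    charZero_of_injective_algebraMap (algebraMap k (RatFunc k)).injective
  let S := integralClosure (Polynomial k) L
  have hD : IsDedekindDomain S := integralClosure.isDedekindDomain (Polynomial k) (RatFunc k) L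
  have hF : IsFractionRing S L := integralClosure.isFractionRing_of_finite_extension (RatFunc k) L
  have hM : Module.Finite (Polynomial k) S :=
    IsIntegralClosure.finite (Polynomial k) (RatFunc k) L S
  have hT : Module.IsTorsionFree (Polynomial k) S :=
    IsIntegralClosure.isTorsionFree (Polynomial k) L
  have hsurj : Function.Surjective
      (algebraMap k (Polynomial k ⧸ (Polynomial.idealX k).asIdeal)) := by
    intro q
    obtain ⟨q, rfl⟩ := Ideal.Quotient.mk_surjective q
    refine ⟨q.coeff 0, ?_⟩
    change Ideal.Quotient.mk _ (Polynomial.C (q.coeff 0)) = _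
    rw [Ideal.Quotient.eq, Polynomial.idealX_span, Ideal.mem_span_singleton, Polynomial.X_dvd_iff]
    simp
  have hx : (Polynomial.idealX k).intValuation Polynomial.X = WithZero.exp (-1 : ℤ) :=
    IsDedekindDomain.HeightOneSpectrum.intValuation_singleton _ Polynomial.X_ne_zero
      (Polynomial.idealX_span k)
  have hy' : algebraMap (Polynomial k) L Polynomial.X = y := by
    rw [hRL, Polynomial.aeval_X]
  have key := Places.core k (Polynomial k) (RatFunc k) L S (Polynomial.idealX k) Polynomial.X
    hx hsurj
  rw [hy', hrank] at key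
  exact key

end Pool.Agent.GC
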