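import Mathlib
import Pool.Agent.Lib.MP_c95b3b_ag_GC.Comp
import Pool.Agent.Lib.MP_c95b3b_ag_GC.Places

set_option autoImplicit false

/-! Project GC, module FL: the valuations over the monomial valuation of `k(y)`. -/

namespace Pool.Agent.GC

open Module

namespace Flags

open IntermediateField

section restr
variable {k L : Type} [Field k] [Field L] [Algebra k L] {k' : IntermediateField k L}

/-- a place over the intermediate field `k'` as a place over `k` -/
noncomputable def restr (P : DP k' L) : DP k L where
  F := P.F
  alg := ((algebraMap k' P.F).comp (algebraMap k k')).toAlgebra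
  ord := P.ord
  res := P.res
  ord_zero := P.ord_zero
  ord_mul := P.ord_mul
  ord_add := P.ord_add
  ord_const c := P.ord_const (algebraMap k k' c)
  ord_surj := P.ord_surj
  res_add := P.res_add
  res_mul := P.res_mul
  res_const c := P.res_const (algebraMap k k' c)
  res_eq_zero := P.res_eq_zero
  res_surj := P.res_surj

/-- the embedding of `k'` into the residue field -/
noncomputable def emb (P : DP k' L) : k' →ₐ[k] (restr P).F :=
  { algebraMap k' P.F with commutes' := fun _ => rfl }

/-- the identity of the residue field -/
noncomputable def idF (P : DP k' L) : P.F ≃+* (restr P).F := RingEquiv.refl P.F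

theorem emb_apply (P : DP k' L) (x : k') : emb P x = (restr P).res (x : L) :=
  (P.res_const x).symm

theorem emb_injective (P : DP k' L) : Function.Injective (emb P) := (emb P).injective

end restr

/-- the image of a finite subextension in the residue field -/
theorem step {k L : Type} [Field k] [Field L] [Algebra k L] {t : ℕ} (x : Fin t → L)
    (hx : AlgebraicIndependent k x) (P : DP (adjoin k (Set.range x)) L)
    (hP : Module.Finite (adjoin k (Set.range x)) P.F) :
    ∃ y' : Fin t → (restr P).F, AlgebraicIndependent k y' ∧
      FiniteDimensional (adjoin k (Set.range y')) (restr P).F ∧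
      finrank (adjoin k (Set.range y')) (restr P).F = finrank (adjoin k (Set.range x)) P.F ∧
      ∀ j, x j ≠ 0 ∧ (restr P).ord (x j) = 0 ∧ y' j = (restr P).res (x j) := by
  obtain ⟨x', hx'⟩ : ∃ x' : Fin t → adjoin k (Set.range x), ∀ j, (x' j : L) = x j :=
    ⟨fun j => ⟨x j, subset_adjoin k _ ⟨j, rfl⟩⟩, fun j => rfl⟩
  have hind : AlgebraicIndependent k x' := by
    rw [← AlgHom.algebraicIndependent_iff (adjoin k (Set.range x)).val Subtype.val_injective]
    have h1 : (adjoin k (Set.range x)).val ∘ x' = x := funext hx'
    rw [h1]
    exact hx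
  have htop : adjoin k (Set.range x') = ⊤ := by
    apply IntermediateField.lift_injective (adjoin k (Set.range x))
    rw [lift_adjoin, lift_top, ← Set.range_comp]
    congr 2
    exact funext hx'
  have hrange : adjoin k (Set.range (emb P ∘ x')) = (emb P).fieldRange := by
    rw [Set.range_comp, ← adjoin_map, htop, AlgHom.fieldRange_eq_map]
  let e : adjoin k (Set.range x) ≃+* adjoin k (Set.range (emb P ∘ x')) :=
    (AlgEquiv.ofInjectiveField (emb P)).toRingEquiv.trans
      (IntermediateField.equivOfEq hrange.symm).toRingEquiv
  have he : ∀ c, ((e c : adjoin k (Set.range (emb P ∘ x'))) : (restr P).F) = emb P c :=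
    fun c => rfl
  have hcomp : (algebraMap (adjoin k (Set.range (emb P ∘ x'))) (restr P).F).comp
      e.toRingHom = (idF P).toRingHom.comp (algebraMap (adjoin k (Set.range x)) P.F) := by
    ext c
    exact he c
  refine ⟨emb P ∘ x', hind.map' (emb_injective P), ?_, ?_, ?_⟩
  · exact Module.Finite.of_equiv_equiv e (idF P) hcomp
  · exact (Algebra.finrank_eq_of_equiv_equiv e (idF P) hcomp).symm
  · intro j
    refine ⟨hx.ne_zero j, ?_, ?_⟩
    · have := P.ord_const (x' j)
      rw [← hx' j]
      exact this
    · rw [Function.comp_apply, emb_apply, hx' j]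

theorem pos_iff {t : ℕ} (w : Fin (t + 1) → ℤ) :
    0 < toLex w ↔ 0 < w 0 ∨ w 0 = 0 ∧ 0 < toLex (Fin.tail w) := by
  have h1 : (0 : Lex (Fin (t + 1) → ℤ)) = toLex (Fin.cons 0 0 : Fin (t + 1) → ℤ) := by
    rw [Comp.cons_zero]
    rfl
  conv_lhs => rw [← Fin.cons_self_tail w]
  rw [h1, Comp.lt_cons]
  exact or_congr Iff.rfl (and_congr eq_comm Iff.rfl)

section tower
variable {k L : Type} [Field k] [Field L] [Algebra k L] {t : ℕ} (y : Fin (t + 1) → L)

omit [Field L] in
theorem range_eq : Set.range y = Set.range (Fin.tail y) ∪ {y 0} := by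
  ext a
  constructor
  · rintro ⟨j, rfl⟩
    refine Fin.cases ?_ (fun j => ?_) j
    · exact Or.inr rfl
    · exact Or.inl ⟨j, rfl⟩
  · rintro (⟨j, rfl⟩ | h)
    · exact ⟨j.succ, rfl⟩
    · exact ⟨0, h.symm⟩

theorem tower : (adjoin (adjoin k (Set.range (Fin.tail y))) {y 0}).restrictScalars k =
    adjoin k (Set.range y) := by
  rw [adjoin_adjoin_left, ← range_eq]

theorem tower_fin (h : FiniteDimensional (adjoin k (Set.range y)) L) :
    FiniteDimensional (adjoin (adjoin k (Set.range (Fin.tail y))) {y 0}) L := by
  rw [← tower] at h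
  exact h

theorem tower_rank : finrank (adjoin (adjoin k (Set.range (Fin.tail y))) {y 0}) L =
    finrank (adjoin k (Set.range y)) L := by
  rw [← tower]
  rfl

theorem transc (hy : AlgebraicIndependent k y) :
    Transcendental (adjoin k (Set.range (Fin.tail y))) (y 0) := by
  have h := hy.transcendental_adjoin (s := Set.range Fin.succ) (i := 0)
    (by rintro ⟨j, hj⟩; exact Fin.succ_ne_zero j hj)
  rw [← Set.range_comp] at h
  exact transcendental_adjoin_iff.2 h

end tower

theorem flags (k : Type) [Field k] [IsAlgClosed k] [CharZero k] (t : ℕ) :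
    ∀ (L : Type) [Field L] [Algebra k L] (y : Fin t → L), AlgebraicIndependent k y →
      FiniteDimensional (adjoin k (Set.range y)) L →
      ∃ (J : Type) (_ : Fintype J) (V : J → LV k L t), (∀ i j l, l < j → (V i).v (y j) l = 0) ∧
        (∀ i j, 0 < (V i).v (y j) j) ∧
        ∑ i, ∏ j, ((V i).v (y j) j).toNat = finrank (adjoin k (Set.range y)) L ∧
        ∀ i, ∃ z, z ≠ 0 ∧ (z = 1 ∨ 0 < toLex ((V i).v (z - 1))) ∧
          ∀ j, j ≠ i → 0 < toLex ((V j).v z) := by
  classical
  induction t with
  | zero =>
    intro L _ _ y hy hfin
    have hr : adjoin k (Set.range y) = ⊥ := by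
      rw [Set.range_eq_empty, adjoin_empty]
    rw [hr] at hfin ⊢
    have hfk : FiniteDimensional k L := FiniteDimensional.trans k (⊥ : IntermediateField k L) L
    have hbij : Function.Bijective (algebraMap k L) :=
      IsAlgClosed.algebraMap_bijective_of_isIntegral
    have hone : finrank k L = 1 := by
      rw [← (AlgEquiv.ofBijective (Algebra.ofId k L) hbij).toLinearEquiv.finrank_eq,
        Module.finrank_self]
    have hbot : finrank (⊥ : IntermediateField k L) L = 1 := by
      rw [finrank_bot', hone]
    let V : LV k L 0 :=
      { v := fun _ => 0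
        map_zero := rfl
        map_mul := fun _ _ _ _ => (add_zero _).symm
        map_add := fun _ _ _ _ _ => min_le_left _ _
        map_const := fun _ => rfl
        surj := fun γ => ⟨1, one_ne_zero, Subsingleton.elim _ _⟩
        resid := fun a _ _ => by
          obtain ⟨c, rfl⟩ := hbij.2 a
          exact ⟨c, Or.inl rfl⟩ }
    refine ⟨Unit, inferInstance, fun _ => V, fun _ j => j.elim0, fun _ j => j.elim0, ?_, ?_⟩
    · rw [hbot]
      simp
    · intro i
      exact ⟨1, one_ne_zero, Or.inl rfl, fun j hj => absurd (Subsingleton.elim j i) hj⟩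
  | succ t ih =>
    intro L _ _ y hy hfin
    obtain ⟨x, hxdef⟩ : ∃ x, x = Fin.tail y := ⟨_, rfl⟩
    have hx : AlgebraicIndependent k x := by
      rw [hxdef]
      exact hy.comp Fin.succ (Fin.succ_injective t)
    have htr : Transcendental (adjoin k (Set.range x)) (y 0) := by
      rw [hxdef]
      exact transc y hy
    have hfin' : FiniteDimensional (adjoin (adjoin k (Set.range x)) {y 0}) L := by
      rw [hxdef]
      exact tower_fin y hfin
    have hrank : finrank (adjoin (adjoin k (Set.range x)) {y 0}) L =
        finrank (adjoin k (Set.range y)) L := by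
      rw [hxdef]
      exact tower_rank y
    have hxj : ∀ j, x j = y j.succ := fun j => by rw [hxdef]; rfl
    have hchar : CharZero (adjoin k (Set.range x)) :=
      charZero_of_injective_algebraMap (algebraMap k (adjoin k (Set.range x))).injective
    obtain ⟨N, P, hP1, hP2, hP3, hP4⟩ := exists_places (adjoin k (Set.range x)) L (y 0) htr hfin'
    choose y' hy1 hy2 hy3 hy4 using fun i => step x hx (P i) (hP2 i)
    choose J hJ W hW1 hW2 hW3 hW4 using fun i => ih (restr (P i)).F (y' i) (hy1 i) (hy2 i)
    choose V hV1 hV2 using fun (i : Fin N) (s : J i) => exists_comp (restr (P i)) (W i s)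
    have hy0 : y 0 ≠ 0 := hy.ne_zero 0
    have hv0 : ∀ i s, (V i s).v (y 0) 0 = (P i).ord (y 0) := fun i s => hV1 i s _ hy0
    have hs0 : ∀ i s (j : Fin t), (V i s).v (y j.succ) 0 = 0 := by
      intro i s j
      rw [← hxj, hV1 i s _ (hy4 i j).1, (hy4 i j).2.1]
    have hss : ∀ i s (j l : Fin t), (V i s).v (y j.succ) l.succ = (W i s).v (y' i j) l := by
      intro i s j l
      rw [← hxj, hV2 i s _ (hy4 i j).1 (hy4 i j).2.1, (hy4 i j).2.2]
    refine ⟨Σ i, J i, inferInstance, fun s => V s.1 s.2, ?_, ?_, ?_, ?_⟩
    · rintro ⟨i, s⟩ j l hl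
      dsimp only
      induction j using Fin.cases with
      | zero => exact absurd hl (Fin.not_lt_zero l)
      | succ j =>
        induction l using Fin.cases with
        | zero => exact hs0 i s j
        | succ l =>
          rw [hss]
          exact hW1 i s j l (Fin.succ_lt_succ_iff.1 hl)
    · rintro ⟨i, s⟩ j
      dsimp only
      induction j using Fin.cases with
      | zero =>
        rw [hv0]
        exact hP1 i
      | succ j =>
        rw [hss]
        exact hW2 i s j
    · rw [← hrank, ← hP3, Fintype.sum_sigma]
      refine Finset.sum_congr rfl fun i _ => ?_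
      rw [← hy3 i, ← hW3 i, Finset.mul_sum]
      refine Finset.sum_congr rfl fun s _ => ?_
      rw [Fin.prod_univ_succ]
      dsimp only
      rw [hv0]
      congr 1
      exact Finset.prod_congr rfl fun j _ => by rw [hss]
    · rintro ⟨i, s⟩
      obtain ⟨z', hz0, hz1, hz2⟩ := hW4 i s
      obtain ⟨z, hz⟩ := hP4 (Function.update (fun i => (0 : (P i).F)) i z')
      have hzi : (restr (P i)).res z = z' := by
        have := (hz i).2
        rw [Function.update_self] at this
        exact this
      have hzj : ∀ j, j ≠ i → (restr (P j)).res z = 0 := by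
        intro j hj
        have := (hz j).2
        rw [Function.update_of_ne hj] at this
        exact this
      have hord : ∀ j, 0 ≤ (restr (P j)).ord z := fun j => (hz j).1
      have h1 : ¬ (z = 0 ∨ 0 < (restr (P i)).ord z) := by
        rw [← (restr (P i)).res_eq_zero z (hord i), hzi]
        exact hz0
      push Not at h1
      have h2 : (restr (P i)).ord z = 0 := le_antisymm h1.2 (hord i)
      refine ⟨z, h1.1, ?_, ?_⟩
      · dsimp only
        by_cases hz3 : z = 1
        · exact Or.inl hz3
        · right
          have h3 : z - 1 ≠ 0 := sub_ne_zero.2 hz3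
          have h4 : z - 1 = z + algebraMap k L (-1) := by
            rw [map_neg, map_one, sub_eq_add_neg]
          have h5 : 0 ≤ (restr (P i)).ord (z - 1) := by
            rw [h4] at h3 ⊢
            have h6 := (restr (P i)).ord_add z (algebraMap k L (-1)) h1.1
              (by rw [map_neg, map_one]; exact neg_ne_zero.2 one_ne_zero) h3
            rw [h2, (restr (P i)).ord_const, min_self] at h6
            exact h6
          have h6 : (restr (P i)).res (z - 1) = z' - 1 := by
            rw [h4, (restr (P i)).res_add _ _ (hord i) ((restr (P i)).ord_const _).ge,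
              (restr (P i)).res_const, hzi, map_neg, map_one, sub_eq_add_neg]
          rw [pos_iff, hV1 i s _ h3]
          rcases h5.lt_or_eq with h7 | h7
          · exact Or.inl h7
          · refine Or.inr ⟨h7.symm, ?_⟩
            have h8 : Fin.tail ((V i s).v (z - 1)) = (W i s).v (z' - 1) := by
              funext l
              rw [← h6]
              exact hV2 i s _ h3 h7.symm l
            rw [h8]
            rcases hz1 with hz1 | hz1
            · exfalso
              have h9 : (restr (P i)).res (z - 1) = 0 := by rw [h6, hz1, sub_self]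
              rw [(restr (P i)).res_eq_zero _ h5] at h9
              rcases h9 with h9 | h9
              · exact h3 h9
              · omega
            · exact hz1
      · rintro ⟨i', s'⟩ hne
        dsimp only
        rw [pos_iff, hV1 i' s' _ h1.1]
        by_cases hi : i' = i
        · subst hi
          have hs : s' ≠ s := fun h => hne (by rw [h])
          refine Or.inr ⟨h2, ?_⟩
          have h8 : Fin.tail ((V i' s').v z) = (W i' s').v z' := by
            funext l
            rw [← hzi]
            exact hV2 i' s' _ h1.1 h2 l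
          rw [h8]
          exact hz2 s' hs
        · left
          have h3 := hzj i' hi
          rw [(restr (P i')).res_eq_zero _ (hord i')] at h3
          exact h3.resolve_left h1.1

end Flags

theorem exists_flags (k : Type) [Field k] [IsAlgClosed k] [CharZero k] (t : ℕ) :
    ∀ (L : Type) [Field L] [Algebra k L] (y : Fin t → L), AlgebraicIndependent k y →
      FiniteDimensional (IntermediateField.adjoin k (Set.range y)) L →
      ∃ (N : ℕ) (V : Fin N → LV k L t), (∀ i j l, l < j → (V i).v (y j) l = 0) ∧
        (∀ i j, 0 < (V i).v (y j) j) ∧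
        ∑ i, ∏ j, ((V i).v (y j) j).toNat =
          finrank (IntermediateField.adjoin k (Set.range y)) L ∧
        ∀ i, ∃ z, z ≠ 0 ∧ (z = 1 ∨ 0 < toLex ((V i).v (z - 1))) ∧
          ∀ j, j ≠ i → 0 < toLex ((V j).v z) := by
  intro L _ _ y hy hfin
  obtain ⟨J, hJ, V, h1, h2, h3, h4⟩ := Flags.flags k t L y hy hfin
  let e : Fin (Fintype.card J) ≃ J := (Fintype.equivFin J).symm
  refine ⟨Fintype.card J, fun i => V (e i), fun i => h1 (e i), fun i => h2 (e i), ?_, ?_⟩
  · rw [← h3]
    exact e.sum_comp fun i => ∏ j, ((V i).v (y j) j).toNat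
  · intro i
    obtain ⟨z, hz, hz1, hz2⟩ := h4 (e i)
    exact ⟨z, hz, hz1, fun j hj => hz2 (e j) fun h => hj (e.injective h)⟩

end Pool.Agent.GC
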