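import Mathlib
import Pool.Agent.Lib.MP_c95b3b_ag_GC.Defs

set_option autoImplicit false

/-! Project GC, module VA: elementary properties of the valuations. -/

namespace Pool.Agent.GC

open Pool.Agent.SD Module MvPolynomial

variable {k L : Type} [Field k] [Field L] [Algebra k L] {t : ℕ}

private theorem v_one (V : LV k L t) : V.v 1 = 0 := by
  have h := V.map_const 1
  rwa [map_one] at h

theorem LV.map_inv (V : LV k L t) (a : L) : V.v a⁻¹ = -V.v a := by
  by_cases ha : a = 0
  · rw [ha, inv_zero, V.map_zero, neg_zero]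
  · have h := V.map_mul a a⁻¹ ha (inv_ne_zero ha)
    rw [mul_inv_cancel₀ ha, v_one] at h
    exact (neg_eq_of_add_eq_zero_right h.symm).symm

private theorem v_pow (V : LV k L t) (a : L) (ha : a ≠ 0) (m : ℕ) : V.v (a ^ m) = (m : ℤ) • V.v a := by
  induction m with
  | zero => rw [pow_zero, v_one, Nat.cast_zero, zero_smul]
  | succ m ih =>
    rw [pow_succ, V.map_mul _ _ (pow_ne_zero _ ha) ha, ih, Nat.cast_succ, add_smul, one_smul]

private theorem v_zpow (V : LV k L t) (a : L) (ha : a ≠ 0) (m : ℤ) : V.v (a ^ m) = m • V.v a := by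
  obtain ⟨j, rfl | rfl⟩ := m.eq_nat_or_neg
  · rw [zpow_natCast, v_pow V a ha]
  · rw [zpow_neg, zpow_natCast, V.map_inv, v_pow V a ha, neg_smul]

private theorem v_prod (V : LV k L t) {ι : Type} (s : Finset ι) (f : ι → L)
    (hf : ∀ i ∈ s, f i ≠ 0) : V.v (∏ i ∈ s, f i) = ∑ i ∈ s, V.v (f i) := by
  classical
  induction s using Finset.induction_on with
  | empty => rw [Finset.prod_empty, Finset.sum_empty, v_one]
  | insert a s ha ih =>
    rw [Finset.prod_insert ha, Finset.sum_insert ha,
      V.map_mul _ _ (hf a (Finset.mem_insert_self _ _))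
        (Finset.prod_ne_zero_iff.2 fun i hi => hf i (Finset.mem_insert_of_mem hi)),
      ih fun i hi => hf i (Finset.mem_insert_of_mem hi)]

theorem LV.map_mn (V : LV k L t) {n : ℕ} (x : Fin n → L) (hx : ∀ i, x i ≠ 0) (a : Fin n → ℤ) :
    V.v (mn x a) = lc V x a := by
  rw [mn, v_prod V _ _ fun i _ => zpow_ne_zero _ (hx i), lc]
  exact Finset.sum_congr rfl fun i _ => v_zpow V _ (hx i) _

theorem LV.map_neg (V : LV k L t) (a : L) : V.v (-a) = V.v a := by
  by_cases ha : a = 0
  · rw [ha, neg_zero]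
  · have h1 : -a = algebraMap k L (-1) * a := by
      rw [_root_.map_neg, map_one, neg_one_mul]
    have h2 : algebraMap k L (-1) ≠ 0 := by
      rw [_root_.map_neg, map_one]
      exact neg_ne_zero.2 one_ne_zero
    rw [h1, V.map_mul _ _ h2 ha, V.map_const, zero_add]

/-- the value of a sum of two elements of different values -/
private theorem v_add_lt (V : LV k L t) (a b : L) (ha : a ≠ 0) (hb : b ≠ 0)
    (h : toLex (V.v a) < toLex (V.v b)) : a + b ≠ 0 ∧ V.v (a + b) = V.v a := by
  have h0 : a + b ≠ 0 := by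
    intro h1
    have h2 : b = -a := (neg_eq_of_add_eq_zero_right h1).symm
    rw [h2, V.map_neg] at h
    exact lt_irrefl _ h
  refine ⟨h0, ?_⟩
  have h1 : toLex (V.v a) ≤ toLex (V.v (a + b)) := by
    have h2 := V.map_add a b ha hb h0
    rwa [min_eq_left h.le] at h2
  have h3 : toLex (V.v (a + b)) ≤ toLex (V.v a) := by
    by_contra h4
    rw [not_le] at h4
    have h5 : a + b + -b ≠ 0 := by rwa [add_neg_cancel_right]
    have h6 := V.map_add (a + b) (-b) h0 (neg_ne_zero.2 hb) h5
    rw [add_neg_cancel_right, V.map_neg] at h6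
    exact absurd h6 (not_le.2 (lt_min h4 h))
  exact toLex_inj.1 (le_antisymm h3 h1)

/-- a sum of non-zero elements with different values is not zero and has the smallest value -/
theorem LV.sum_ne_zero (V : LV k L t) {ι : Type} (s : Finset ι) (hs : s.Nonempty) (a : ι → L)
    (ha : ∀ i ∈ s, a i ≠ 0) (hinj : Set.InjOn (fun i => V.v (a i)) (s : Set ι)) :
    ∑ i ∈ s, a i ≠ 0 ∧ ∃ i ∈ s, V.v (∑ i ∈ s, a i) = V.v (a i) ∧
      ∀ j ∈ s, toLex (V.v (a i)) ≤ toLex (V.v (a j)) := by
  classical
  induction hs using Finset.Nonempty.cons_induction with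
  | singleton i =>
    refine ⟨?_, i, Finset.mem_singleton_self i, ?_, ?_⟩
    · rw [Finset.sum_singleton]
      exact ha i (Finset.mem_singleton_self i)
    · rw [Finset.sum_singleton]
    · intro j hj
      rw [Finset.mem_singleton.1 hj]
  | cons i s hi hs ih =>
    obtain ⟨h0, l, hl, hv, hmin⟩ := ih (fun j hj => ha j (Finset.mem_cons_of_mem hj))
      (hinj.mono (by
        intro j hj
        exact Finset.mem_coe.2 (Finset.mem_cons_of_mem (Finset.mem_coe.1 hj))))
    have hi0 : a i ≠ 0 := ha i (Finset.mem_cons_self i s)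
    have hne : V.v (a i) ≠ V.v (a l) := by
      intro h
      have h1 : i = l := hinj (Finset.mem_coe.2 (Finset.mem_cons_self i s))
        (Finset.mem_coe.2 (Finset.mem_cons_of_mem hl)) h
      exact hi (h1 ▸ hl)
    rw [Finset.sum_cons]
    rcases lt_trichotomy (toLex (V.v (a i))) (toLex (V.v (a l))) with h | h | h
    · obtain ⟨h2, h3⟩ := v_add_lt V (a i) (∑ j ∈ s, a j) hi0 h0 (by rw [hv]; exact h)
      refine ⟨h2, i, Finset.mem_cons_self i s, h3, ?_⟩
      intro j hj
      rcases Finset.mem_cons.1 hj with rfl | hj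
      · exact le_refl _
      · exact h.le.trans (hmin j hj)
    · exact absurd (toLex_inj.1 h) hne
    · obtain ⟨h2, h3⟩ := v_add_lt V (∑ j ∈ s, a j) (a i) h0 hi0 (by rw [hv]; exact h)
      rw [add_comm] at h2 h3
      refine ⟨h2, l, Finset.mem_cons_of_mem hl, h3.trans hv, ?_⟩
      intro j hj
      rcases Finset.mem_cons.1 hj with rfl | hj
      · exact h.le
      · exact hmin j hj

/-- a sum of elements of positive value has positive value -/
theorem LV.sum_pos (V : LV k L t) {ι : Type} (s : Finset ι) (a : ι → L)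
    (ha : ∀ i ∈ s, a i ≠ 0 → 0 < toLex (V.v (a i))) (h : ∑ i ∈ s, a i ≠ 0) :
    0 < toLex (V.v (∑ i ∈ s, a i)) := by
  classical
  induction s using Finset.induction_on with
  | empty => exact absurd Finset.sum_empty h
  | insert i s hi ih =>
    rw [Finset.sum_insert hi] at h ⊢
    have ih' := ih fun j hj => ha j (Finset.mem_insert_of_mem hj)
    by_cases h1 : a i = 0
    · rw [h1, zero_add] at h ⊢
      exact ih' h
    · by_cases h2 : ∑ j ∈ s, a j = 0
      · rw [h2, add_zero]
        exact ha i (Finset.mem_insert_self i s) h1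
      · exact lt_of_lt_of_le (lt_min (ha i (Finset.mem_insert_self i s) h1) (ih' h2))
          (V.map_add _ _ h1 h2 h)

/-- monomials with different values are linearly independent -/
theorem LV.li (V : LV k L t) {n : ℕ} (x : Fin n → L) (hx : ∀ i, x i ≠ 0)
    (S : Finset (Fin n → ℤ)) (h : Set.InjOn (fun a => V.v (mn x a)) (S : Set (Fin n → ℤ))) :
    LinearIndependent k (fun a : S => mn x a.1) := by
  classical
  have hmn : ∀ a, mn x a ≠ 0 := fun a => Finset.prod_ne_zero_iff.2 fun i _ => zpow_ne_zero _ (hx i)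
  rw [linearIndependent_iff']
  intro s c hc i hi
  by_contra hci
  have hval : ∀ j : S, c j ≠ 0 → V.v (c j • mn x j.1) = V.v (mn x j.1) := by
    intro j hj
    rw [Algebra.smul_def, V.map_mul _ _ ((map_ne_zero _).2 hj) (hmn _), V.map_const, zero_add]
  have h1 := V.sum_ne_zero (s.filter fun j => c j ≠ 0) ⟨i, Finset.mem_filter.2 ⟨hi, hci⟩⟩
    (fun j => c j • mn x j.1)
    (fun j hj => by
      rw [Algebra.smul_def]
      exact mul_ne_zero ((map_ne_zero _).2 (Finset.mem_filter.1 hj).2) (hmn _))
    (by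
      intro j hj j' hj' hjj
      have hj1 := (Finset.mem_filter.1 (Finset.mem_coe.1 hj)).2
      have hj2 := (Finset.mem_filter.1 (Finset.mem_coe.1 hj')).2
      simp only [hval j hj1, hval j' hj2] at hjj
      exact Subtype.ext (h j.2 j'.2 hjj))
  refine h1.1 ?_
  rw [← hc]
  refine Finset.sum_subset (Finset.filter_subset _ _) ?_
  intro j hj hj'
  have h2 : c j = 0 := by
    by_contra h3
    exact hj' (Finset.mem_filter.2 ⟨hj, h3⟩)
  rw [h2, zero_smul]

/-- two monomials of a relation have the same value -/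
theorem LV.exists_two (V : LV k L t) {m : ℕ} (z : Fin m → L) (hz : ∀ j, z j ≠ 0)
    (f : MvPolynomial (Fin m) k) (hf : f ≠ 0) (h0 : aeval z f = 0) :
    ∃ u ∈ f.support, ∃ u' ∈ f.support, u ≠ u' ∧ lc V z (fun j => (u j : ℤ)) =
      lc V z (fun j => (u' j : ℤ)) := by
  classical
  by_contra hcon
  push Not at hcon
  have hne : ∀ u ∈ f.support, algebraMap k L (coeff u f) * ∏ j, z j ^ u j ≠ 0 := by
    intro u hu
    exact mul_ne_zero ((map_ne_zero _).2 (MvPolynomial.mem_support_iff.1 hu))
      (Finset.prod_ne_zero_iff.2 fun j _ => pow_ne_zero _ (hz j))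
  have hval : ∀ u ∈ f.support, V.v (algebraMap k L (coeff u f) * ∏ j, z j ^ u j) =
      lc V z (fun j => (u j : ℤ)) := by
    intro u hu
    rw [V.map_mul _ _ ((map_ne_zero _).2 (MvPolynomial.mem_support_iff.1 hu))
      (Finset.prod_ne_zero_iff.2 fun j _ => pow_ne_zero _ (hz j)), V.map_const, zero_add,
      v_prod V _ _ fun j _ => pow_ne_zero _ (hz j), lc]
    exact Finset.sum_congr rfl fun j _ => v_pow V _ (hz j) _
  have h1 := V.sum_ne_zero f.support (MvPolynomial.support_nonempty.2 hf)
    (fun u => algebraMap k L (coeff u f) * ∏ j, z j ^ u j) hne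
    (by
      intro u hu u' hu' huu
      simp only [hval u hu, hval u' hu'] at huu
      by_contra h2
      exact hcon u hu u' hu' h2 huu)
  refine h1.1 ?_
  rw [← h0, MvPolynomial.aeval_def, MvPolynomial.eval₂_eq']

end Pool.Agent.GC
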