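import Mathlib
import Pool.Agent.Lib.MP_c95b3b_ag_GC.Val

set_option autoImplicit false

/-! Project GC, module MO: monomial valuations. -/

namespace Pool.Agent.GC

open Module

variable {k L : Type} [Field k] [Field L] [Algebra k L] {t m : ℕ}

namespace MO

/-- the exponent as an integer vector -/
def cu (u : Fin m →₀ ℕ) : Fin m → ℤ := fun j => (u j : ℤ)

theorem cu_inj {u u' : Fin m →₀ ℕ} (h : cu u = cu u') : u = u' := by
  ext j
  have := congrFun h j
  simpa [cu] using this

theorem lc_sub (V : LV k L t) (z : Fin m → L) (u u' : Fin m → ℤ) :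
    lc V z (u - u') = lc V z u - lc V z u' := by
  unfold lc
  rw [← Finset.sum_sub_distrib]
  refine Finset.sum_congr rfl fun j _ => ?_
  rw [Pi.sub_apply, sub_smul]

theorem lc_neg (V : LV k L t) (z : Fin m → L) (u : Fin m → ℤ) :
    lc V z (-u) = -lc V z u := by
  unfold lc
  rw [← Finset.sum_neg_distrib]
  refine Finset.sum_congr rfl fun j _ => ?_
  rw [Pi.neg_apply, neg_smul]

theorem hi_other (V V' : LV k L t) (z : Fin m → L) (hso : SameOrd V V' z)
    (hi : ∀ u, lc V z u = 0 → u = 0) : ∀ u, lc V' z u = 0 → u = 0 := by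
  intro u hu
  apply hi
  have h1 : 0 ≤ toLex (lc V z u) := (hso u).2 (by rw [hu]; exact le_rfl)
  have h2 : 0 ≤ toLex (lc V z (-u)) := (hso (-u)).2 (by rw [lc_neg, hu, neg_zero]; exact le_rfl)
  rw [lc_neg, toLex_neg, Left.nonneg_neg_iff] at h2
  have h3 := le_antisymm h2 h1
  exact toLex.injective h3

/-- the value of a polynomial -/
theorem val_aeval (V : LV k L t) (z : Fin m → L) (hz : ∀ j, z j ≠ 0)
    (hi : ∀ u, lc V z u = 0 → u = 0) (p : MvPolynomial (Fin m) k) (hp : p ≠ 0) :
    MvPolynomial.aeval z p ≠ 0 ∧ ∃ u ∈ p.support,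
      V.v (MvPolynomial.aeval z p) = lc V z (cu u) ∧
        ∀ u' ∈ p.support, toLex (lc V z (cu u)) ≤ toLex (lc V z (cu u')) := by
  classical
  have hc : ∀ u ∈ p.support, algebraMap k L (p.coeff u) ≠ 0 := by
    intro u hu h
    rw [map_eq_zero] at h
    exact (MvPolynomial.mem_support_iff.1 hu) h
  have hm : ∀ u : Fin m →₀ ℕ, Pool.Agent.SD.mn z (cu u) ≠ 0 := by
    intro u
    unfold Pool.Agent.SD.mn
    exact Finset.prod_ne_zero_iff.2 fun j _ => zpow_ne_zero _ (hz j)
  have hval : ∀ u ∈ p.support, V.v (algebraMap k L (p.coeff u) * Pool.Agent.SD.mn z (cu u))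
      = lc V z (cu u) := by
    intro u hu
    rw [V.map_mul _ _ (hc u hu) (hm u), V.map_const, V.map_mn z hz, zero_add]
  have hsum : MvPolynomial.aeval z p =
      ∑ u ∈ p.support, algebraMap k L (p.coeff u) * Pool.Agent.SD.mn z (cu u) := by
    rw [MvPolynomial.aeval_def, MvPolynomial.eval₂_eq']
    refine Finset.sum_congr rfl fun u _ => ?_
    congr 1
    unfold Pool.Agent.SD.mn
    refine Finset.prod_congr rfl fun j _ => ?_
    simp [cu]
  have hne : p.support.Nonempty := MvPolynomial.support_nonempty.2 hp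
  have h := V.sum_ne_zero p.support hne
    (fun u => algebraMap k L (p.coeff u) * Pool.Agent.SD.mn z (cu u))
    (fun u hu => mul_ne_zero (hc u hu) (hm u)) (by
      intro u hu u' hu' he
      simp only at he
      rw [hval u hu, hval u' hu'] at he
      apply cu_inj
      have h1 := hi (cu u - cu u') (by rw [lc_sub, he, sub_self])
      exact sub_eq_zero.1 h1)
  obtain ⟨h1, u, hu, h2, h3⟩ := h
  rw [← hsum] at h1 h2
  refine ⟨h1, u, hu, ?_, ?_⟩
  · rw [h2, hval u hu]
  · intro u' hu'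
    have h4 := h3 u' hu'
    rw [hval u hu, hval u' hu'] at h4
    exact h4

/-- the values of a polynomial for two valuations -/
theorem val_both (V V' : LV k L t) (z : Fin m → L) (hz : ∀ j, z j ≠ 0)
    (hso : SameOrd V V' z) (hi : ∀ u, lc V z u = 0 → u = 0) (p : MvPolynomial (Fin m) k)
    (hp : p ≠ 0) : ∃ u : Fin m → ℤ, V.v (MvPolynomial.aeval z p) = lc V z u ∧
      V'.v (MvPolynomial.aeval z p) = lc V' z u := by
  obtain ⟨-, u, hu, h1, h2⟩ := val_aeval V z hz hi p hp
  have hi' := hi_other V V' z hso hi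
  obtain ⟨-, u', hu', h3, h4⟩ := val_aeval V' z hz hi' p hp
  refine ⟨cu u, h1, ?_⟩
  rw [h3]
  have h5 : 0 ≤ toLex (lc V z (cu u' - cu u)) := by
    rw [lc_sub, toLex_sub, sub_nonneg]
    exact h2 u' hu'
  have h6 := (hso _).1 h5
  rw [lc_sub, toLex_sub, sub_nonneg] at h6
  exact toLex.injective (le_antisymm (h4 u hu) h6)

end MO

/-- the values of the elements of `k(z)`, if the values of the elements `z` are independent -/
theorem val_adjoin (V V' : LV k L t) (z : Fin m → L) (hz : ∀ j, z j ≠ 0)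
    (hso : SameOrd V V' z) (hi : ∀ u, lc V z u = 0 → u = 0) (c : L)
    (hc : c ∈ IntermediateField.adjoin k (Set.range z)) (hc0 : c ≠ 0) :
    ∃ u : Fin m → ℤ, V.v c = lc V z u ∧ V'.v c = lc V' z u := by
  rw [IntermediateField.mem_adjoin_range_iff] at hc
  obtain ⟨r, s, rfl⟩ := hc
  have hr : MvPolynomial.aeval z r ≠ 0 := fun h => hc0 (by rw [h, zero_div])
  have hs : MvPolynomial.aeval z s ≠ 0 := fun h => hc0 (by rw [h, div_zero])
  have hr0 : r ≠ 0 := fun h => hr (by rw [h, map_zero])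
  have hs0 : s ≠ 0 := fun h => hs (by rw [h, map_zero])
  obtain ⟨u, h1, h2⟩ := MO.val_both V V' z hz hso hi r hr0
  obtain ⟨w, h3, h4⟩ := MO.val_both V V' z hz hso hi s hs0
  refine ⟨u - w, ?_, ?_⟩
  · rw [div_eq_mul_inv, V.map_mul _ _ hr (inv_ne_zero hs), V.map_inv, h1, h3, MO.lc_sub,
      sub_eq_add_neg]
  · rw [div_eq_mul_inv, V'.map_mul _ _ hr (inv_ne_zero hs), V'.map_inv, h2, h4, MO.lc_sub,
      sub_eq_add_neg]

/-- elements with independent values are algebraically independent -/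
theorem algInd_of_val (V : LV k L t) (z : Fin m → L) (hz : ∀ j, z j ≠ 0)
    (hi : ∀ u, lc V z u = 0 → u = 0) : AlgebraicIndependent k z := by
  rw [algebraicIndependent_iff]
  intro p hp
  by_contra h
  exact (MO.val_aeval V z hz hi p h).1 hp

end Pool.Agent.GC
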