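import Mathlib
import Pool.Agent.Lib.MP_c95b3b_ag_GC.Mono

set_option autoImplicit false

/-! Project GC, module IX: the index of the value group of `k(z)`. -/

namespace Pool.Agent.GC

open Module

variable {k L : Type} [Field k] [Field L] [Algebra k L] {t : ℕ}

/-- the values of the monomials in `z` as a product of a vector and the matrix of the values -/
private theorem lc_eq_mulVec (V : LV k L t) (z : Fin t → L) (u : Fin t → ℤ) :
    lc V z u = Matrix.toLin' (vm V z).transpose u := by
  funext l
  simp only [lc, vm, Matrix.toLin'_apply, Matrix.mulVec, dotProduct, Finset.sum_apply,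
    Pi.smul_apply, smul_eq_mul, Matrix.transpose_apply, Matrix.of_apply]
  exact Finset.sum_congr rfl fun j _ => mul_comm _ _

theorem lc_ne_of_det (V : LV k L t) (z : Fin t → L) (hdet : (vm V z).det ≠ 0) :
    ∀ u, lc V z u = 0 → u = 0 := by
  intro u hu
  refine Matrix.eq_zero_of_mulVec_eq_zero (M := (vm V z).transpose) ?_ ?_
  · rwa [Matrix.det_transpose]
  · rw [← hu, lc_eq_mulVec, Matrix.toLin'_apply]

theorem index_le (V : LV k L t) (z : Fin t → L) (hz : ∀ j, z j ≠ 0)
    (hdet : (vm V z).det ≠ 0)
    (hfin : FiniteDimensional (IntermediateField.adjoin k (Set.range z)) L) :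
    (vm V z).det.natAbs ≤ finrank (IntermediateField.adjoin k (Set.range z)) L := by
  classical
  set f : (Fin t → ℤ) →ₗ[ℤ] (Fin t → ℤ) := Matrix.toLin' (vm V z).transpose with hf
  have hlc : ∀ u, lc V z u = f u := fun u => lc_eq_mulVec V z u
  have hinj : Function.Injective f := by
    rw [injective_iff_map_eq_zero]
    intro u hu
    exact lc_ne_of_det V z hdet u (by rw [hlc, hu])
  have hcard : (vm V z).det.natAbs = Nat.card ((Fin t → ℤ) ⧸ LinearMap.range f) := by
    rw [← Submodule.natAbs_det_equiv (LinearMap.range f) (LinearEquiv.ofInjective f hinj)]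
    have h1 : (LinearMap.range f).subtype ∘ₗ
        AddMonoidHom.toIntLinearMap
          ((LinearEquiv.ofInjective f hinj : _ ≃ₗ[ℤ] _) : (Fin t → ℤ) →+ LinearMap.range f)
          = f := by
      ext u
      simp
    rw [h1, hf, LinearMap.det_toLin', Matrix.det_transpose]
  have hfinq : Finite ((Fin t → ℤ) ⧸ LinearMap.range f) := by
    apply Nat.finite_of_card_ne_zero
    rw [← hcard]
    exact Int.natAbs_ne_zero.mpr hdet
  have : Fintype ((Fin t → ℤ) ⧸ LinearMap.range f) := Fintype.ofFinite _
  choose w hw0 hwv using fun q : (Fin t → ℤ) ⧸ LinearMap.range f => V.surj (Quotient.out q)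
  have hli : LinearIndependent (IntermediateField.adjoin k (Set.range z)) w := by
    rw [linearIndependent_iff']
    intro s g hg
    by_contra hcon
    push Not at hcon
    obtain ⟨i0, hi0, hgi0⟩ := hcon
    set s' := s.filter (fun i => g i ≠ 0) with hs'
    have hne : s'.Nonempty := ⟨i0, by simp [hs', hi0, hgi0]⟩
    have hsum : ∑ i ∈ s', (g i : L) * w i = 0 := by
      rw [← hg, hs', Finset.sum_filter]
      refine Finset.sum_congr rfl fun i _ => ?_
      by_cases h : g i = 0
      · simp [h]
      · simp only [ne_eq, h, not_false_eq_true, if_true]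
        rfl
    have hg0 : ∀ i ∈ s', (g i : L) ≠ 0 := by
      intro i hi h
      have h2 : g i ≠ 0 := (Finset.mem_filter.mp hi).2
      exact h2 (Subtype.ext h)
    refine (V.sum_ne_zero s' hne (fun i => (g i : L) * w i)
      (fun i hi => mul_ne_zero (hg0 i hi) (hw0 i)) ?_).1 hsum
    intro i hi j hj hij
    have hi' : i ∈ s' := hi
    have hj' : j ∈ s' := hj
    obtain ⟨u, hu, -⟩ := val_adjoin V V z hz (fun _ => Iff.rfl) (lc_ne_of_det V z hdet)
      (g i : L) (g i).2 (hg0 i hi')
    obtain ⟨u', hu', -⟩ := val_adjoin V V z hz (fun _ => Iff.rfl) (lc_ne_of_det V z hdet)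
      (g j : L) (g j).2 (hg0 j hj')
    have hij' : V.v ((g i : L) * w i) = V.v ((g j : L) * w j) := hij
    rw [V.map_mul _ _ (hg0 i hi') (hw0 i), V.map_mul _ _ (hg0 j hj') (hw0 j), hu, hu', hwv, hwv,
      hlc, hlc] at hij'
    have h3 : (Submodule.Quotient.mk (Quotient.out i) : (Fin t → ℤ) ⧸ LinearMap.range f) =
        Submodule.Quotient.mk (Quotient.out j) := by
      rw [Submodule.Quotient.eq]
      refine ⟨u' - u, ?_⟩
      rw [map_sub, sub_eq_sub_iff_add_eq_add, add_comm (f u'), add_comm _ (f u)] 
      exact hij'.symm ▸ (by rw [add_comm])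
    have h4 : ∀ q : (Fin t → ℤ) ⧸ LinearMap.range f,
        (Submodule.Quotient.mk (Quotient.out q) : (Fin t → ℤ) ⧸ LinearMap.range f) = q :=
      fun q => Quotient.out_eq' q
    rw [h4, h4] at h3
    exact h3
  rw [hcard, Nat.card_eq_fintype_card]
  exact hli.fintype_card_le_finrank

end Pool.Agent.GC
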