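import Mathlib
import Pool.Agent.Lib.MP_c95b3b_ag_GC.Mono

set_option autoImplicit false

/-! Project GC, module NU: the number of the valuations with the same restriction to `k(z)`. -/

namespace Pool.Agent.GC

open Module

variable {k L : Type} [Field k] [Field L] [Algebra k L] {t m N : ℕ}

private theorem v_one (V : LV k L t) : V.v 1 = 0 := by
  have h := V.map_const 1
  rwa [map_one] at h

private theorem not_pos (V : LV k L t) (ζ : L) (h0 : ζ ≠ 0)
    (h1 : ζ = 1 ∨ 0 < toLex (V.v (ζ - 1))) (h : 0 < toLex (V.v ζ)) : False := by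
  rcases h1 with rfl | h1
  · rw [v_one] at h
    exact lt_irrefl _ h
  · by_cases h2 : ζ - 1 = 0
    · rw [h2, V.map_zero] at h1
      exact lt_irrefl _ h1
    · have h3 : (1 - ζ : L) ≠ 0 := fun h4 => h2 (by rw [← neg_sub, h4, neg_zero])
      have h4 := V.map_add ζ (1 - ζ) h0 h3 (by rw [add_sub_cancel]; exact one_ne_zero)
      rw [add_sub_cancel, v_one, ← neg_sub, V.map_neg] at h4
      exact absurd (lt_min h h1) (not_lt.2 h4)

theorem num_le (V : Fin N → LV k L t)
    (hsep : ∀ i, ∃ ζ : L, ζ ≠ 0 ∧ (ζ = 1 ∨ 0 < toLex ((V i).v (ζ - 1))) ∧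
      ∀ j, j ≠ i → 0 < toLex ((V j).v ζ))
    (z : Fin m → L) (hz : ∀ j, z j ≠ 0) (T : Finset (Fin N))
    (hi : ∀ i ∈ T, ∀ u, lc (V i) z u = 0 → u = 0)
    (hso : ∀ i ∈ T, ∀ j ∈ T, SameOrd (V i) (V j) z)
    (hfin : FiniteDimensional (IntermediateField.adjoin k (Set.range z)) L) :
    T.card ≤ finrank (IntermediateField.adjoin k (Set.range z)) L := by
  classical
  choose ζ hζ0 hζ1 hζj using hsep
  have hli : LinearIndependent (IntermediateField.adjoin k (Set.range z))
      (fun i : T => ζ i.1) := by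
    rw [linearIndependent_iff']
    intro s g hg
    by_contra hcon
    push Not at hcon
    obtain ⟨i1, hi1, hg1⟩ := hcon
    let s' := s.filter (fun i => g i ≠ 0)
    have hi1' : i1 ∈ s' := Finset.mem_filter.2 ⟨hi1, hg1⟩
    obtain ⟨i0, hi0, hmin⟩ := Finset.exists_min_image s'
      (fun i => toLex ((V i1.1).v (g i : L))) ⟨i1, hi1'⟩
    have hg0 : (g i0 : L) ≠ 0 := fun h => (Finset.mem_filter.1 hi0).2 (Subtype.ext h)
    have hsum : ∑ i ∈ s', ((g i : L) / (g i0 : L)) * ζ i.1 = 0 := by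
      have h1 : ∑ i ∈ s', g i • ζ i.1 = 0 := by
        rw [← hg]
        refine Finset.sum_subset (Finset.filter_subset _ _) fun i h2 h3 => ?_
        have h4 : g i = 0 := by
          by_contra h5
          exact h3 (Finset.mem_filter.2 ⟨h2, h5⟩)
        rw [h4, zero_smul]
      have h2 : ∑ i ∈ s', ((g i : L) / (g i0 : L)) * ζ i.1 =
          (g i0 : L)⁻¹ * ∑ i ∈ s', g i • ζ i.1 := by
        rw [Finset.mul_sum]
        refine Finset.sum_congr rfl fun i _ => ?_
        rw [Algebra.smul_def]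
        show _ = (g i0 : L)⁻¹ * ((g i : L) * ζ i.1)
        ring
      rw [h2, h1, mul_zero]
    rw [← Finset.add_sum_erase _ _ hi0, div_self hg0, one_mul] at hsum
    have hζ : ζ i0.1 = ∑ i ∈ s'.erase i0, -(((g i : L) / (g i0 : L)) * ζ i.1) := by
      rw [Finset.sum_neg_distrib]
      exact eq_neg_of_add_eq_zero_left hsum
    have hpos : 0 < toLex ((V i0.1).v (ζ i0.1)) := by
      rw [hζ]
      apply LV.sum_pos
      · intro i hi' _
        obtain ⟨hne, hmem⟩ := Finset.mem_erase.1 hi'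
        have hgi : (g i : L) ≠ 0 := fun h => (Finset.mem_filter.1 hmem).2 (Subtype.ext h)
        have hc0 : (g i : L) / (g i0 : L) ≠ 0 := div_ne_zero hgi hg0
        have hc : (g i : L) / (g i0 : L) ∈ IntermediateField.adjoin k (Set.range z) :=
          IntermediateField.div_mem _ (g i).2 (g i0).2
        obtain ⟨u, hu1, hu2⟩ := val_adjoin (V i1.1) (V i0.1) z hz (hso _ i1.2 _ i0.2)
          (hi _ i1.2) _ hc hc0
        have h1 : 0 ≤ toLex ((V i1.1).v ((g i : L) / (g i0 : L))) := by
          rw [div_eq_mul_inv, (V i1.1).map_mul _ _ hgi (inv_ne_zero hg0), LV.map_inv,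
            ← sub_eq_add_neg]
          show 0 ≤ toLex ((V i1.1).v (g i : L)) - toLex ((V i1.1).v (g i0 : L))
          exact sub_nonneg.2 (hmin i hmem)
        have h2 : 0 ≤ toLex ((V i0.1).v ((g i : L) / (g i0 : L))) := by
          rw [hu1] at h1
          rw [hu2]
          exact (hso _ i1.2 _ i0.2 u).1 h1
        rw [LV.map_neg, (V i0.1).map_mul _ _ hc0 (hζ0 _)]
        show 0 < toLex ((V i0.1).v ((g i : L) / (g i0 : L))) + toLex ((V i0.1).v (ζ i.1))
        exact add_pos_of_nonneg_of_pos h2 (hζj i.1 i0.1 fun h => hne (Subtype.ext h.symm))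
      · rw [← hζ]
        exact hζ0 _
    exact not_pos (V i0.1) (ζ i0.1) (hζ0 _) (hζ1 _) hpos
  have h := hli.fintype_card_le_finrank
  simpa using h

end Pool.Agent.GC
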