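import Mathlib
import Pool.Agent.Lib.MP_c95b3b_ag_GC.Val

set_option autoImplicit false

/-! Project GC, module OR: valuations of the same type which are triangular at the same elements
have the same order. -/

namespace Pool.Agent.GC

open Pool.Agent.SD Module

namespace OR

/-- lexicographically positive vectors -/
def LP {t : ℕ} (c : Fin t → ℤ) : Prop := ∃ i, (∀ j, j < i → c j = 0) ∧ 0 < c i

theorem lp_iff {t : ℕ} (c : Fin t → ℤ) : 0 < toLex c ↔ LP c := by
  constructor
  · rintro ⟨i, h1, h2⟩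
    exact ⟨i, fun j hj => (h1 j hj).symm, h2⟩
  · rintro ⟨i, h1, h2⟩
    exact ⟨i, fun j hj => (h1 j hj).symm, h2⟩

theorem lp_neg_iff {t : ℕ} (c : Fin t → ℤ) : toLex c < 0 ↔ LP (-c) := by
  constructor
  · rintro ⟨i, h1, h2⟩
    refine ⟨i, fun j hj => ?_, ?_⟩
    · rw [Pi.neg_apply, neg_eq_zero]
      exact h1 j hj
    · rw [Pi.neg_apply, neg_pos]
      exact h2
  · rintro ⟨i, h1, h2⟩
    refine ⟨i, fun j hj => ?_, ?_⟩
    · have h3 := h1 j hj
      rw [Pi.neg_apply, neg_eq_zero] at h3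
      exact h3
    · rw [Pi.neg_apply, neg_pos] at h2
      exact h2

/-- a triangular combination -/
theorem lp_tri {t : ℕ} (W : Fin t → Fin t → ℤ) (htri : ∀ j l, l < j → W j l = 0)
    (hpos : ∀ j, 0 < W j j) (c : Fin t → ℤ) (hc : LP c) : LP (∑ j, c j • W j) := by
  obtain ⟨i, h1, h2⟩ := hc
  refine ⟨i, fun l hl => ?_, ?_⟩
  · rw [Finset.sum_apply]
    refine Finset.sum_eq_zero fun j _ => ?_
    rw [Pi.smul_apply, smul_eq_mul]
    rcases lt_or_ge j i with h | h
    · rw [h1 j h, zero_mul]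
    · rw [htri j l (lt_of_lt_of_le hl h), mul_zero]
  · rw [Finset.sum_apply, Finset.sum_eq_single i]
    · rw [Pi.smul_apply, smul_eq_mul]
      exact mul_pos h2 (hpos i)
    · intro j _ hj
      rw [Pi.smul_apply, smul_eq_mul]
      rcases lt_or_gt_of_ne hj with h | h
      · rw [h1 j h, zero_mul]
      · rw [htri j i h, mul_zero]
    · intro h
      exact absurd (Finset.mem_univ i) h

theorem nonneg_tri {t : ℕ} (W : Fin t → Fin t → ℤ) (htri : ∀ j l, l < j → W j l = 0)
    (hpos : ∀ j, 0 < W j j) (c : Fin t → ℤ) :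
    0 ≤ toLex (∑ j, c j • W j) ↔ 0 ≤ toLex c := by
  rcases lt_trichotomy (0 : Lex (Fin t → ℤ)) (toLex c) with h | h | h
  · have h1 := lp_tri W htri hpos c ((lp_iff c).1 h)
    exact ⟨fun _ => h.le, fun _ => ((lp_iff _).2 h1).le⟩
  · have h0 : c = 0 := by
      have := congrArg ofLex h
      exact this.symm
    rw [h0]
    simp
  · have h1 := lp_tri W htri hpos (-c) ((lp_neg_iff c).1 h)
    have h2 : (∑ j, (-c) j • W j) = -∑ j, c j • W j := by
      rw [← Finset.sum_neg_distrib]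
      refine Finset.sum_congr rfl fun j _ => ?_
      rw [Pi.neg_apply, neg_smul]
    rw [h2] at h1
    have h3 := (lp_neg_iff _).2 h1
    exact ⟨fun h4 => absurd h3 (not_lt.2 h4), fun h4 => absurd h (not_lt.2 h4)⟩

theorem nonneg_smul {t : ℕ} {d : ℤ} (hd : 0 < d) (u : Fin t → ℤ) :
    0 ≤ toLex (d • u) ↔ 0 ≤ toLex u := by
  have h1 := nonneg_tri (fun j => d • (Pi.single j 1 : Fin t → ℤ))
    (fun j l hl => by simp [hl.ne])
    (fun j => by simp [hd]) u
  have h2 : (∑ j, u j • (fun j => d • (Pi.single j 1 : Fin t → ℤ)) j) = d • u := by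
    funext l
    rw [Finset.sum_apply]
    simp only [Pi.smul_apply, smul_eq_mul, Pi.single_apply, mul_ite, mul_one, mul_zero]
    rw [Finset.sum_ite_eq Finset.univ l (fun j => u j * d)]
    simp [mul_comm]
  rw [h2] at h1
  exact h1

/-- the linear algebra -/
theorem exists_comb {t : ℕ} (N : Matrix (Fin t) (Fin t) ℤ) (hN : N.det ≠ 0) (v : Fin t → ℤ) :
    ∃ (d : ℤ) (c : Fin t → ℤ), 0 < d ∧ d • v = ∑ j, c j • N j := by
  refine ⟨N.det * N.det, N.det • (Matrix.vecMul v N.adjugate),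
    mul_self_pos.2 hN, ?_⟩
  have h1 : Matrix.vecMul (Matrix.vecMul v N.adjugate) N = N.det • v := by
    rw [Matrix.vecMul_vecMul, Matrix.adjugate_mul, Matrix.vecMul_smul, Matrix.vecMul_one]
  have h2 : ∀ w : Fin t → ℤ, ∑ j, w j • N j = Matrix.vecMul w N := by
    intro w
    funext l
    rw [Finset.sum_apply]
    rfl
  rw [h2, Matrix.smul_vecMul, h1, smul_smul]

theorem tri_det {t : ℕ} (W : Matrix (Fin t) (Fin t) ℤ) (htri : ∀ j l, l < j → W j l = 0)
    (hpos : ∀ j, 0 < W j j) : W.det ≠ 0 := by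
  have h1 : W.BlockTriangular id := fun i j hij => htri i j hij
  rw [Matrix.det_of_isUpperTriangular h1]
  exact Finset.prod_ne_zero_iff.2 fun j _ => (hpos j).ne'

theorem main {t r : ℕ} (A : (Fin r → ℤ) →+ (Fin t → ℤ)) (w w' : (Fin r → ℤ) → Fin t → ℤ)
    (M M' : Matrix (Fin t) (Fin t) ℤ) (hw : ∀ a, w a = M.mulVec (A a))
    (hw' : ∀ a, w' a = M'.mulVec (A a)) (b : Fin t → Fin r → ℤ)
    (htri : ∀ j l, l < j → w (b j) l = 0) (hpos : ∀ j, 0 < w (b j) j)
    (htri' : ∀ j l, l < j → w' (b j) l = 0) (hpos' : ∀ j, 0 < w' (b j) j) (a : Fin r → ℤ) :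
    0 ≤ toLex (w a) ↔ 0 ≤ toLex (w' a) := by
  obtain ⟨N, hN⟩ : ∃ N : Matrix (Fin t) (Fin t) ℤ, N = Matrix.of fun j => A (b j) := ⟨_, rfl⟩
  have hNj : ∀ j, N j = A (b j) := fun j => by
    rw [hN]
    rfl
  have hdet : N.det ≠ 0 := by
    have h1 : (N * M.transpose).det ≠ 0 := by
      refine tri_det _ (fun j l hl => ?_) fun j => ?_
      · have h2 : (N * M.transpose) j l = M.mulVec (N j) l := by
          rw [Matrix.mul_apply, Matrix.mulVec, dotProduct]
          refine Finset.sum_congr rfl fun i _ => ?_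
          rw [Matrix.transpose_apply, mul_comm]
        rw [h2, hNj, ← hw]
        exact htri j l hl
      · have h2 : (N * M.transpose) j j = M.mulVec (N j) j := by
          rw [Matrix.mul_apply, Matrix.mulVec, dotProduct]
          refine Finset.sum_congr rfl fun i _ => ?_
          rw [Matrix.transpose_apply, mul_comm]
        rw [h2, hNj, ← hw]
        exact hpos j
    rw [Matrix.det_mul] at h1
    exact left_ne_zero_of_mul h1
  obtain ⟨d, c, hd, hdc⟩ := exists_comb N hdet (A a)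
  have key : ∀ (P : Matrix (Fin t) (Fin t) ℤ) (g : (Fin r → ℤ) → Fin t → ℤ),
      (∀ a, g a = P.mulVec (A a)) → (∀ j l, l < j → g (b j) l = 0) → (∀ j, 0 < g (b j) j) →
      (0 ≤ toLex (g a) ↔ 0 ≤ toLex c) := by
    intro P g hg h1 h2
    rw [← nonneg_smul hd, ← nonneg_tri (fun j => g (b j)) h1 h2 c]
    have h3 : d • g a = ∑ j, c j • g (b j) := by
      rw [hg, ← Matrix.mulVec_smul, hdc, Matrix.mulVec_sum]
      refine Finset.sum_congr rfl fun j _ => ?_
      rw [Matrix.mulVec_smul, hg, hNj]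
    rw [h3]
  rw [key M w hw htri hpos, key M' w' hw' htri' hpos']

end OR

variable {k L : Type} [Field k] [Field L] [Algebra k L] {n t m : ℕ}

theorem sameOrd (V V' : LV k L t) (x : Fin n → L) (hx : ∀ i, x i ≠ 0) (b : Fin t → Fin n → ℤ)
    (htri : ∀ j l, l < j → V.v (mn x (b j)) l = 0) (hpos : ∀ j, 0 < V.v (mn x (b j)) j)
    (htri' : ∀ j l, l < j → V'.v (mn x (b j)) l = 0) (hpos' : ∀ j, 0 < V'.v (mn x (b j)) j)
    (A : (Fin n → ℤ) →+ (Fin t → ℤ)) (M M' : Matrix (Fin t) (Fin t) ℤ) (hM : Comes V x A M)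
    (hM' : Comes V' x A M') (B : Fin m → Fin n) : SameOrd V V' (fun j => x (B j)) := by
  intro u
  obtain ⟨a, ha⟩ : ∃ a : Fin n → ℤ, a = fun i => ∑ j, if B j = i then u j else 0 := ⟨_, rfl⟩
  have key : ∀ U : LV k L t, lc U (fun j => x (B j)) u = U.v (mn x a) := by
    intro U
    rw [U.map_mn x hx a, lc, lc, ha]
    simp only [Finset.sum_smul]
    rw [Finset.sum_comm]
    refine Finset.sum_congr rfl fun j _ => ?_
    rw [Finset.sum_eq_single (B j)]
    · rw [if_pos rfl]
    · intro i _ hi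
      rw [if_neg hi.symm, zero_smul]
    · intro h
      exact absurd (Finset.mem_univ _) h
  rw [key V, key V']
  exact OR.main A (fun a => V.v (mn x a)) (fun a => V'.v (mn x a)) M M' hM.2 hM'.2 b htri hpos
    htri' hpos' a

end Pool.Agent.GC
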