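import Mathlib
import Pool.Agent.Lib.MP_c95b3b_ag_GC.Val

set_option autoImplicit false

/-! Project GC, module TY: the types of the valuations. -/

namespace Pool.Agent.GC

open Pool.Agent.SD Module

variable {k L : Type} [Field k] [Field L] [Algebra k L] {n t : ℕ}

theorem AA_finite (n t δ : ℕ) : (AA n t δ).Finite := by
  refine Set.Finite.image _ ?_
  have h1 : {h : Fin n → ℤ | ∀ l, h l ∈ Set.Icc (-(δ : ℤ)) δ}.Finite :=
    Set.Finite.pi' fun _ => Set.finite_Icc _ _
  have h2 : {g : (Fin (t + 1) → Fin n) → Fin n → ℤ |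
      ∀ J, g J ∈ {h : Fin n → ℤ | ∀ l, h l ∈ Set.Icc (-(δ : ℤ)) δ}}.Finite :=
    Set.Finite.pi' fun _ => h1
  refine h2.subset fun g hg J l => ?_
  exact abs_le.1 (hg J l)

namespace Types

/-- the values of the monomials, as a linear map -/
noncomputable def wL (V : LV k L t) (x : Fin n → L) : (Fin n → ℤ) →ₗ[ℤ] (Fin t → ℤ) where
  toFun a := lc V x a
  map_add' a b := by
    simp only [lc, Pi.add_apply, add_smul, Finset.sum_add_distrib]
  map_smul' m a := by
    simp only [lc, Pi.smul_apply, smul_eq_mul, mul_smul, Finset.smul_sum, RingHom.id_apply]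

theorem wL_apply (V : LV k L t) (x : Fin n → L) (a : Fin n → ℤ) : wL V x a = lc V x a := rfl

theorem wL_single (V : LV k L t) (x : Fin n → L) (i : Fin n) :
    wL V x (Pi.single i 1) = V.v (x i) := by
  rw [wL_apply, lc, Finset.sum_eq_single i]
  · rw [Pi.single_eq_same, one_smul]
  · intro j _ hj
    rw [Pi.single_eq_of_ne hj, zero_smul]
  · intro h
    exact absurd (Finset.mem_univ i) h

/-- the vector attached to `t + 1` coordinates -/
theorem exists_g (V : LV k L t) (x : Fin n → L) (hx : ∀ i, x i ≠ 0) {δ : ℕ}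
    (hrel : RelB k x t δ) (J : Fin (t + 1) → Fin n) :
    ∃ g : Fin n → ℤ, (∀ l, |g l| ≤ (δ : ℤ)) ∧ wL V x g = 0 ∧ (∀ l, l ∉ Set.range J → g l = 0) ∧
      (Function.Injective J → g ≠ 0) := by
  classical
  by_cases hJ : Function.Injective J
  swap
  · refine ⟨0, fun l => ?_, map_zero _, fun _ _ => rfl, fun h => absurd h hJ⟩
    rw [Pi.zero_apply, abs_zero]
    exact Int.natCast_nonneg δ
  obtain ⟨f, hf, hfd, hf0⟩ := hrel J hJ
  obtain ⟨u, hu, u', hu', hne, hlc⟩ := V.exists_two (fun j => x (J j)) (fun j => hx _) f hf hf0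
  have hdeg : ∀ v ∈ f.support, ∀ j, v j ≤ δ := by
    intro v hv j
    refine le_trans ?_ ((MvPolynomial.le_totalDegree hv).trans hfd)
    by_cases hj : j ∈ v.support
    · exact Finset.single_le_sum (f := fun j => v j) (fun _ _ => Nat.zero_le _) hj
    · rw [Finsupp.notMem_support_iff.1 hj]
      exact Nat.zero_le _
  let g : Fin n → ℤ := fun l => ∑ j, if J j = l then ((u j : ℤ) - u' j) else 0
  have hgJ : ∀ j, g (J j) = (u j : ℤ) - u' j := by
    intro j
    show (∑ i, if J i = J j then ((u i : ℤ) - u' i) else 0) = _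
    rw [Finset.sum_eq_single j]
    · rw [if_pos rfl]
    · intro i _ hi
      rw [if_neg fun h => hi (hJ h)]
    · intro h
      exact absurd (Finset.mem_univ j) h
  have hg0 : ∀ l, l ∉ Set.range J → g l = 0 := by
    intro l hl
    refine Finset.sum_eq_zero fun j _ => ?_
    rw [if_neg fun h => hl ⟨j, h⟩]
  refine ⟨g, ?_, ?_, hg0, ?_⟩
  · intro l
    by_cases hl : l ∈ Set.range J
    · obtain ⟨j, rfl⟩ := hl
      rw [hgJ, abs_le]
      have h1 := hdeg u hu j
      have h2 := hdeg u' hu' j
      constructor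
      · omega
      · omega
    · rw [hg0 l hl, abs_zero]
      exact Int.natCast_nonneg δ
  · have h1 : wL V x g = ∑ j, ((u j : ℤ) - u' j) • V.v (x (J j)) := by
      show ∑ l, g l • V.v (x l) = _
      have h2 : ∀ l, g l • V.v (x l) =
          ∑ j, if J j = l then ((u j : ℤ) - u' j) • V.v (x (J j)) else 0 := by
        intro l
        show (∑ j, if J j = l then ((u j : ℤ) - u' j) else 0) • V.v (x l) = _
        rw [Finset.sum_smul]
        refine Finset.sum_congr rfl fun j _ => ?_
        by_cases h : J j = l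
        · rw [if_pos h, if_pos h, h]
        · rw [if_neg h, if_neg h, zero_smul]
      rw [Finset.sum_congr rfl fun l _ => h2 l, Finset.sum_comm]
      refine Finset.sum_congr rfl fun j _ => ?_
      rw [Finset.sum_ite_eq, if_pos (Finset.mem_univ _)]
    rw [h1]
    simp only [sub_smul, Finset.sum_sub_distrib]
    rw [sub_eq_zero]
    exact hlc
  · intro _ hg
    apply hne
    ext j
    have h1 := hgJ j
    rw [hg, Pi.zero_apply] at h1
    omega

/-- coordinates whose values are a basis -/
theorem exists_base (V : LV k L t) (x : Fin n → L) (b : Fin t → Fin n → ℤ)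
    (hb : (Matrix.of fun j l => wL V x (b j) l).det ≠ 0) :
    ∃ B : Fin t → Fin n, Function.Injective B ∧
      ∀ s : Fin t → ℤ, ∑ j, s j • V.v (x (B j)) = 0 → s = 0 := by
  classical
  let v : Fin n → Fin t → ℚ := fun i l => (V.v (x i) l : ℚ)
  obtain ⟨κ, a, ha, hspan, hli⟩ := exists_linearIndependent' (K := ℚ) v
  have hκ : Finite κ := Finite.of_injective a ha
  have hκf : Fintype κ := Fintype.ofFinite κ
  -- the rows span
  let W : Matrix (Fin n) (Fin t) ℚ := Matrix.of v
  let Bm : Matrix (Fin t) (Fin n) ℚ := Matrix.of fun j i => (b j i : ℚ)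
  have hBW : Bm * W = (Matrix.of fun j l => wL V x (b j) l).map (Int.cast : ℤ → ℚ) := by
    ext j l
    rw [Matrix.mul_apply, Matrix.map_apply, Matrix.of_apply]
    have h1 : wL V x (b j) l = ∑ i, b j i * V.v (x i) l := by
      rw [wL_apply, lc, Finset.sum_apply]
      exact Finset.sum_congr rfl fun i _ => by rw [Pi.smul_apply, smul_eq_mul]
    rw [h1, Int.cast_sum]
    refine Finset.sum_congr rfl fun i _ => ?_
    rw [Int.cast_mul]
    rfl
  have hdet : IsUnit (Bm * W).det := by
    rw [isUnit_iff_ne_zero, hBW]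
    have h2 : ((Matrix.of fun j l => wL V x (b j) l).map (Int.cast : ℤ → ℚ)).det =
        (((Matrix.of fun j l => wL V x (b j) l).det : ℤ) : ℚ) :=
      (Int.cast_det _).symm
    rw [h2]
    exact_mod_cast hb
  have htop : Submodule.span ℚ (Set.range v) = ⊤ := by
    rw [eq_top_iff]
    intro y _
    have h1 : y = Matrix.vecMul (Matrix.vecMul (Matrix.vecMul y (Bm * W)⁻¹) Bm) W := by
      rw [Matrix.vecMul_vecMul, Matrix.vecMul_vecMul, Matrix.nonsing_inv_mul _ hdet,
        Matrix.vecMul_one]
    rw [h1]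
    generalize Matrix.vecMul (Matrix.vecMul y (Bm * W)⁻¹) Bm = z
    have h2 : Matrix.vecMul z W = ∑ i, z i • v i := by
      ext l
      rw [Matrix.vecMul, dotProduct, Finset.sum_apply]
      rfl
    rw [h2]
    exact Submodule.sum_mem _ fun i _ => Submodule.smul_mem _ _ (Submodule.subset_span ⟨i, rfl⟩)
  have hcard : Fintype.card κ = t := by
    have h1 := finrank_span_eq_card (R := ℚ) hli
    rw [hspan, htop, finrank_top, Module.finrank_fin_fun] at h1
    exact h1.symm
  obtain ⟨e⟩ : Nonempty (Fin t ≃ κ) := ⟨(Fintype.equivFinOfCardEq hcard).symm⟩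
  refine ⟨a ∘ e, ha.comp e.injective, fun s hs => ?_⟩
  have h1 := hli.comp e e.injective
  rw [Fintype.linearIndependent_iff] at h1
  funext j
  have h2 := h1 (fun j => (s j : ℚ)) (by
    ext l
    have h3 := congrFun hs l
    rw [Finset.sum_apply, Pi.zero_apply] at h3
    rw [Finset.sum_apply, Pi.zero_apply]
    have h4 : ((∑ j, (s j • V.v (x ((a ∘ e) j))) l : ℤ) : ℚ) = 0 := by
      rw [h3, Int.cast_zero]
    rw [Int.cast_sum] at h4
    rw [← h4]
    refine Finset.sum_congr rfl fun j _ => ?_
    rw [Pi.smul_apply, Pi.smul_apply, smul_eq_mul, smul_eq_mul, Int.cast_mul]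
    rfl) j
  exact_mod_cast h2

/-- the kernel of the values is the saturation of the span of the vectors `g J` -/
theorem ker_iff (V : LV k L t) (x : Fin n → L) (g : (Fin (t + 1) → Fin n) → Fin n → ℤ)
    (hw : ∀ J, wL V x (g J) = 0) (hsupp : ∀ J l, l ∉ Set.range J → g J l = 0)
    (hne : ∀ J, Function.Injective J → g J ≠ 0) (B : Fin t → Fin n) (hB : Function.Injective B)
    (hli : ∀ s : Fin t → ℤ, ∑ j, s j • V.v (x (B j)) = 0 → s = 0) (a : Fin n → ℤ) :
    wL V x a = 0 ↔ ∃ m : ℤ, m ≠ 0 ∧ m • a ∈ Submodule.span ℤ (Set.range g) := by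
  classical
  have hN : Submodule.span ℤ (Set.range g) ≤ LinearMap.ker (wL V x) := by
    refine Submodule.span_le.2 ?_
    rintro _ ⟨J, rfl⟩
    exact hw J
  constructor
  swap
  · rintro ⟨m, hm, h⟩
    have h1 : wL V x (m • a) = 0 := hN h
    rw [map_smul] at h1
    exact (smul_eq_zero.1 h1).resolve_left hm
  intro ha
  let N := Submodule.span ℤ (Set.range g)
  -- reduction to the coordinates `B`
  have key : ∀ c : Fin n → ℤ, ∃ m : ℤ, m ≠ 0 ∧ ∃ s : Fin t → ℤ,
      m • c - ∑ j, s j • (Pi.single (B j) 1 : Fin n → ℤ) ∈ N := by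
    intro c
    have hadd : ∀ c d : Fin n → ℤ, (∃ m : ℤ, m ≠ 0 ∧ ∃ s : Fin t → ℤ,
        m • c - ∑ j, s j • (Pi.single (B j) 1 : Fin n → ℤ) ∈ N) → (∃ m : ℤ, m ≠ 0 ∧
        ∃ s : Fin t → ℤ, m • d - ∑ j, s j • (Pi.single (B j) 1 : Fin n → ℤ) ∈ N) →
        ∃ m : ℤ, m ≠ 0 ∧ ∃ s : Fin t → ℤ,
          m • (c + d) - ∑ j, s j • (Pi.single (B j) 1 : Fin n → ℤ) ∈ N := by
      rintro c d ⟨m, hm, s, h1⟩ ⟨m', hm', s', h2⟩
      refine ⟨m * m', mul_ne_zero hm hm', m' • s + m • s', ?_⟩
      have h3 := N.add_mem (N.smul_mem m' h1) (N.smul_mem m h2)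
      have h4 : (m * m') • (c + d) -
          ∑ j, (m' • s + m • s') j • (Pi.single (B j) 1 : Fin n → ℤ) =
          m' • (m • c - ∑ j, s j • (Pi.single (B j) 1 : Fin n → ℤ)) +
          m • (m' • d - ∑ j, s' j • (Pi.single (B j) 1 : Fin n → ℤ)) := by
        simp only [Pi.add_apply, Pi.smul_apply, smul_eq_mul, add_smul, mul_smul, smul_sub,
          Finset.sum_add_distrib, Finset.smul_sum, smul_add]
        rw [smul_comm m m' c]
        abel
      rw [h4]
      exact h3
    have hsmul : ∀ (q : ℤ) (c : Fin n → ℤ), (∃ m : ℤ, m ≠ 0 ∧ ∃ s : Fin t → ℤ,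
        m • c - ∑ j, s j • (Pi.single (B j) 1 : Fin n → ℤ) ∈ N) → ∃ m : ℤ, m ≠ 0 ∧
        ∃ s : Fin t → ℤ, m • (q • c) - ∑ j, s j • (Pi.single (B j) 1 : Fin n → ℤ) ∈ N := by
      rintro q c ⟨m, hm, s, h1⟩
      refine ⟨m, hm, q • s, ?_⟩
      have h2 := N.smul_mem q h1
      have h3 : m • (q • c) - ∑ j, (q • s) j • (Pi.single (B j) 1 : Fin n → ℤ) =
          q • (m • c - ∑ j, s j • (Pi.single (B j) 1 : Fin n → ℤ)) := by
        simp only [Pi.smul_apply, smul_eq_mul, mul_smul, smul_sub, Finset.smul_sum]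
        rw [smul_comm m q c]
      rw [h3]
      exact h2
    have hzero : ∃ m : ℤ, m ≠ 0 ∧ ∃ s : Fin t → ℤ,
        m • (0 : Fin n → ℤ) - ∑ j, s j • (Pi.single (B j) 1 : Fin n → ℤ) ∈ N := by
      refine ⟨1, one_ne_zero, 0, ?_⟩
      simp
    have hsing : ∀ l : Fin n, ∃ m : ℤ, m ≠ 0 ∧ ∃ s : Fin t → ℤ,
        m • (Pi.single l 1 : Fin n → ℤ) -
          ∑ j, s j • (Pi.single (B j) 1 : Fin n → ℤ) ∈ N := by
      intro l
      by_cases hl : l ∈ Set.range B
      · obtain ⟨i, rfl⟩ := hl
        refine ⟨1, one_ne_zero, Pi.single i 1, ?_⟩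
        rw [Finset.sum_eq_single i, Pi.single_eq_same, sub_self]
        · exact N.zero_mem
        · intro j _ hj
          rw [Pi.single_eq_of_ne hj, zero_smul]
        · intro h
          exact absurd (Finset.mem_univ i) h
      · let J : Fin (t + 1) → Fin n := Fin.snoc B l
        have hJc : ∀ j : Fin t, J j.castSucc = B j := fun j => by simp [J]
        have hJl : J (Fin.last t) = l := by simp [J]
        have hJ : Function.Injective J := by
          intro i j
          refine Fin.lastCases ?_ (fun i => ?_) i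
          · refine Fin.lastCases ?_ (fun j => ?_) j
            · intro _
              rfl
            · intro h
              rw [hJl, hJc] at h
              exact absurd ⟨j, h.symm⟩ hl
          · refine Fin.lastCases ?_ (fun j => ?_) j
            · intro h
              rw [hJl, hJc] at h
              exact absurd ⟨i, h⟩ hl
            · intro h
              rw [hJc, hJc] at h
              rw [hB h]
        have hrange : ∀ i, i ∉ Set.range J → i ≠ l ∧ i ∉ Set.range B := by
          intro i hi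
          constructor
          · rintro rfl
            exact hi ⟨Fin.last t, hJl⟩
          · rintro ⟨j, rfl⟩
            exact hi ⟨j.castSucc, hJc j⟩
        have hdec : g J = g J l • (Pi.single l 1 : Fin n → ℤ) +
            ∑ j, g J (B j) • (Pi.single (B j) 1 : Fin n → ℤ) := by
          funext i
          rw [Pi.add_apply, Pi.smul_apply, Finset.sum_apply, smul_eq_mul]
          by_cases hi : i = l
          · subst hi
            rw [Pi.single_eq_same, mul_one, Finset.sum_eq_zero, add_zero]
            intro j _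
            rw [Pi.smul_apply, Pi.single_eq_of_ne (fun h => hl ⟨j, h.symm⟩), smul_zero]
          · rw [Pi.single_eq_of_ne hi, mul_zero, zero_add]
            by_cases hi2 : i ∈ Set.range B
            · obtain ⟨j, rfl⟩ := hi2
              rw [Finset.sum_eq_single j]
              · rw [Pi.smul_apply, Pi.single_eq_same, smul_eq_mul, mul_one]
              · intro j' _ hj'
                rw [Pi.smul_apply, Pi.single_eq_of_ne (fun h => hj' (hB h).symm), smul_zero]
              · intro h
                exact absurd (Finset.mem_univ j) h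
            · rw [hsupp J i, Finset.sum_eq_zero]
              · intro j _
                rw [Pi.smul_apply, Pi.single_eq_of_ne (fun h => hi2 ⟨j, h.symm⟩), smul_zero]
              · rintro ⟨j, hj⟩
                refine Fin.lastCases ?_ (fun j => ?_) j (motive := fun j => J j = i → False) hj
                · intro h
                  rw [hJl] at h
                  exact hi h.symm
                · intro h
                  rw [hJc] at h
                  exact hi2 ⟨j, h⟩
        refine ⟨g J l, ?_, fun j => - g J (B j), ?_⟩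
        · intro h0
          rw [h0, zero_smul, zero_add] at hdec
          have h1 := hw J
          rw [hdec, map_sum] at h1
          have h2 : ∑ j, g J (B j) • V.v (x (B j)) = 0 := by
            rw [← h1]
            refine Finset.sum_congr rfl fun j _ => ?_
            rw [map_smul, wL_single]
          have h3 := hli _ h2
          apply hne J hJ
          rw [hdec]
          refine Finset.sum_eq_zero fun j _ => ?_
          have h4 : g J (B j) = 0 := congrFun h3 j
          rw [h4, zero_smul]
        · have h1 : g J l • (Pi.single l 1 : Fin n → ℤ) -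
              ∑ j, (-g J (B j)) • (Pi.single (B j) 1 : Fin n → ℤ) = g J := by
            conv_rhs => rw [hdec]
            simp only [neg_smul, Finset.sum_neg_distrib, sub_neg_eq_add]
          rw [h1]
          exact Submodule.subset_span ⟨J, rfl⟩
    have hc : c = ∑ l, c l • (Pi.single l 1 : Fin n → ℤ) := by
      funext i
      rw [Finset.sum_apply, Finset.sum_eq_single i]
      · rw [Pi.smul_apply, Pi.single_eq_same, smul_eq_mul, mul_one]
      · intro j _ hj
        rw [Pi.smul_apply, Pi.single_eq_of_ne hj.symm, smul_zero]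
      · intro h
        exact absurd (Finset.mem_univ i) h
    rw [hc]
    exact Finset.sum_induction _ (fun c : Fin n → ℤ => ∃ m : ℤ, m ≠ 0 ∧ ∃ s : Fin t → ℤ,
      m • c - ∑ j, s j • (Pi.single (B j) 1 : Fin n → ℤ) ∈ N) hadd hzero
      fun l _ => hsmul _ _ (hsing l)
  obtain ⟨m, hm, s, hs⟩ := key a
  refine ⟨m, hm, ?_⟩
  have h1 : wL V x (m • a - ∑ j, s j • (Pi.single (B j) 1 : Fin n → ℤ)) = 0 := hN hs
  rw [map_sub, map_smul, ha, smul_zero, zero_sub, neg_eq_zero, map_sum] at h1
  have h2 : s = 0 := by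
    apply hli
    rw [← h1]
    refine Finset.sum_congr rfl fun j _ => ?_
    rw [map_smul, wL_single]
  rw [h2] at hs
  have h3 : m • a - ∑ j, (0 : Fin t → ℤ) j • (Pi.single (B j) 1 : Fin n → ℤ) = m • a := by
    simp
  rw [h3] at hs
  exact hs

/-- the image of the values is free of rank `t` -/
theorem exists_iso (V : LV k L t) (x : Fin n → L) (b : Fin t → Fin n → ℤ)
    (hb : (Matrix.of fun j l => wL V x (b j) l).det ≠ 0) :
    ∃ A : (Fin n → ℤ) →ₗ[ℤ] (Fin t → ℤ), Function.Surjective A ∧
      ∀ a, A a = 0 ↔ wL V x a = 0 := by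
  have hli : LinearIndependent ℤ (fun j => wL V x (b j)) := by
    have h1 := Matrix.linearIndependent_rows_of_det_ne_zero hb
    exact h1
  have hrk : finrank ℤ (LinearMap.range (wL V x)) = t := by
    refine le_antisymm ?_ ?_
    · have h1 := Submodule.finrank_le (LinearMap.range (wL V x))
      rwa [Module.finrank_fin_fun] at h1
    · have h2 : LinearIndependent ℤ
          (fun j => (⟨wL V x (b j), ⟨b j, rfl⟩⟩ : LinearMap.range (wL V x))) :=
        LinearIndependent.of_comp (LinearMap.range (wL V x)).subtype hli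
      have h3 := h2.fintype_card_le_finrank
      rwa [Fintype.card_fin] at h3
  let e : LinearMap.range (wL V x) ≃ₗ[ℤ] (Fin t → ℤ) :=
    LinearEquiv.ofFinrankEq _ _ (by rw [hrk, Module.finrank_fin_fun])
  refine ⟨e.toLinearMap ∘ₗ (wL V x).rangeRestrict, ?_, ?_⟩
  · exact e.surjective.comp (LinearMap.surjective_rangeRestrict _)
  · intro a
    rw [LinearMap.comp_apply, LinearEquiv.coe_coe, EmbeddingLike.map_eq_zero_iff]
    rw [← Subtype.coe_inj]
    rfl

end Types

theorem exists_ty (V : LV k L t) (x : Fin n → L) (hx : ∀ i, x i ≠ 0) {δ : ℕ}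
    (hrel : RelB k x t δ) (b : Fin t → Fin n → ℤ)
    (hb : (vm V (fun j => mn x (b j))).det ≠ 0) :
    ∃ A ∈ AA n t δ, Function.Surjective A ∧ ∃ M, Comes V x A M := by
  classical
  have hvm : vm V (fun j => mn x (b j)) = Matrix.of fun j l => Types.wL V x (b j) l := by
    ext j l
    show V.v (mn x (b j)) l = Types.wL V x (b j) l
    rw [V.map_mn x hx, Types.wL_apply]
  rw [hvm] at hb
  choose g hgb hgw hgs hgn using Types.exists_g V x hx hrel
  obtain ⟨B, hB, hBli⟩ := Types.exists_base V x b hb
  have hker := Types.ker_iff V x g hgw hgs hgn B hB hBli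
  obtain ⟨A0, hA0, hA0k⟩ := Types.exists_iso V x b hb
  have hex : ∃ A : (Fin n → ℤ) →+ (Fin t → ℤ), IsTy g A :=
    ⟨A0.toAddMonoidHom, hA0, fun a => (hA0k a).trans (hker a)⟩
  have hty : tyOf g = hex.choose := by
    rw [tyOf, dif_pos hex]
  obtain ⟨hs, hk⟩ := hex.choose_spec
  rw [← hty] at hs hk
  have hk' : ∀ a, tyOf g a = 0 ↔ Types.wL V x a = 0 := fun a => (hk a).trans (hker a).symm
  refine ⟨tyOf g, ⟨g, hgb, rfl⟩, hs, ?_⟩
  choose c hc using fun j : Fin t => hs (Pi.single j 1)
  let M : Matrix (Fin t) (Fin t) ℤ := Matrix.of fun l j => Types.wL V x (c j) l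
  have hM : ∀ a, Types.wL V x a = M.mulVec (tyOf g a) := by
    intro a
    have h1 : tyOf g (a - ∑ j, tyOf g a j • c j) = 0 := by
      rw [map_sub, map_sum, sub_eq_zero]
      funext l
      rw [Finset.sum_apply, Finset.sum_eq_single l]
      · rw [map_zsmul, hc, Pi.smul_apply, Pi.single_eq_same, smul_eq_mul, mul_one]
      · intro j _ hj
        rw [map_zsmul, hc, Pi.smul_apply, Pi.single_eq_of_ne hj.symm, smul_zero]
      · intro h
        exact absurd (Finset.mem_univ l) h
    rw [hk', map_sub, map_sum, sub_eq_zero] at h1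
    rw [h1]
    funext l
    rw [Finset.sum_apply, Matrix.mulVec, dotProduct]
    refine Finset.sum_congr rfl fun j _ => ?_
    rw [map_zsmul, Pi.smul_apply, smul_eq_mul, mul_comm]
    rfl
  refine ⟨M, ?_, fun a => ?_⟩
  · have h1 : (Matrix.of fun j l => Types.wL V x (b j) l) =
        (Matrix.of fun j l => tyOf g (b j) l) * M.transpose := by
      ext j l
      rw [Matrix.mul_apply, Matrix.of_apply, hM, Matrix.mulVec, dotProduct]
      refine Finset.sum_congr rfl fun i _ => ?_
      rw [Matrix.transpose_apply, Matrix.of_apply, mul_comm]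
    rw [h1, Matrix.det_mul, Matrix.det_transpose] at hb
    exact right_ne_zero_of_mul hb
  · rw [V.map_mn x hx, ← Types.wL_apply, hM]

end Pool.Agent.GC
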