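import Mathlib
import Pool.Agent.Lib.MP_c95b3b_ag_GC.Flags
import Pool.Agent.Lib.MP_c95b3b_ag_GC.Index
import Pool.Agent.Lib.MP_c95b3b_ag_GC.Num
import Pool.Agent.Lib.MP_c95b3b_ag_GC.Ord
import Pool.Agent.Lib.MP_c95b3b_ag_GC.Types

set_option autoImplicit false

/-! Project GC, module BO: upper bound for the degree of a monomial map. -/

namespace Pool.Agent.GC

open Pool.Agent.SD Module

variable {k L : Type} [Field k] [Field L] [Algebra k L] {n t : ℕ}

namespace Bound

/-- the transcendence degree is at most `t` -/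
theorem trdeg_le (x : Fin n → L) (htop : IntermediateField.adjoin k (Set.range x) = ⊤) {δ : ℕ}
    (hrel : RelB k x t δ) : Algebra.trdeg k L ≤ (t : Cardinal) := by
  classical
  have halg1 : Algebra.IsAlgebraic (IntermediateField.adjoin k (Set.range x)) L := by
    rw [htop]
    exact ⟨fun y => isAlgebraic_algebraMap (⟨y, IntermediateField.mem_top⟩ :
      (⊤ : IntermediateField k L))⟩
  have halg : Algebra.IsAlgebraic (Algebra.adjoin k (Set.range x)) L :=
    IntermediateField.isAlgebraic_adjoin_iff_top.1 halg1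
  obtain ⟨s, hs, hbas⟩ := exists_isTranscendenceBasis_subset (R := k) (Set.range x)
  rw [← hbas.cardinalMk_eq_trdeg]
  have hfin : s.Finite := (Set.finite_range x).subset hs
  have : Fintype s := hfin.fintype
  rw [Cardinal.mk_fintype, Nat.cast_le]
  by_contra hlt
  rw [not_le] at hlt
  obtain ⟨e⟩ : Nonempty (Fin (t + 1) ↪ s) :=
    Function.Embedding.nonempty_of_card_le (by rw [Fintype.card_fin]; exact hlt)
  choose J hJ using fun j => hs (e j).2
  have hJi : Function.Injective J := by
    intro i j hij
    apply e.injective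
    apply Subtype.ext
    rw [← hJ i, ← hJ j, hij]
  obtain ⟨f, hf, -, hf0⟩ := hrel J hJi
  have hind : AlgebraicIndependent k (fun j => x (J j)) := by
    have h1 : (fun j => x (J j)) = (fun a : s => (a : L)) ∘ e := funext fun j => hJ j
    rw [h1]
    exact hbas.1.comp e e.injective
  exact hf (algebraicIndependent_iff.1 hind f hf0)

/-- finiteness over `t` algebraically independent elements -/
theorem fin_of_algInd (x : Fin n → L) (htop : IntermediateField.adjoin k (Set.range x) = ⊤)
    {δ : ℕ} (hrel : RelB k x t δ) (z : Fin t → L) (hz : AlgebraicIndependent k z) :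
    FiniteDimensional (IntermediateField.adjoin k (Set.range z)) L := by
  have hle : Algebra.trdeg k L ≤ Cardinal.mk (Fin t) := by
    rw [Cardinal.mk_fin]
    exact trdeg_le x htop hrel
  have hbas : IsTranscendenceBasis k z := hz.isTranscendenceBasis_of_trdeg_le_of_finite hle
  have halg := hbas.isAlgebraic_field
  have hfd : FiniteDimensional (IntermediateField.adjoin k (Set.range z))
      (IntermediateField.adjoin (IntermediateField.adjoin k (Set.range z)) (Set.range x)) :=
    IntermediateField.finiteDimensional_adjoin fun y _ => (halg.isAlgebraic y).isIntegral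
  have htop2 : IntermediateField.adjoin (IntermediateField.adjoin k (Set.range z))
      (Set.range x) = ⊤ := by
    rw [eq_top_iff]
    intro y _
    have h1 : IntermediateField.adjoin k (Set.range x) ≤
        (IntermediateField.adjoin (IntermediateField.adjoin k (Set.range z))
          (Set.range x)).restrictScalars k := by
      rw [IntermediateField.adjoin_le_iff]
      exact IntermediateField.subset_adjoin _ _
    rw [htop] at h1
    exact h1 IntermediateField.mem_top
  rw [htop2] at hfd
  exact Module.Finite.equiv (IntermediateField.topEquiv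
    (F := IntermediateField.adjoin k (Set.range z)) (E := L)).toLinearEquiv

/-- the matrix of the values in terms of the type -/
theorem vm_eq (V : LV k L t) (x : Fin n → L) (A : (Fin n → ℤ) →+ (Fin t → ℤ))
    (M : Matrix (Fin t) (Fin t) ℤ) (h : Comes V x A M) (b : Fin t → Fin n → ℤ) :
    vm V (fun j => mn x (b j)) = (Matrix.of fun j => A (b j)) * M.transpose := by
  ext j l
  rw [Matrix.mul_apply]
  show V.v (mn x (b j)) l = _
  rw [h.2, Matrix.mulVec, dotProduct]
  refine Finset.sum_congr rfl fun i _ => ?_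
  rw [Matrix.transpose_apply, Matrix.of_apply, mul_comm]

/-- a surjective homomorphism is injective on the span of some of the unit vectors -/
theorem exists_B (A : (Fin n → ℤ) →+ (Fin t → ℤ)) (hA : Function.Surjective A) :
    ∃ B : Fin t → Fin n, (Matrix.of fun j => A (Pi.single (B j) 1)).det ≠ 0 := by
  classical
  obtain ⟨v, hv⟩ : ∃ v : Fin n → Fin t → ℚ, v = fun i l => (A (Pi.single i 1) l : ℚ) := ⟨_, rfl⟩
  have hA1 : ∀ a : Fin n → ℤ, A a = ∑ i, a i • A (Pi.single i 1) := by
    intro a
    have h1 : a = ∑ i, a i • (Pi.single i 1 : Fin n → ℤ) := by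
      funext j
      rw [Finset.sum_apply, Finset.sum_eq_single j]
      · simp
      · intro i _ hij
        simp [Ne.symm hij]
      · intro hj
        exact absurd (Finset.mem_univ j) hj
    conv_lhs => rw [h1]
    rw [map_sum]
    exact Finset.sum_congr rfl fun i _ => map_zsmul A _ _
  have hspan : Submodule.span ℚ (Set.range v) = ⊤ := by
    rw [eq_top_iff]
    intro y _
    have h2 : ∀ l : Fin t, (Pi.single l 1 : Fin t → ℚ) ∈ Submodule.span ℚ (Set.range v) := by
      intro l
      obtain ⟨a, ha⟩ := hA (Pi.single l 1)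
      have h3 : (Pi.single l 1 : Fin t → ℚ) = ∑ i, (a i : ℚ) • v i := by
        funext m
        have h4 := congrFun ha m
        rw [hA1 a, Finset.sum_apply] at h4
        rw [Finset.sum_apply, hv]
        simp only [Pi.smul_apply, smul_eq_mul] at h4 ⊢
        have h5 : ((∑ i, a i * A (Pi.single i 1) m : ℤ) : ℚ) =
            (((Pi.single l 1 : Fin t → ℤ) m : ℤ) : ℚ) := by rw [h4]
        rw [Int.cast_sum] at h5
        simp only [Int.cast_mul] at h5
        rw [h5]
        by_cases hml : m = l
        · subst hml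
          simp
        · simp [Pi.single_eq_of_ne hml]
      rw [h3]
      exact Submodule.sum_mem _ fun i _ => Submodule.smul_mem _ _
        (Submodule.subset_span ⟨i, rfl⟩)
    have h6 : y = ∑ l, y l • (Pi.single l 1 : Fin t → ℚ) := by
      funext j
      rw [Finset.sum_apply, Finset.sum_eq_single j]
      · simp
      · intro i _ hij
        simp [Ne.symm hij]
      · intro hj
        exact absurd (Finset.mem_univ j) hj
    rw [h6]
    exact Submodule.sum_mem _ fun l _ => Submodule.smul_mem _ _ (h2 l)
  obtain ⟨κ, a, ha, hsp, hli⟩ := exists_linearIndependent' (K := ℚ) v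
  rw [hspan] at hsp
  have hκ : Finite κ := Finite.of_injective a ha
  have hκf : Fintype κ := Fintype.ofFinite κ
  let bas : Basis κ ℚ (Fin t → ℚ) := Basis.mk hli (by rw [hsp])
  have hcard : Fintype.card (Fin t) = Fintype.card κ := by
    rw [Fintype.card_fin, ← Module.finrank_eq_card_basis bas, Module.finrank_fin_fun]
  let e : Fin t ≃ κ := Fintype.equivOfCardEq hcard
  refine ⟨fun j => a (e j), ?_⟩
  have hrow : LinearIndependent ℚ (fun j => v (a (e j))) := hli.comp e e.injective
  have hdetQ : (Matrix.of fun j => v (a (e j))).det ≠ 0 := by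
    have h7 : IsUnit (Matrix.of fun j => v (a (e j))) := by
      rw [← Matrix.linearIndependent_rows_iff_isUnit]
      exact hrow
    rw [Matrix.isUnit_iff_isUnit_det] at h7
    exact h7.ne_zero
  intro h0
  apply hdetQ
  have h8 : (Matrix.of fun j => v (a (e j))) =
      (Matrix.of fun j => A (Pi.single (a (e j)) 1)).map (Int.castRingHom ℚ) := by
    ext j l
    rw [Matrix.map_apply, Matrix.of_apply, Matrix.of_apply, hv]
    rfl
  rw [h8, ← RingHom.mapMatrix_apply, ← RingHom.map_det, h0, map_zero]

/-- the estimates for the valuations of one type -/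
theorem one_type (x : Fin n → L) (hx : ∀ i, x i ≠ 0)
    (htop : IntermediateField.adjoin k (Set.range x) = ⊤) {δ : ℕ} (hrel : RelB k x t δ)
    (b : Fin t → Fin n → ℤ) {N : ℕ} (V : Fin N → LV k L t)
    (htri : ∀ i j l, l < j → (V i).v (mn x (b j)) l = 0)
    (hpos : ∀ i j, 0 < (V i).v (mn x (b j)) j)
    (hsep : ∀ i, ∃ z : L, z ≠ 0 ∧ (z = 1 ∨ 0 < toLex ((V i).v (z - 1))) ∧
      ∀ j, j ≠ i → 0 < toLex ((V j).v z))
    (A : (Fin n → ℤ) →+ (Fin t → ℤ)) (hA : Function.Surjective A) (T : Finset (Fin N))
    (M : Fin N → Matrix (Fin t) (Fin t) ℤ) (hM : ∀ i ∈ T, Comes (V i) x A (M i)) (C0 : ℕ)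
    (hC0 : ∀ B : Fin t → Fin n,
      finrank (IntermediateField.adjoin k (Set.range fun j => x (B j))) L ≤ C0) :
    ∑ i ∈ T, (vm (V i) (fun j => mn x (b j))).det.natAbs ≤
      C0 ^ 2 * (Matrix.of fun j => A (b j)).det.natAbs := by
  classical
  rcases T.eq_empty_or_nonempty with rfl | ⟨i0, hi0⟩
  · rw [Finset.sum_empty]
    exact Nat.zero_le _
  obtain ⟨B, hB⟩ := exists_B A hA
  have hzx : (fun j => mn x (Pi.single (B j) 1)) = fun j => x (B j) :=
    funext fun j => mn_single x (B j)
  have hvz : ∀ i ∈ T, (vm (V i) (fun j => x (B j))).det =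
      (Matrix.of fun j => A (Pi.single (B j) 1)).det * (M i).det := by
    intro i hi
    rw [← hzx, vm_eq (V i) x A (M i) (hM i hi) (fun j => Pi.single (B j) 1), Matrix.det_mul,
      Matrix.det_transpose]
  have hdz : ∀ i ∈ T, (vm (V i) (fun j => x (B j))).det ≠ 0 := by
    intro i hi
    rw [hvz i hi]
    exact mul_ne_zero hB (hM i hi).1
  have hli : ∀ i ∈ T, ∀ u, lc (V i) (fun j => x (B j)) u = 0 → u = 0 := fun i hi =>
    lc_ne_of_det (V i) _ (hdz i hi)
  have hind : AlgebraicIndependent k (fun j => x (B j)) :=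
    algInd_of_val (V i0) _ (fun j => hx _) (hli i0 hi0)
  have hfin := fin_of_algInd x htop hrel _ hind
  have hso : ∀ i ∈ T, ∀ j ∈ T, SameOrd (V i) (V j) (fun l => x (B l)) := fun i hi j hj =>
    sameOrd (V i) (V j) x hx b (htri i) (hpos i) (htri j) (hpos j) A (M i) (M j) (hM i hi)
      (hM j hj) B
  have hT : T.card ≤ C0 :=
    (num_le V hsep (fun j => x (B j)) (fun j => hx _) T hli hso hfin).trans (hC0 B)
  have hMC : ∀ i ∈ T, (M i).det.natAbs ≤ C0 := by
    intro i hi
    have h1 := (index_le (V i) (fun j => x (B j)) (fun j => hx _) (hdz i hi) hfin).trans (hC0 B)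
    rw [hvz i hi, Int.natAbs_mul] at h1
    exact (Nat.le_mul_of_pos_left _ (Int.natAbs_pos.2 hB)).trans h1
  calc ∑ i ∈ T, (vm (V i) (fun j => mn x (b j))).det.natAbs
      ≤ ∑ _i ∈ T, C0 * (Matrix.of fun j => A (b j)).det.natAbs := by
        refine Finset.sum_le_sum fun i hi => ?_
        rw [vm_eq (V i) x A (M i) (hM i hi) b, Matrix.det_mul, Matrix.det_transpose,
          Int.natAbs_mul, mul_comm]
        exact Nat.mul_le_mul_right _ (hMC i hi)
    _ = T.card * (C0 * (Matrix.of fun j => A (b j)).det.natAbs) := by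
        rw [Finset.sum_const, smul_eq_mul]
    _ ≤ C0 * (C0 * (Matrix.of fun j => A (b j)).det.natAbs) := Nat.mul_le_mul_right _ hT
    _ = C0 ^ 2 * (Matrix.of fun j => A (b j)).det.natAbs := by ring

end Bound

theorem bound [IsAlgClosed k] [CharZero k] (x : Fin n → L) (hx : ∀ i, x i ≠ 0)
    (htop : IntermediateField.adjoin k (Set.range x) = ⊤) {δ : ℕ} (hrel : RelB k x t δ) :
    ∃ C : ℕ, ∀ b : Fin t → Fin n → ℤ, AlgebraicIndependent k (fun j => mn x (b j)) →
      FiniteDimensional (IntermediateField.adjoin k (Set.range fun j => mn x (b j))) L ∧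
      ∃ A ∈ AA n t δ, (∃ (V : LV k L t) (M : Matrix (Fin t) (Fin t) ℤ), Comes V x A M) ∧
        finrank (IntermediateField.adjoin k (Set.range fun j => mn x (b j))) L ≤
          C * (Matrix.of fun j => A (b j)).det.natAbs := by
  classical
  obtain ⟨C0, hC0⟩ : ∃ C0 : ℕ, ∀ B : Fin t → Fin n,
      finrank (IntermediateField.adjoin k (Set.range fun j => x (B j))) L ≤ C0 :=
    ⟨∑ B : Fin t → Fin n, finrank (IntermediateField.adjoin k (Set.range fun j => x (B j))) L,
      fun B => Finset.single_le_sum
        (f := fun B : Fin t → Fin n =>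
          finrank (IntermediateField.adjoin k (Set.range fun j => x (B j))) L)
        (fun _ _ => Nat.zero_le _) (Finset.mem_univ B)⟩
  refine ⟨(AA_finite n t δ).toFinset.card * C0 ^ 2, fun b hind => ?_⟩
  have hfin := Bound.fin_of_algInd x htop hrel _ hind
  refine ⟨hfin, ?_⟩
  obtain ⟨N, V, htri, hpos, hsum, hsep⟩ := exists_flags k t L (fun j => mn x (b j)) hind hfin
  have hdet : ∀ i, (vm (V i) (fun j => mn x (b j))).det =
      ∏ j, (V i).v (mn x (b j)) j := by
    intro i
    rw [Matrix.det_of_isUpperTriangular]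
    · rfl
    · intro j l hlj
      exact htri i j l hlj
  have hdpos : ∀ i, 0 < (vm (V i) (fun j => mn x (b j))).det := by
    intro i
    rw [hdet]
    exact Finset.prod_pos fun j _ => hpos i j
  have hnat : ∀ i, ∏ j, ((V i).v (mn x (b j)) j).toNat =
      (vm (V i) (fun j => mn x (b j))).det.natAbs := by
    intro i
    zify
    rw [abs_of_pos (hdpos i), hdet]
    exact Finset.prod_congr rfl fun j _ => Int.toNat_of_nonneg (hpos i j).le
  choose A hAm hAs M hM using fun i => exists_ty (V i) x hx hrel b (hdpos i).ne'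
  have hD : 0 < finrank (IntermediateField.adjoin k (Set.range fun j => mn x (b j))) L :=
    Module.finrank_pos
  obtain ⟨S, hS⟩ : ∃ S : Finset ((Fin n → ℤ) →+ (Fin t → ℤ)), S = Finset.univ.image A :=
    ⟨_, rfl⟩
  have hSn : S.Nonempty := by
    rw [hS, Finset.image_nonempty]
    by_contra h
    rw [Finset.not_nonempty_iff_eq_empty] at h
    rw [← hsum, h, Finset.sum_empty] at hD
    exact lt_irrefl _ hD
  obtain ⟨A0, hA0, hmax⟩ := S.exists_max_image
    (fun A => (Matrix.of fun j => A (b j)).det.natAbs) hSn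
  rw [hS, Finset.mem_image] at hA0
  obtain ⟨i0, -, rfl⟩ := hA0
  refine ⟨A i0, hAm i0, ⟨V i0, M i0, hM i0⟩, ?_⟩
  have hScard : S.card ≤ (AA_finite n t δ).toFinset.card := by
    refine Finset.card_le_card fun A' hA' => ?_
    rw [hS, Finset.mem_image] at hA'
    obtain ⟨i, -, rfl⟩ := hA'
    rw [Set.Finite.mem_toFinset]
    exact hAm i
  have hmap : ∀ i ∈ (Finset.univ : Finset (Fin N)), A i ∈ S := by
    intro i hi
    rw [hS]
    exact Finset.mem_image_of_mem A hi
  rw [← hsum]
  calc ∑ i, ∏ j, ((V i).v (mn x (b j)) j).toNat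
      = ∑ i, (vm (V i) (fun j => mn x (b j))).det.natAbs :=
        Finset.sum_congr rfl fun i _ => hnat i
    _ = ∑ A' ∈ S, ∑ i ∈ Finset.univ.filter (fun i => A i = A'),
          (vm (V i) (fun j => mn x (b j))).det.natAbs :=
        (Finset.sum_fiberwise_of_maps_to hmap _).symm
    _ ≤ ∑ _A' ∈ S, C0 ^ 2 * (Matrix.of fun j => A i0 (b j)).det.natAbs := by
        refine Finset.sum_le_sum fun A' hA' => ?_
        have hA2 := hmax A' hA'
        rw [hS, Finset.mem_image] at hA'
        obtain ⟨i1, -, hi1⟩ := hA'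
        have hsurj : Function.Surjective A' := by
          rw [← hi1]
          exact hAs i1
        refine (Bound.one_type x hx htop hrel b V htri hpos hsep A' hsurj _ M ?_ C0 hC0).trans
          (Nat.mul_le_mul_left _ hA2)
        intro i hi
        rw [Finset.mem_filter] at hi
        have h1 := hM i
        rw [hi.2] at h1
        exact h1
    _ = S.card * (C0 ^ 2 * (Matrix.of fun j => A i0 (b j)).det.natAbs) := by
        rw [Finset.sum_const, smul_eq_mul]
    _ ≤ (AA_finite n t δ).toFinset.card *
          (C0 ^ 2 * (Matrix.of fun j => A i0 (b j)).det.natAbs) :=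
        Nat.mul_le_mul_right _ hScard
    _ = (AA_finite n t δ).toFinset.card * C0 ^ 2 *
          (Matrix.of fun j => A i0 (b j)).det.natAbs := by ring

end Pool.Agent.GC
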