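import Mathlib
import Pool.Agent.Lib.MP_c95b3b_ag_SD.Deg

set_option autoImplicit false

/-! Project GC, module DC: the degree of the map `x^a` for `a` near `M α` is large. -/

namespace Pool.Agent.GC

open Pool.Agent.SD Module

namespace DegC

open MvPolynomial Filter Topology

/-- a linear relation over the field generated by `y` with cleared denominators -/
theorem clear_rel {L : Type} [Field L] [Algebra ℂ L] {t : ℕ} (y : Fin t → L) {ε : Type}
    [Fintype ε] [DecidableEq ε] (f : ε → L)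
    (h : ¬ LinearIndependent (IntermediateField.adjoin ℂ (Set.range y)) f) :
    ∃ (H : ε → MvPolynomial (Fin t) ℂ) (e : ε), aeval y (H e) ≠ 0 ∧
      ∑ e, aeval y (H e) * f e = 0 := by
  classical
  rw [Fintype.not_linearIndependent_iff] at h
  obtain ⟨g, hg, e0, he0⟩ := h
  have h1 : ∀ e, ∃ r s : MvPolynomial (Fin t) ℂ, aeval y s ≠ 0 ∧
      (g e : L) = aeval y r / aeval y s := by
    intro e
    obtain ⟨r, s, hrs⟩ := (IntermediateField.mem_adjoin_range_iff ℂ y (g e : L)).1 (g e).2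
    by_cases hs : aeval y s = 0
    · refine ⟨0, 1, ?_, ?_⟩
      · rw [map_one]
        exact one_ne_zero
      · rw [hrs, hs, div_zero, map_zero, zero_div]
    · exact ⟨r, s, hs, hrs⟩
  choose r s hs hrs using h1
  refine ⟨fun e => r e * ∏ e' ∈ Finset.univ.erase e, s e', e0, ?_, ?_⟩
  · rw [map_mul, map_prod]
    refine mul_ne_zero ?_ (Finset.prod_ne_zero_iff.2 fun e' _ => hs e')
    intro h0
    refine he0 (Subtype.ext ?_)
    rw [hrs e0, h0, zero_div]
    rfl
  · have h2 : ∀ e, aeval y (r e * ∏ e' ∈ Finset.univ.erase e, s e') * f e =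
        (∏ e', aeval y (s e')) * ((g e : L) * f e) := by
      intro e
      rw [map_mul, map_prod, hrs e, ← Finset.mul_prod_erase Finset.univ _ (Finset.mem_univ e)]
      have := hs e
      field_simp
    have h3 : ∑ e, (g e : L) * f e = 0 := by
      rw [← hg]
      exact Finset.sum_congr rfl fun e _ => rfl
    simp only [h2]
    rw [← Finset.mul_sum, h3, mul_zero]

/-- the relations to be avoided -/
def Dep {L : Type} [Field L] [Algebra ℂ L] {n t : ℕ} (x : Fin n → L)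
    (p : (Fin t → Fin n → ℤ) × Finset (Fin n → ℤ)) : Prop :=
  ∃ (H : p.2 → MvPolynomial (Fin t) ℂ) (e : p.2),
    aeval (fun i => mn x (p.1 i)) (H e) ≠ 0 ∧
      ∑ e, aeval (fun i => mn x (p.1 i)) (H e) * mn x e.1 = 0

/-- a good point of the chart -/
theorem exists_pt_gen {L : Type} [Field L] [Algebra ℂ L] {n d t : ℕ} {x : Fin n → L}
    {κ : Fin d → Fin n} {z0 : Fin n → ℂ} (hx : ∀ i, x i ≠ 0)
    (hκ : AlgebraicIndependent ℂ (fun j => x (κ j)))
    (halg : ∀ i, IsAlgebraic (Algebra.adjoin ℂ (Set.range fun j => x (κ j))) (x i))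
    (c : Chart x κ z0) (b : Fin d → Fin n → ℝ)
    (hb : LinearIndependent L (fun j => om x (b j))) :
    ∃ u ∈ c.U, (jac b c.ψ u).det ≠ 0 ∧
      ∀ p : (Fin t → Fin n → ℤ) × Finset (Fin n → ℤ), Dep x p →
        ∃ (H : p.2 → MvPolynomial (Fin t) ℂ) (e : p.2),
          aeval (fun i => mn (c.ψ u) (p.1 i)) (H e) ≠ 0 ∧
            ∑ e, aeval (fun i => mn x (p.1 i)) (H e) * mn x e.1 = 0 := by
  classical
  have hcont : ContinuousOn c.ψ c.U := c.an.continuousOn
  choose H e he hsum using fun q : {p : (Fin t → Fin n → ℤ) × Finset (Fin n → ℤ) // Dep x p} => q.2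
  choose G hG using fun q : {p : (Fin t → Fin n → ℤ) × Finset (Fin n → ℤ) // Dep x p} =>
    Map.exists_poly1 (A := ℂ) q.1.1 (H q (e q))
  let f : Option {p : (Fin t → Fin n → ℤ) × Finset (Fin n → ℤ) // Dep x p} →
      Set (Fin d → ℂ) := fun o =>
    Option.elim o (c.U ∩ (fun t => (jac b c.ψ t).det) ⁻¹' {0}ᶜ)
      (fun q => c.U ∩ (fun t => eval (c.ψ t) (G q)) ⁻¹' {0}ᶜ)
  obtain ⟨u, huU, hu⟩ := GenPt.baire_aux
    (ι := Option {p : (Fin t → Fin n → ℤ) × Finset (Fin n → ℤ) // Dep x p})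
    c.isOpen ⟨c.t0, c.t0_mem⟩ f (by
      rintro (_ | F)
      · exact (jac_an c b).continuousOn.isOpen_inter_preimage c.isOpen isOpen_compl_singleton
      · refine ContinuousOn.isOpen_inter_preimage ?_ c.isOpen isOpen_compl_singleton
        exact (MvPolynomial.continuous_eval _).comp_continuousOn hcont) (by
      rintro (_ | q) U' hU' hsub hne
      · obtain ⟨t, ht, h⟩ := jac_ne hx hκ halg c b hb U' hU' hsub hne
        exact ⟨t, ht, hsub ht, h⟩
      · obtain ⟨t, ht, h⟩ := c.gen (G q) (by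
          rw [Ne, hG q L x hx]
          exact he q) U' hU' hsub hne
        exact ⟨t, ht, hsub ht, h⟩)
  refine ⟨u, huU, (hu none).2, fun p hp => ⟨H ⟨p, hp⟩, e ⟨p, hp⟩, ?_, hsum ⟨p, hp⟩⟩⟩
  have h1 : eval (c.ψ u) (G ⟨p, hp⟩) ≠ 0 := (hu (some ⟨p, hp⟩)).2
  intro h0
  refine h1 ?_
  rw [← aeval_eq_eval]
  exact (hG ⟨p, hp⟩ ℂ (c.ψ u) (c.on u huU).1).2 h0

theorem cont_jac {n d : ℕ} (ψ : (Fin d → ℂ) → Fin n → ℂ) (t : Fin d → ℂ) :
    Continuous fun u : Fin d → Fin n → ℝ => (jac u ψ t).det := by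
  refine Continuous.matrix_det ?_
  refine continuous_matrix fun j i => ?_
  unfold jac
  refine continuous_finsetSum _ fun l _ => ?_
  exact (Complex.continuous_ofReal.comp ((continuous_apply l).comp (continuous_apply j))).mul
    continuous_const

theorem li_rv {L : Type} [Field L] [CharZero L] [Algebra ℂ L] {n d : ℕ} {x : Fin n → L}
    (a : Fin d → Fin n → ℤ) (M : ℕ) (hM : 0 < M)
    (h : LinearIndependent L (fun j => om x (fun l => (a j l : ℝ) / M))) :
    LinearIndependent L (fun j => om x (rv (a j))) := by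
  have hM' : algebraMap ℂ L ((M : ℝ) : ℂ) ≠ 0 := by
    rw [Ne, map_eq_zero]
    exact_mod_cast hM.ne'
  have hw := h.units_smul (fun _ => Units.mk0 _ hM')
  convert hw using 1
  funext j
  show _ = (Units.mk0 _ hM') • om x (fun l => (a j l : ℝ) / M)
  rw [Units.smul_def, Units.val_mk0, ← om_smul]
  congr 1
  funext l
  have : (M : ℝ) ≠ 0 := by exact_mod_cast hM.ne'
  simp only [rv, Pi.smul_apply, smul_eq_mul]
  field_simp

end DegC

open DegC Deg MvPolynomial Filter Topology in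
theorem deg_big {L : Type} [Field L] [Algebra ℂ L] {n t : ℕ} {x : Fin n → L}
    (hx : ∀ i, x i ≠ 0) (α : Fin t → Fin n → ℝ)
    (hli : LinearIndependent L (fun i => om x (α i))) (hd : dm x = t) :
    ∃ c0 : ℝ, 0 < c0 ∧ ∃ M0 : ℕ, ∀ M : ℕ, M0 ≤ M → ∀ a : Fin t → Fin n → ℤ,
      (∀ i l, |(a i l : ℝ) - M * α i l| ≤ 1) →
      AlgebraicIndependent ℂ (fun i => mn x (a i)) ∧ ∃ E : Finset (Fin n → ℤ),
        c0 * M ^ t ≤ E.card ∧ LinearIndependent
          (IntermediateField.adjoin ℂ (Set.range fun i => mn x (a i)))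
          (fun e : E => mn x e.1) := by
  classical
  subst hd
  have hchar : CharZero L := charZero_of_injective_algebraMap (algebraMap ℂ L).injective
  obtain ⟨κ, -, hκ, halg⟩ := exists_kappa hx
  obtain ⟨F0, hF0, hch⟩ := exists_chart x hx κ hκ halg
  obtain ⟨z0, hz0, hF0z⟩ := exists_pt x hx F0 hF0
  obtain ⟨c⟩ := hch z0 hz0 hF0z
  obtain ⟨t1, ht1, hdet, hgen⟩ := exists_pt_gen (t := dm x) hx hκ halg c α hli
  have hz1 : ∀ i, c.ψ t1 i ≠ 0 := (c.on t1 ht1).1
  obtain ⟨ℓ, hℓ, hev⟩ := exists_log (c.an t1 ht1) hz1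
  have hU : {t | t ∈ c.U ∧ ∀ l, Complex.exp (ℓ t l) = c.ψ t l} ∈ 𝓝 t1 :=
    Filter.inter_mem (c.isOpen.mem_nhds ht1) (hev.mono fun t h => h.2.1)
  have hself := hev.self_of_nhds
  have hinj : ∀ v : Fin (dm x) → ℂ,
      (∀ j : Fin 0, ∑ l, (((Fin.elim0 j : Fin n → ℤ) l : ℤ) : ℂ) * fderiv ℂ ℓ t1 v l = 0) →
      (∀ i, ∑ l, (α i l : ℂ) * fderiv ℂ ℓ t1 v l = 0) → v = 0 := by
    intro v _ h2
    refine inj_of_det c.ψ t1 α hdet v fun j => ?_
    have hrw : ∀ l, fderiv ℂ c.ψ t1 v l / c.ψ t1 l = fderiv ℂ ℓ t1 v l := fun l =>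
      (hself.2.2.2 v l).symm
    simp only [hrw]
    exact h2 j
  obtain ⟨c0, hc0, M0, hM0⟩ := count_sol (zero_add (dm x)) t1 _ hU ℓ hℓ
    (fun j : Fin 0 => (Fin.elim0 j : Fin n → ℤ)) α hinj
  have hnear : ∀ᶠ u in 𝓝 α, (jac u c.ψ t1).det ≠ 0 :=
    (cont_jac c.ψ t1).continuousAt.eventually_ne hdet
  obtain ⟨ε, hε, hball⟩ := Metric.eventually_nhds_iff.1 hnear
  refine ⟨c0, hc0, max M0 (⌈1 / ε⌉₊ + 1), fun M hM a ha => ?_⟩
  have hM1 : M0 ≤ M := le_trans (le_max_left _ _) hM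
  have hM2 : ⌈1 / ε⌉₊ + 1 ≤ M := le_trans (le_max_right _ _) hM
  have hMpos : 0 < M := by omega
  have hMr : (0 : ℝ) < M := by exact_mod_cast hMpos
  have hMε : 1 / (M : ℝ) < ε := by
    have h1 : 1 / ε < M := by
      calc 1 / ε ≤ ⌈1 / ε⌉₊ := Nat.le_ceil _
        _ < (⌈1 / ε⌉₊ : ℝ) + 1 := by linarith
        _ ≤ M := by exact_mod_cast hM2
    rw [div_lt_iff₀ hε] at h1
    rw [div_lt_iff₀ hMr]
    linarith
  have hdist : dist (fun i l => (a i l : ℝ) / M) α < ε := by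
    rw [dist_pi_lt_iff hε]
    intro i
    rw [dist_pi_lt_iff hε]
    intro l
    rw [Real.dist_eq]
    refine lt_of_le_of_lt ?_ hMε
    have : (a i l : ℝ) / M - α i l = ((a i l : ℝ) - M * α i l) / M := by
      field_simp
    rw [this, abs_div, abs_of_pos hMr]
    exact div_le_div_of_nonneg_right (ha i l) hMr.le
  have hdet' := hball hdist
  have hliA : LinearIndependent L (fun j => om x (rv (a j))) := by
    refine li_rv a M hMpos ?_
    by_contra hcon
    exact hdet' (jac_eq hx hκ halg c _ hcon t1 ht1)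
  refine ⟨algInd_of_om hx hliA, ?_⟩
  obtain ⟨Q, hQcard, hQ⟩ := hM0 M hM1 a ha
  have hinjQ : Set.InjOn c.ψ (Q : Set (Fin (dm x) → ℂ)) := by
    intro t ht t' ht' h
    funext j
    rw [← c.coord t (hQ t ht).1.1 j, ← c.coord t' (hQ t' ht').1.1 j, h]
  obtain ⟨E, hEcard, -, hE⟩ := exists_exps (Q.image c.ψ)
  refine ⟨E, ?_, ?_⟩
  · rw [hEcard, Finset.card_image_of_injOn hinjQ]
    exact hQcard
  -- values of the monomials at the points of `Q`
  have hval : ∀ t ∈ Q, ∀ j, mn (c.ψ t) (a j) = mn (c.ψ t1) (a j) := by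
    intro t ht j
    obtain ⟨⟨_, hexp⟩, -, hak⟩ := hQ t ht
    have e1 : c.ψ t = fun l => Complex.exp (ℓ t l) := funext fun l => (hexp l).symm
    have e2 : c.ψ t1 = fun l => Complex.exp (ℓ t1 l) := funext fun l => (hself.2.1 l).symm
    rw [e1, e2, mn_exp, mn_exp]
    obtain ⟨k, hk⟩ := hak j
    rw [hk, Complex.exp_add, Complex.exp_int_mul_two_pi_mul_I, mul_one]
  by_contra hdep
  obtain ⟨H, e, he, hH⟩ := hgen ⟨a, E⟩ (clear_rel _ _ hdep)
  -- the relation at the points of the variety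
  have hrel : ∀ t ∈ Q, ∑ e : E, aeval (fun i => mn (c.ψ t1) (a i)) (H e) *
      mn (c.ψ t) e.1 = 0 := by
    intro t ht
    have h1 := OnY.rel_mn hx (c.on t (hQ t ht).1.1) (ι := E ⊕ Fin (dm x))
      (Sum.elim (fun e => e.1) a)
      (∑ e : E, rename Sum.inr (H e) * X (Sum.inl e)) (by
        rw [map_sum, ← hH]
        refine Finset.sum_congr rfl fun q _ => ?_
        rw [map_mul, aeval_rename, aeval_X]
        rfl)
    rw [map_sum] at h1
    rw [← h1]
    refine Finset.sum_congr rfl fun q _ => ?_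
    rw [map_mul, aeval_rename, aeval_X]
    simp only [Sum.elim_inl]
    congr 2
    congr 1
    funext i
    simp only [Function.comp, Sum.elim_inr]
    exact (hval t ht i).symm
  have hz := hE (fun e0 => if h : e0 ∈ E then
    aeval (fun i => mn (c.ψ t1) (a i)) (H ⟨e0, h⟩) else 0) (fun z hz => by
      obtain ⟨t, ht, rfl⟩ := Finset.mem_image.1 hz
      rw [← hrel t ht, ← Finset.sum_coe_sort E]
      refine Finset.sum_congr rfl fun e0 _ => ?_
      rw [dif_pos e0.2]) e.1 e.2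
  simp only [e.2, dite_true] at hz
  exact he hz

end Pool.Agent.GC
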