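import Mathlib
import Pool.Agent.Lib.MP_c95b3b_ag_GC.Val

set_option autoImplicit false

/-! Project GC, module LP: leading coefficients. -/

namespace Pool.Agent.GC

open Pool.Agent.SD Module

variable {k L : Type} [Field k] [Field L] [Algebra k L] {n t : ℕ}

namespace LP

/-- `z` is zero or has positive value -/
def Sm (V : LV k L t) (z : L) : Prop := z ≠ 0 → 0 < toLex (V.v z)

theorem Sm.sum {V : LV k L t} {ι : Type} {s : Finset ι} {a : ι → L}
    (h : ∀ i ∈ s, Sm V (a i)) : Sm V (∑ i ∈ s, a i) := fun h0 => V.sum_pos s a h h0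

theorem Sm.neg {V : LV k L t} {z : L} (h : Sm V z) : Sm V (-z) := by
  intro h0
  rw [V.map_neg]
  exact h (neg_ne_zero.mp h0)

theorem Sm.add {V : LV k L t} {z w : L} (h : Sm V z) (h' : Sm V w) : Sm V (z + w) := by
  have h1 := Sm.sum (V := V) (s := (Finset.univ : Finset (Fin 2))) (a := ![z, w]) (by
    intro i _
    fin_cases i
    · exact h
    · exact h')
  rw [Fin.sum_univ_two] at h1
  exact h1

theorem Sm.sub {V : LV k L t} {z w : L} (h : Sm V z) (h' : Sm V w) : Sm V (z - w) := by
  rw [sub_eq_add_neg]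
  exact h.add h'.neg

theorem Sm.mul {V : LV k L t} {z w : L} (hz : z ≠ 0 → 0 ≤ toLex (V.v z)) (h : Sm V w) :
    Sm V (z * w) := by
  intro h0
  have hz0 : z ≠ 0 := left_ne_zero_of_mul h0
  have hw0 : w ≠ 0 := right_ne_zero_of_mul h0
  rw [V.map_mul z w hz0 hw0, toLex_add]
  exact add_pos_of_nonneg_of_pos (hz hz0) (h hw0)

theorem Sm.cmul {V : LV k L t} (c : k) {w : L} (h : Sm V w) :
    Sm V (algebraMap k L c * w) := by
  refine Sm.mul (fun _ => ?_) h
  rw [V.map_const, toLex_zero]

theorem Sm.const {V : LV k L t} {c : k} (h : Sm V (algebraMap k L c)) : c = 0 := by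
  by_contra h0
  have h1 : algebraMap k L c ≠ 0 := by
    rw [Ne, map_eq_zero]
    exact h0
  have h2 := h h1
  rw [V.map_const, toLex_zero] at h2
  exact lt_irrefl _ h2

theorem unique {V : LV k L t} {z : L} {c c' : k} (h : Sm V (z - algebraMap k L c))
    (h' : Sm V (z - algebraMap k L c')) : c = c' := by
  have h1 := h'.sub h
  have h2 : z - algebraMap k L c' - (z - algebraMap k L c) = algebraMap k L (c - c') := by
    rw [map_sub]
    ring
  rw [h2] at h1
  exact sub_eq_zero.mp h1.const

end LP

/-- the leading coefficients of the monomials of value `0`, and the leading principle -/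
theorem LV.lp (V : LV k L t) (x : Fin n → L) (hx : ∀ i, x i ≠ 0) :
    ∃ c : (Fin n → ℤ) → k, (∀ a, V.v (mn x a) = 0 → c a ≠ 0) ∧
      (∀ a b, V.v (mn x a) = 0 → V.v (mn x b) = 0 → c (a + b) = c a * c b) ∧
      ∀ (S : Finset (Fin n → ℤ)) (m : (Fin n → ℤ) → k) (κ : Fin t → ℤ) (a0 : Fin n → ℤ),
        ∑ a ∈ S, algebraMap k L (m a) * mn x a = 0 →
        (∀ a ∈ S, toLex κ ≤ toLex (V.v (mn x a))) → V.v (mn x a0) = κ →
        ∑ a ∈ S with V.v (mn x a) = κ, m a * c (a - a0) = 0 := by
  classical
  have hmn : ∀ a, mn x a ≠ 0 := fun a => mn_ne_zero hx a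
  have hval : ∀ a b, V.v (mn x (a + b)) = V.v (mn x a) + V.v (mn x b) := by
    intro a b
    rw [mn_add hx, V.map_mul _ _ (hmn a) (hmn b)]
  have hsub : ∀ a b, V.v (mn x (a - b)) = V.v (mn x a) - V.v (mn x b) := by
    intro a b
    have h1 := hval (a - b) b
    rw [sub_add_cancel] at h1
    rw [h1, add_sub_cancel_right]
  have hex : ∀ a, ∃ c : k, V.v (mn x a) = 0 → LP.Sm V (mn x a - algebraMap k L c) := by
    intro a
    by_cases h : V.v (mn x a) = 0
    · obtain ⟨c, hc⟩ := V.resid _ (hmn a) h
      refine ⟨c, fun _ h0 => ?_⟩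
      rcases hc with hc | hc
      · exact absurd (sub_eq_zero.mpr hc) h0
      · exact hc
    · exact ⟨0, fun h' => absurd h' h⟩
  choose c hc using hex
  refine ⟨c, ?_, ?_, ?_⟩
  · intro a ha h0
    have h1 := hc a ha
    rw [h0, _root_.map_zero, sub_zero] at h1
    have h2 := h1 (hmn a)
    rw [ha, toLex_zero] at h2
    exact lt_irrefl _ h2
  · intro a b ha hb
    have hab : V.v (mn x (a + b)) = 0 := by rw [hval, ha, hb, add_zero]
    refine LP.unique (hc (a + b) hab) ?_
    have h1 : mn x (a + b) - algebraMap k L (c a * c b) =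
        mn x b * (mn x a - algebraMap k L (c a)) +
          algebraMap k L (c a) * (mn x b - algebraMap k L (c b)) := by
      rw [mn_add hx, _root_.map_mul]
      ring
    rw [h1]
    refine (LP.Sm.mul (fun _ => ?_) (hc a ha)).add ((hc b hb).cmul _)
    rw [hb, toLex_zero]
  · intro S m κ a0 hrel hκ ha0
    -- divide by the monomial of `a0`
    have hrel' : ∑ a ∈ S, algebraMap k L (m a) * mn x (a - a0) = 0 := by
      have h1 : ∀ a, algebraMap k L (m a) * mn x (a - a0) =
          algebraMap k L (m a) * mn x a * (mn x a0)⁻¹ := by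
        intro a
        have h2 : mn x (a - a0) * mn x a0 = mn x a := by
          rw [← mn_add hx, sub_add_cancel]
        rw [← h2]
        field_simp [hmn a0]
      simp_rw [h1]
      rw [← Finset.sum_mul, hrel, zero_mul]
    have h0 : ∀ a, V.v (mn x a) = κ → V.v (mn x (a - a0)) = 0 := by
      intro a ha
      rw [hsub, ha, ha0, sub_self]
    obtain ⟨g, hg⟩ : ∃ g : (Fin n → ℤ) → L, g = fun a =>
        if V.v (mn x a) = κ then
          algebraMap k L (m a) * (mn x (a - a0) - algebraMap k L (c (a - a0)))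
        else algebraMap k L (m a) * mn x (a - a0) := ⟨_, rfl⟩
    have hgS : LP.Sm V (∑ a ∈ S, g a) := by
      refine LP.Sm.sum fun a ha => ?_
      rw [hg]
      dsimp only
      split_ifs with h
      · exact (hc _ (h0 a h)).cmul _
      · refine LP.Sm.cmul _ fun _ => ?_
        have h1 : toLex κ < toLex (V.v (mn x a)) := by
          refine lt_of_le_of_ne (hκ a ha) fun h2 => h ?_
          exact (toLex_inj.mp h2).symm
        rw [hsub, ha0, toLex_sub]
        exact sub_pos.mpr h1
    have hgC : ∑ a ∈ S, g a =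
        -algebraMap k L (∑ a ∈ S with V.v (mn x a) = κ, m a * c (a - a0)) := by
      have h1 : ∀ a, g a = algebraMap k L (m a) * mn x (a - a0) -
          (if V.v (mn x a) = κ then algebraMap k L (m a * c (a - a0)) else 0) := by
        intro a
        rw [hg]
        dsimp only
        split_ifs with h
        · rw [_root_.map_mul]
          ring
        · ring
      simp_rw [h1]
      rw [Finset.sum_sub_distrib, hrel', zero_sub, _root_.map_sum, Finset.sum_filter]
    rw [hgC] at hgS
    have h3 := hgS.neg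
    rw [neg_neg] at h3
    exact h3.const

end Pool.Agent.GC
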