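import Mathlib
import Pool.Agent.Lib.MP_c95b3b_ag_GC.Bound
import Pool.Agent.Lib.MP_c95b3b_ag_GC.LP
import Pool.Agent.Lib.MP_c95b3b_ag_GC.DegC
import Pool.Agent.Lib.MP_c95b3b_ag_SD.Sel

set_option autoImplicit false

/-! Project GC, the main theorem on types. -/

namespace Pool.Agent.GC

open Pool.Agent.SD Module

/-- the real extension of `A` -/
noncomputable def AR {n t : ℕ} (A : (Fin n → ℤ) →+ (Fin t → ℤ)) (v : Fin n → ℝ) : Fin t → ℝ :=
  fun i => ∑ l, v l * (A (Pi.single l 1) i : ℝ)

namespace Cones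

open Filter Topology

theorem apply_eq {n t : ℕ} (A : (Fin n → ℤ) →+ (Fin t → ℤ)) (a : Fin n → ℤ) :
    A a = ∑ l, a l • A (Pi.single l 1) := by
  have h : a = ∑ l, a l • (Pi.single l 1 : Fin n → ℤ) := by
    funext j
    rw [Finset.sum_apply, Finset.sum_eq_single j]
    · rw [Pi.smul_apply, Pi.single_eq_same, smul_eq_mul, mul_one]
    · intro l _ hl
      rw [Pi.smul_apply, Pi.single_eq_of_ne hl.symm, smul_zero]
    · intro hj
      exact absurd (Finset.mem_univ j) hj
  conv_lhs => rw [h]
  rw [map_sum]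
  exact Finset.sum_congr rfl fun l _ => map_zsmul A _ _

theorem AR_rv {n t : ℕ} (A : (Fin n → ℤ) →+ (Fin t → ℤ)) (a : Fin n → ℤ) (i : Fin t) :
    (A a i : ℝ) = AR A (rv a) i := by
  rw [apply_eq A a, AR, Finset.sum_apply, Int.cast_sum]
  refine Finset.sum_congr rfl fun l _ => ?_
  rw [Pi.smul_apply, smul_eq_mul, Int.cast_mul]
  rfl

/-- forms of coordinates complete independent forms -/
theorem exists_full {L : Type} [Field L] [Algebra ℂ L] {n : ℕ} (x : Fin n → L) {r : ℕ}
    (α : Fin r → Fin n → ℝ) (hα : LinearIndependent L (fun i => om x (α i))) :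
    ∃ (β : Fin (dm x) → Fin n → ℝ) (f : Fin r → Fin (dm x)), Function.Injective f ∧
      (∀ i, β (f i) = α i) ∧ LinearIndependent L (fun i => om x (β i)) := by
  obtain ⟨τ, w, hτ, hw, hli⟩ := Sel.exists_extend (fun j => om x (α j)) hα
    (om x '' Set.univ) (finite_span_om x _)
    (fun j => Submodule.subset_span ⟨_, Set.mem_univ _, rfl⟩)
  choose y _ hyw using hw
  have hwe : w = fun i => om x (y i) := funext fun i => (hyw i).symm
  rw [hwe] at hli
  rw [Fintype.card_fin] at hτ
  have hd : r + τ = dm x := hτ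
  let e : Fin r ⊕ Fin τ ≃ Fin (dm x) := finSumFinEquiv.trans (finCongr hd)
  refine ⟨fun i => Sum.elim α y (e.symm i), fun i => e (Sum.inl i),
    e.injective.comp Sum.inl_injective, fun i => ?_, ?_⟩
  · simp only [Equiv.symm_apply_apply, Sum.elim_inl]
  · have h2 : (fun i => om x (Sum.elim α y (e.symm i))) =
        (Sum.elim (fun j => om x (α j)) (fun i => om x (y i))) ∘ e.symm := by
      funext i
      rw [Function.comp_apply]
      rcases e.symm i with j | j
      · rw [Sum.elim_inl, Sum.elim_inl]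
      · rw [Sum.elim_inr, Sum.elim_inr]
    rw [h2]
    exact hli.comp _ e.symm.injective

/-- the integral vectors near `M v` -/
noncomputable def rd {n : ℕ} (M : ℕ) (v : Fin n → ℝ) : Fin n → ℤ := fun l => round (M * v l)

theorem rd_le {n : ℕ} (M : ℕ) (v : Fin n → ℝ) (l : Fin n) : |(rd M v l : ℝ) - M * v l| ≤ 1 := by
  rw [abs_sub_comm]
  refine (abs_sub_round _).trans ?_
  norm_num

theorem tendsto_rd {n : ℕ} (v : Fin n → ℝ) (l : Fin n) :
    Tendsto (fun M : ℕ => (rd M v l : ℝ) / M) atTop (𝓝 (v l)) := by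
  have h1 : Tendsto (fun M : ℕ => 1 / (M : ℝ)) atTop (𝓝 0) := tendsto_one_div_atTop_nhds_zero_nat
  rw [tendsto_iff_dist_tendsto_zero]
  refine squeeze_zero' (Eventually.of_forall fun _ => dist_nonneg) ?_ h1
  filter_upwards [eventually_gt_atTop 0] with M hM
  have hMr : (0 : ℝ) < M := by exact_mod_cast hM
  rw [Real.dist_eq]
  have : (rd M v l : ℝ) / M - v l = ((rd M v l : ℝ) - M * v l) / M := by
    field_simp
  rw [this, abs_div, abs_of_pos hMr]
  exact div_le_div_of_nonneg_right (rd_le M v l) hMr.le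

theorem tendsto_det {n t : ℕ} (A : (Fin n → ℤ) →+ (Fin t → ℤ)) (β : Fin t → Fin n → ℝ) :
    Tendsto (fun M : ℕ => ((Matrix.of fun j => A (rd M (β j))).det : ℝ) / (M : ℝ) ^ t) atTop
      (𝓝 (Matrix.of fun j => AR A (β j)).det) := by
  have h0 : Tendsto (fun M : ℕ => (Matrix.of fun j i =>
      ∑ l, (rd M (β j) l : ℝ) / M * (A (Pi.single l 1) i : ℝ)).det) atTop
      (𝓝 (Matrix.of fun j => AR A (β j)).det) := by
    have hc : Continuous fun B : Matrix (Fin t) (Fin t) ℝ => B.det := by fun_prop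
    refine (hc.tendsto _).comp ?_
    refine tendsto_pi_nhds.2 fun j => tendsto_pi_nhds.2 fun i => ?_
    have h1 : Tendsto (fun M : ℕ => ∑ l, (rd M (β j) l : ℝ) / M * (A (Pi.single l 1) i : ℝ)) atTop
        (𝓝 (∑ l, β j l * (A (Pi.single l 1) i : ℝ))) :=
      tendsto_finsetSum _ fun l _ => (tendsto_rd (β j) l).mul_const _
    exact h1
  refine h0.congr' ?_
  filter_upwards [eventually_gt_atTop 0] with M hM
  have hMr : (0 : ℝ) < M := by exact_mod_cast hM
  have h1 : (Matrix.of fun j i => ∑ l, (rd M (β j) l : ℝ) / M * (A (Pi.single l 1) i : ℝ)) =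
      (M : ℝ)⁻¹ • (Matrix.of fun j => A (rd M (β j))).map (Int.cast : ℤ → ℝ) := by
    ext j i
    rw [Matrix.smul_apply, Matrix.map_apply, Matrix.of_apply, Matrix.of_apply, AR_rv, AR,
      smul_eq_mul, Finset.mul_sum]
    refine Finset.sum_congr rfl fun l _ => ?_
    rw [div_eq_mul_inv, rv]
    ring
  rw [h1, Matrix.det_smul, Fintype.card_fin, inv_pow, div_eq_inv_mul]
  congr 1
  exact (Int.cast_det _).symm

/-- linear independence over the field generated by monomials in a smaller field -/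
theorem li_sub {L : Type} [Field L] [Algebra ℂ L] {n t : ℕ} (x : Fin n → L)
    (x' : Fin n → IntermediateField.adjoin ℂ (Set.range x)) (hx' : ∀ i, (x' i : L) = x i)
    (a : Fin t → Fin n → ℤ) (E : Finset (Fin n → ℤ))
    (h : LinearIndependent (IntermediateField.adjoin ℂ (Set.range fun i => mn x (a i)))
      (fun e : E => mn x e.1)) :
    LinearIndependent (IntermediateField.adjoin ℂ (Set.range fun i => mn x' (a i)))
      (fun e : E => mn x' e.1) := by
  classical
  have hmn : ∀ b : Fin n → ℤ, ((mn x' b : IntermediateField.adjoin ℂ (Set.range x)) : L) =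
      mn x b := by
    intro b
    have h1 := map_mn (x := x') (algebraMap (IntermediateField.adjoin ℂ (Set.range x)) L) b
    have h2 : (fun i => algebraMap (IntermediateField.adjoin ℂ (Set.range x)) L (x' i)) = x :=
      funext hx'
    rw [h2] at h1
    exact h1
  have hmem : ∀ z : IntermediateField.adjoin ℂ (Set.range fun i => mn x' (a i)),
      ((z : IntermediateField.adjoin ℂ (Set.range x)) : L) ∈
        IntermediateField.adjoin ℂ (Set.range fun i => mn x (a i)) := by
    intro z
    have h1 : (IntermediateField.adjoin ℂ (Set.range x)).val z.1 ∈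
        (IntermediateField.adjoin ℂ (Set.range fun i => mn x' (a i))).map
          (IntermediateField.adjoin ℂ (Set.range x)).val :=
      (IntermediateField.mem_map _).2 ⟨z.1, z.2, rfl⟩
    rw [IntermediateField.adjoin_map] at h1
    have h2 : (IntermediateField.adjoin ℂ (Set.range x)).val '' (Set.range fun i => mn x' (a i)) =
        Set.range fun i => mn x (a i) := by
      rw [← Set.range_comp]
      congr 1
      funext i
      exact hmn (a i)
    rw [h2] at h1
    exact h1
  rw [Fintype.linearIndependent_iff] at h ⊢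
  intro g hg e
  have h3 := h (fun e => ⟨_, hmem (g e)⟩) (by
    have h4 := congrArg (algebraMap (IntermediateField.adjoin ℂ (Set.range x)) L) hg
    rw [map_sum, map_zero] at h4
    rw [← h4]
    refine Finset.sum_congr rfl fun e _ => ?_
    rw [IntermediateField.smul_def, IntermediateField.smul_def, smul_eq_mul, smul_eq_mul,
      map_mul]
    congr 1
    exact (hmn e.1).symm) e
  have h5 : ((g e : IntermediateField.adjoin ℂ (Set.range x)) : L) = 0 := congrArg Subtype.val h3
  have h6 : (g e : IntermediateField.adjoin ℂ (Set.range x)) = 0 := Subtype.ext h5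
  exact Subtype.ext h6

end Cones

open Cones Filter Topology in
/-- Types of varieties: there is a homomorphism `A` in a fixed finite set, injective on the span of
the vectors `α i` whose forms are independent, a lexicographic order on the classes modulo the
kernel of `A` and a character `c` of the kernel (the leading coefficients) such that the terms of
smallest order of every relation between the monomials in `x` satisfy the corresponding
relation. -/
theorem cones (n t δ : ℕ) (L : Type) [Field L] [Algebra ℂ L] (x : Fin n → L)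
    (hx : ∀ i, x i ≠ 0) (hd : dm x = t) (hrel : RelB ℂ x t δ) (r : ℕ) (α : Fin r → Fin n → ℝ)
    (hα : LinearIndependent L (fun i => om x (α i))) :
    ∃ A ∈ AA n t δ, Function.Surjective A ∧ LinearIndependent ℝ (fun i => AR A (α i)) ∧
      ∃ (M : Matrix (Fin t) (Fin t) ℤ) (c : (Fin n → ℤ) → ℂ), M.det ≠ 0 ∧
        (∀ a, A a = 0 → c a ≠ 0) ∧ (∀ a b, A a = 0 → A b = 0 → c (a + b) = c a * c b) ∧
        ∀ (S : Finset (Fin n → ℤ)) (m : (Fin n → ℤ) → ℂ) (a0 : Fin n → ℤ),
          ∑ a ∈ S, algebraMap ℂ L (m a) * mn x a = 0 →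
          (∀ a ∈ S, toLex (M.mulVec (A a0)) ≤ toLex (M.mulVec (A a))) →
          ∑ a ∈ S with A a = A a0, m a * c (a - a0) = 0 := by
  classical
  subst hd
  obtain ⟨β, f, hf, hβα, hβ⟩ := exists_full x α hα
  obtain ⟨c0, hc0, M0, hM0⟩ := deg_big hx β hβ rfl
  -- the field generated by `x`
  let L' := IntermediateField.adjoin ℂ (Set.range x)
  let x' : Fin n → L' := fun i => ⟨x i, IntermediateField.subset_adjoin _ _ ⟨i, rfl⟩⟩
  have hx'x : ∀ i, (x' i : L) = x i := fun _ => rfl
  have hx' : ∀ i, x' i ≠ 0 := fun i h => hx i (congrArg Subtype.val h)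
  have hmn : ∀ b : Fin n → ℤ, ((mn x' b : L') : L) = mn x b := by
    intro b
    exact map_mn (x := x') (algebraMap L' L) b
  have htop : IntermediateField.adjoin ℂ (Set.range x') = ⊤ := by
    rw [eq_top_iff]
    intro z _
    have h1 : (IntermediateField.adjoin ℂ (Set.range x')).map L'.val = L' := by
      rw [IntermediateField.adjoin_map]
      congr 1
      rw [← Set.range_comp]
      rfl
    have h2 : (z : L) ∈ (IntermediateField.adjoin ℂ (Set.range x')).map L'.val := by
      rw [h1]
      exact z.2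
    obtain ⟨y, hy, hyz⟩ := (IntermediateField.mem_map _).1 h2
    have h3 : y = z := Subtype.ext hyz
    rw [← h3]
    exact hy
  have hrel' : RelB ℂ x' (dm x) δ := by
    intro J hJ
    obtain ⟨F, hF, hFd, hF0⟩ := hrel J hJ
    refine ⟨F, hF, hFd, ?_⟩
    have h1 : L'.val (MvPolynomial.aeval (fun j => x' (J j)) F) = 0 := by
      rw [MvPolynomial.comp_aeval_apply, ← hF0]
      rfl
    exact Subtype.ext h1
  obtain ⟨C, hC⟩ := bound x' hx' htop hrel'
  -- the matrices for large `M`
  have hbig : ∀ M : ℕ, M0 ≤ M → ∃ A ∈ AA n (dm x) δ,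
      (∃ (V : LV ℂ L' (dm x)) (B : Matrix (Fin (dm x)) (Fin (dm x)) ℤ), Comes V x' A B) ∧
      c0 * (M : ℝ) ^ (dm x) ≤ C * |((Matrix.of fun j => A (rd M (β j))).det : ℝ)| := by
    intro M hM
    obtain ⟨hai, E, hE, hEli⟩ := hM0 M hM (fun i => rd M (β i)) (fun i l => rd_le M (β i) l)
    have hai' : AlgebraicIndependent ℂ (fun j => mn x' (rd M (β j))) := by
      refine AlgebraicIndependent.of_comp L'.val ?_
      have h1 : (L'.val ∘ fun j => mn x' (rd M (β j))) = fun j => mn x (rd M (β j)) :=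
        funext fun j => hmn _
      rw [h1]
      exact hai
    obtain ⟨hfd, A, hA, hV, hle⟩ := hC (fun j => rd M (β j)) hai'
    refine ⟨A, hA, hV, ?_⟩
    have h1 := li_sub x x' hx'x _ E hEli
    have h2 := h1.fintype_card_le_finrank
    rw [Fintype.card_coe] at h2
    have h3 : E.card ≤ C * (Matrix.of fun j => A (rd M (β j))).det.natAbs := h2.trans hle
    refine hE.trans ?_
    have h4 : (E.card : ℝ) ≤ ((C * (Matrix.of fun j => A (rd M (β j))).det.natAbs : ℕ) : ℝ) := by
      exact_mod_cast h3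
    refine h4.trans (le_of_eq ?_)
    rw [Nat.cast_mul, Nat.cast_natAbs, Int.cast_abs]
  choose A hA hV hle using fun M : ℕ => hbig (M0 + M) (Nat.le_add_right _ _)
  have hfin := AA_finite n (dm x) δ
  have : Finite (AA n (dm x) δ) := hfin
  obtain ⟨⟨A0, hA0⟩, hinf⟩ := Finite.exists_infinite_fiber
    (fun M : ℕ => (⟨A M, hA M⟩ : AA n (dm x) δ))
  have hfreq : ∃ᶠ M in (atTop : Filter ℕ), c0 ≤
      (C : ℝ) * |((Matrix.of fun j => A0 (rd M (β j))).det : ℝ) / (M : ℝ) ^ (dm x)| := by
    rw [Filter.frequently_atTop]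
    intro N
    have h1 := (Set.infinite_coe_iff.1 hinf).exists_gt N
    obtain ⟨M, hM, hMN⟩ := h1
    have h2 : A M = A0 := congrArg Subtype.val hM
    have h3 := hle M
    rw [h2] at h3
    have h4 : (0 : ℝ) < ((M0 + M : ℕ) : ℝ) ^ (dm x) := by
      have : 0 < M0 + M := by omega
      positivity
    refine ⟨M0 + M, by omega, ?_⟩
    rw [abs_div, abs_of_pos h4, ← mul_div_assoc, le_div_iff₀ h4]
    exact h3
  have hlim := ((tendsto_det A0 β).abs).const_mul (C : ℝ)
  have hlow := ge_of_tendsto_of_frequently hlim hfreq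
  have hdet : (Matrix.of fun j => AR A0 (β j)).det ≠ 0 := by
    intro h
    rw [h, abs_zero, mul_zero] at hlow
    exact absurd hc0 (not_lt.2 hlow)
  have hliR : LinearIndependent ℝ (fun i => AR A0 (α i)) := by
    have h1 := Matrix.linearIndependent_rows_of_det_ne_zero hdet
    have h2 := h1.comp f hf
    have h3 : ((fun i => (Matrix.of fun j => AR A0 (β j)) i) ∘ f) = fun i => AR A0 (α i) := by
      funext i
      exact congrArg (AR A0) (hβα i)
    rw [← h3]
    exact h2
  obtain ⟨⟨M1, hM1⟩⟩ : Nonempty ((fun M : ℕ => (⟨A M, hA M⟩ : AA n (dm x) δ)) ⁻¹'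
      {⟨A0, hA0⟩}) := hinf.nonempty
  have hM1' : A M1 = A0 := congrArg Subtype.val hM1
  obtain ⟨V, B, hB0, hB⟩ := hV M1
  rw [hM1'] at hB
  have hsurj : Function.Surjective A0 := by
    obtain ⟨g, -, rfl⟩ := hA0
    by_cases hex : ∃ A : (Fin n → ℤ) →+ (Fin (dm x) → ℤ), IsTy g A
    · rw [tyOf, dif_pos hex]
      exact hex.choose_spec.1
    · rcases Nat.eq_zero_or_pos (dm x) with h0 | h0
      · intro y
        refine ⟨0, ?_⟩
        funext i
        exact absurd i.2 (by omega)
      · exfalso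
        refine hdet ?_
        have : Nonempty (Fin (dm x)) := ⟨⟨0, h0⟩⟩
        have h1 : (Matrix.of fun j => AR (tyOf g) (β j)) = 0 := by
          ext j i
          rw [Matrix.of_apply, AR, tyOf, dif_neg hex]
          simp
        rw [h1, Matrix.det_zero]
  refine ⟨A0, hA0, hsurj, hliR, ?_⟩
  obtain ⟨c, hcne, hcadd, hclp⟩ := V.lp x' hx'
  have hB00 : ∀ a, A0 a = 0 → V.v (mn x' a) = 0 := by
    intro a ha
    rw [hB, ha, Matrix.mulVec_zero]
  refine ⟨B, c, hB0, fun a ha => hcne a (hB00 a ha), fun a b ha hb => hcadd a b (hB00 a ha)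
    (hB00 b hb), fun S m a0 hS0 hSle => ?_⟩
  have hS0' : ∑ a ∈ S, algebraMap ℂ L' (m a) * mn x' a = 0 := by
    have h1 : L'.val (∑ a ∈ S, algebraMap ℂ L' (m a) * mn x' a) = 0 := by
      rw [map_sum, ← hS0]
      refine Finset.sum_congr rfl fun a _ => ?_
      rw [map_mul]
      congr 1
      exact hmn a
    exact Subtype.ext h1
  have h1 := hclp S m (V.v (mn x' a0)) a0 hS0' (fun a ha => by
    rw [hB, hB]
    exact hSle a ha) rfl
  have h2 : (S.filter fun a => V.v (mn x' a) = V.v (mn x' a0)) =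
      S.filter fun a => A0 a = A0 a0 := by
    refine Finset.filter_congr fun a _ => ?_
    rw [hB, hB]
    constructor
    · intro h
      have h3 : B.mulVec (A0 a - A0 a0) = 0 := by
        rw [Matrix.mulVec_sub, h, sub_self]
      exact sub_eq_zero.1 (Matrix.eq_zero_of_mulVec_eq_zero hB0 h3)
    · intro h
      rw [h]
  rw [h2] at h1
  exact h1

/-- monomials with different values of `A` are linearly independent -/
theorem li_of_lp {n t : ℕ} {L : Type} [Field L] [Algebra ℂ L] (x : Fin n → L)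
    (A : (Fin n → ℤ) →+ (Fin t → ℤ)) (M : Matrix (Fin t) (Fin t) ℤ) (c : (Fin n → ℤ) → ℂ)
    (hM : M.det ≠ 0) (hc : ∀ a, A a = 0 → c a ≠ 0)
    (lp : ∀ (S : Finset (Fin n → ℤ)) (m : (Fin n → ℤ) → ℂ) (a0 : Fin n → ℤ),
          ∑ a ∈ S, algebraMap ℂ L (m a) * mn x a = 0 →
          (∀ a ∈ S, toLex (M.mulVec (A a0)) ≤ toLex (M.mulVec (A a))) →
          ∑ a ∈ S with A a = A a0, m a * c (a - a0) = 0)
    (S : Finset (Fin n → ℤ)) (hS : Set.InjOn A (S : Set (Fin n → ℤ))) :
    LinearIndependent ℂ (fun a : S => mn x a.1) := by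
  classical
  by_contra hcon
  rw [Fintype.not_linearIndependent_iff] at hcon
  obtain ⟨g, hg, i, hi⟩ := hcon
  let m : (Fin n → ℤ) → ℂ := fun a => if h : a ∈ S then g ⟨a, h⟩ else 0
  have hm : ∀ a : S, m a.1 = g a := fun a => dif_pos a.2
  have hsum : ∑ a ∈ S, algebraMap ℂ L (m a) * mn x a = 0 := by
    rw [← hg, ← Finset.sum_coe_sort S]
    refine Finset.sum_congr rfl fun a _ => ?_
    rw [hm, Algebra.smul_def]
  have hne : (S.filter fun a => m a ≠ 0).Nonempty :=
    ⟨i.1, Finset.mem_filter.2 ⟨i.2, by rw [hm]; exact hi⟩⟩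
  obtain ⟨a0, ha0, hmin⟩ := Finset.exists_min_image _ (fun a => toLex (M.mulVec (A a))) hne
  have h1 := lp (S.filter fun a => m a ≠ 0) m a0 (by
    rw [Finset.sum_filter]
    refine Eq.trans (Finset.sum_congr rfl fun a _ => ?_) hsum
    by_cases h : m a = 0
    · rw [if_neg (not_not.2 h), h, map_zero, zero_mul]
    · rw [if_pos h]) hmin
  have h2 : (S.filter fun a => m a ≠ 0).filter (fun a => A a = A a0) = {a0} := by
    ext a
    rw [Finset.mem_filter, Finset.mem_singleton]
    constructor
    · rintro ⟨h3, h4⟩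
      exact hS (Finset.mem_filter.1 h3).1 (Finset.mem_filter.1 ha0).1 h4
    · rintro rfl
      exact ⟨ha0, rfl⟩
  rw [h2, Finset.sum_singleton, sub_self] at h1
  rcases mul_eq_zero.1 h1 with h | h
  · exact (Finset.mem_filter.1 ha0).2 h
  · exact hc 0 (map_zero A) h

end Pool.Agent.GC
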