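import Mathlib
import Pool.Agent.Lib.MP_c95b3b_ag_GC.Cones

set_option autoImplicit false

/-! Project GC: types of varieties with blocks of coordinates of different size. -/

namespace Pool.Agent.GC

open Pool.Agent.SD Module MvPolynomial

/-- every `T j + 1` of the elements `x i` of the block `j` satisfy an integral relation of degree
at most `δ` with coefficients of absolute value at most `e^(σ j)` -/
def RelZ {L : Type} [Field L] {n : ℕ} {β : Type} (x : Fin n → L) (blk : Fin n → β) (T : β → ℕ)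
    (δ : ℕ) (σ : β → ℝ) : Prop :=
  ∀ j, ∀ J : Fin (T j + 1) → Fin n, Function.Injective J → (∀ i, blk (J i) = j) →
    ∃ f : MvPolynomial (Fin (T j + 1)) ℤ, f ≠ 0 ∧ f.totalDegree ≤ δ ∧
      (∀ m, |((f.coeff m : ℤ) : ℝ)| ≤ Real.exp (σ j)) ∧ aeval (fun i => x (J i)) f = 0

/-- the leading principle: `A` is the type, `c` are the leading coefficients -/
structure LPr {n t : ℕ} {L : Type} [Field L] [Algebra ℂ L] (x : Fin n → L)
    (A : (Fin n → ℤ) →+ (Fin t → ℤ)) (M : Matrix (Fin t) (Fin t) ℤ) (c : (Fin n → ℤ) → ℂ) :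
    Prop where
  det : M.det ≠ 0
  ne : ∀ a, A a = 0 → c a ≠ 0
  add : ∀ a b, A a = 0 → A b = 0 → c (a + b) = c a * c b
  lp : ∀ (S : Finset (Fin n → ℤ)) (m : (Fin n → ℤ) → ℂ) (a0 : Fin n → ℤ),
    ∑ a ∈ S, algebraMap ℂ L (m a) * mn x a = 0 →
    (∀ a ∈ S, toLex (M.mulVec (A a0)) ≤ toLex (M.mulVec (A a))) →
    ∑ a ∈ S with A a = A a0, m a * c (a - a0) = 0

/-- the part of `a` in the block `j` -/
def res {n : ℕ} {β : Type} [DecidableEq β] (blk : Fin n → β) (j : β) (a : Fin n → ℤ) :
    Fin n → ℤ := fun i => if blk i = j then a i else 0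

namespace Blocks

/-- the exponent of a monomial in the variables `J` -/
def exJ {n m : ℕ} (J : Fin m → Fin n) (u : Fin m → ℤ) : Fin n → ℤ :=
  ∑ i, u i • (Pi.single (J i) 1 : Fin n → ℤ)

theorem exJ_apply {n m : ℕ} {J : Fin m → Fin n} (hJ : Function.Injective J) (u : Fin m → ℤ)
    (i : Fin m) : exJ J u (J i) = u i := by
  rw [exJ, Finset.sum_apply, Finset.sum_eq_single i]
  · rw [Pi.smul_apply, Pi.single_eq_same, smul_eq_mul, mul_one]
  · intro l _ hl
    rw [Pi.smul_apply, Pi.single_eq_of_ne (fun h => hl (hJ h.symm)), smul_zero]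
  · intro h
    exact absurd (Finset.mem_univ i) h

theorem exJ_off {n m : ℕ} {J : Fin m → Fin n} (u : Fin m → ℤ) {l : Fin n}
    (hl : l ∉ Set.range J) : exJ J u l = 0 := by
  rw [exJ, Finset.sum_apply]
  refine Finset.sum_eq_zero fun i _ => ?_
  rw [Pi.smul_apply, Pi.single_eq_of_ne (fun h => hl ⟨i, h.symm⟩), smul_zero]

theorem exJ_injective {n m : ℕ} {J : Fin m → Fin n} (hJ : Function.Injective J) :
    Function.Injective (exJ J) := by
  intro u v h
  funext i
  rw [← exJ_apply hJ u i, h, exJ_apply hJ]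

theorem exJ_sub {n m : ℕ} (J : Fin m → Fin n) (u v : Fin m → ℤ) :
    exJ J (u - v) = exJ J u - exJ J v := by
  rw [exJ, exJ, exJ, ← Finset.sum_sub_distrib]
  exact Finset.sum_congr rfl fun i _ => by rw [Pi.sub_apply, sub_smul]

theorem mn_exJ {L : Type} [Field L] {n m : ℕ} {x : Fin n → L} (hx : ∀ i, x i ≠ 0)
    (J : Fin m → Fin n) (u : Fin m → ℕ) :
    mn x (exJ J fun i => (u i : ℤ)) = ∏ i, x (J i) ^ u i := by
  rw [exJ, mn_sum hx]
  refine Finset.prod_congr rfl fun i _ => ?_
  rw [mn_zsmul hx, mn_single, zpow_natCast]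

/-- a bound for the roots of polynomials with integral coefficients -/
theorem root_bound {ι : Type} (s : Finset ι) (m : ι → ℤ) (z : ι → ℂ) (κ : ι → ℤ) (lam σ u : ℝ)
    (hs : s.Nonempty) (hm : ∀ a ∈ s, m a ≠ 0) (hσ : ∀ a ∈ s, |(m a : ℝ)| ≤ Real.exp σ)
    (hκ : Set.InjOn κ (s : Set ι)) (hz : ∀ a ∈ s, ‖z a‖ = Real.exp (lam * κ a + u))
    (h0 : ∑ a ∈ s, (m a : ℂ) * z a = 0) : |lam| ≤ σ + Real.log s.card := by
  classical
  obtain ⟨a1, ha1, hmax⟩ := Finset.exists_max_image s (fun a => lam * (κ a : ℝ)) hs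
  have hgap : ∀ a ∈ s.erase a1, lam * κ a + u ≤ lam * κ a1 + u - |lam| := by
    intro a ha
    obtain ⟨hne, ha⟩ := Finset.mem_erase.1 ha
    have h1 : lam * κ a ≤ lam * κ a1 := hmax a ha
    have h2 : κ a1 - κ a ≠ 0 := fun h => hne (hκ ha ha1 (sub_eq_zero.1 h).symm)
    have h3 : (1 : ℝ) ≤ |((κ a1 - κ a : ℤ) : ℝ)| := by
      rw [← Int.cast_abs]
      exact_mod_cast Int.one_le_abs h2
    have h4 : lam * κ a1 - lam * κ a = |lam| * |((κ a1 - κ a : ℤ) : ℝ)| := by
      rw [← abs_mul, Int.cast_sub, mul_sub, abs_of_nonneg (sub_nonneg.2 h1)]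
    nlinarith [abs_nonneg lam]
  have h1 : (m a1 : ℂ) * z a1 = -∑ a ∈ s.erase a1, (m a : ℂ) * z a := by
    rw [eq_neg_iff_add_eq_zero, Finset.add_sum_erase _ (fun a => (m a : ℂ) * z a) ha1, h0]
  have h2 : Real.exp (lam * κ a1 + u) ≤ ‖(m a1 : ℂ) * z a1‖ := by
    rw [norm_mul, hz a1 ha1]
    have h3 : (1 : ℝ) ≤ ‖(m a1 : ℂ)‖ := by
      rw [Complex.norm_intCast]
      rw [← Int.cast_abs]
      exact_mod_cast Int.one_le_abs (hm a1 ha1)
    exact le_mul_of_one_le_left (Real.exp_pos _).le h3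
  have h3 : ‖(m a1 : ℂ) * z a1‖ ≤ s.card * (Real.exp σ * Real.exp (lam * κ a1 + u - |lam|)) := by
    rw [h1, norm_neg]
    refine (norm_sum_le _ _).trans ?_
    have h4 : ∀ a ∈ s.erase a1, ‖(m a : ℂ) * z a‖ ≤
        Real.exp σ * Real.exp (lam * κ a1 + u - |lam|) := by
      intro a ha
      have ha' := (Finset.mem_erase.1 ha).2
      rw [norm_mul, hz a ha', Complex.norm_intCast]
      exact mul_le_mul (hσ a ha') (Real.exp_le_exp.2 (hgap a ha)) (Real.exp_pos _).le
        (Real.exp_pos _).le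
    refine (Finset.sum_le_sum h4).trans ?_
    rw [Finset.sum_const, nsmul_eq_mul]
    refine mul_le_mul_of_nonneg_right ?_ (by positivity)
    exact_mod_cast Finset.card_erase_le
  have hc : (0 : ℝ) < s.card := by exact_mod_cast hs.card_pos
  have h4 := h2.trans h3
  rw [← Real.exp_log hc, ← Real.exp_add, ← Real.exp_add, Real.exp_le_exp] at h4
  linarith

end Blocks

open Blocks

/-- relations in the blocks give relations between arbitrary coordinates -/
theorem RelZ.relB {L : Type} [Field L] [Algebra ℂ L] {n t : ℕ} {β : Type} [Fintype β]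
    {x : Fin n → L} {blk : Fin n → β} {T : β → ℕ} {δ : ℕ} {σ : β → ℝ} (h : RelZ x blk T δ σ)
    (hT : ∑ j, T j = t) : RelB ℂ x t δ := by
  classical
  intro J hJ
  unfold RelZ at h
  obtain ⟨j, hj⟩ : ∃ j, T j < (Finset.univ.filter fun i => blk (J i) = j).card := by
    by_contra hcon
    push Not at hcon
    have h1 := Finset.card_eq_sum_card_fiberwise (f := fun i => blk (J i))
      (s := (Finset.univ : Finset (Fin (t + 1)))) (t := (Finset.univ : Finset β))
      (fun _ _ => Finset.mem_coe.2 (Finset.mem_univ _))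
    rw [Finset.card_univ, Fintype.card_fin] at h1
    have h2 := Finset.sum_le_sum fun j (_ : j ∈ (Finset.univ : Finset β)) => hcon j
    omega
  obtain ⟨s, hs, hsc⟩ := Finset.exists_subset_card_eq (Nat.succ_le_of_lt hj)
  let e : Fin (T j + 1) ≃ s := (Fintype.equivFinOfCardEq (by rw [Fintype.card_coe, hsc])).symm
  have he : Function.Injective fun i => (e i : Fin (t + 1)) :=
    Subtype.val_injective.comp e.injective
  obtain ⟨f, hf, hfd, -, hf0⟩ := h j (fun i => J (e i)) (hJ.comp he)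
    (fun i => (Finset.mem_filter.1 (hs (e i).2)).2)
  refine ⟨rename (fun i => (e i : Fin (t + 1))) (f.map (Int.castRingHom ℂ)), ?_, ?_, ?_⟩
  · intro h0
    have h1 := rename_injective _ he (h0.trans (map_zero _).symm)
    exact hf (map_injective _ (RingHom.injective_int _) (h1.trans (map_zero _).symm))
  · refine (totalDegree_rename_le _ _).trans (le_trans ?_ hfd)
    exact Finset.sup_mono (support_map_subset _ _)
  · rw [aeval_rename]
    have h1 : aeval ((fun j => x (J j)) ∘ fun i => (e i : Fin (t + 1)))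
        (f.map (Int.castRingHom ℂ)) = aeval (fun i => x (J (e i))) f := by
      rw [aeval_def, aeval_def, eval₂_map]
      congr 1
      exact RingHom.ext_int _ _
    rw [h1, hf0]

section
variable {L : Type} [Field L] [Algebra ℂ L] {n t : ℕ} {x : Fin n → L}
  {A : (Fin n → ℤ) →+ (Fin t → ℤ)} {M : Matrix (Fin t) (Fin t) ℤ} {c : (Fin n → ℤ) → ℂ}

namespace Blocks

/-- the terms of smallest order of a relation -/
theorem exists_form (hx : ∀ i, x i ≠ 0) (h : LPr x A M c) {r : ℕ} {J : Fin r → Fin n}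
    (hJ : Function.Injective J) (f : MvPolynomial (Fin r) ℤ) (hf : f ≠ 0)
    (hf0 : aeval (fun i => x (J i)) f = 0) :
    ∃ (s : Finset (Fin r →₀ ℕ)) (m0 : Fin r →₀ ℕ) (m1 : Fin r →₀ ℕ), s ⊆ f.support ∧
      m0 ∈ s ∧ m1 ∈ s ∧ m1 ≠ m0 ∧
      (∀ m ∈ s, A (exJ J fun i => (m i : ℤ)) = A (exJ J fun i => (m0 i : ℤ))) ∧
      ∑ m ∈ s, ((f.coeff m : ℤ) : ℂ) *
        c ((exJ J fun i => (m i : ℤ)) - exJ J fun i => (m0 i : ℤ)) = 0 := by
  classical
  let E : (Fin r →₀ ℕ) → Fin n → ℤ := fun m => exJ J fun i => (m i : ℤ)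
  have hE : Function.Injective E := by
    intro m m' hmm
    have h1 := exJ_injective hJ hmm
    ext i
    exact_mod_cast congrFun h1 i
  obtain ⟨m0, hm0, hmin⟩ := Finset.exists_min_image f.support
    (fun m => toLex (M.mulVec (A (E m)))) (Finset.nonempty_iff_ne_empty.2 fun h0 =>
      hf (support_eq_empty.1 h0))
  let g : (Fin n → ℤ) → ℂ := fun a => if h : ∃ m, E m = a then ((f.coeff h.choose : ℤ) : ℂ) else 0
  have hg : ∀ m, g (E m) = ((f.coeff m : ℤ) : ℂ) := by
    intro m
    have hex : ∃ m', E m' = E m := ⟨m, rfl⟩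
    have h1 : hex.choose = m := hE hex.choose_spec
    show (if h : ∃ m', E m' = E m then ((f.coeff h.choose : ℤ) : ℂ) else 0) =
      ((f.coeff m : ℤ) : ℂ)
    rw [dif_pos hex, h1]
  have hsum : ∑ a ∈ f.support.image E, algebraMap ℂ L (g a) * mn x a = 0 := by
    rw [Finset.sum_image fun _ _ _ _ h => hE h, ← hf0, aeval_def, eval₂_eq']
    refine Finset.sum_congr rfl fun m _ => ?_
    rw [hg, mn_exJ hx]
    congr 1
    rw [map_intCast]
    rfl
  have hlp := h.lp (f.support.image E) g (E m0) hsum (by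
    intro a ha
    obtain ⟨m, hm, rfl⟩ := Finset.mem_image.1 ha
    exact hmin m hm)
  have hlp' : ∑ m ∈ f.support with A (E m) = A (E m0), ((f.coeff m : ℤ) : ℂ) * c (E m - E m0) = 0 := by
    rw [Finset.filter_image, Finset.sum_image fun _ _ _ _ h => hE h] at hlp
    rw [← hlp]
    exact Finset.sum_congr rfl fun m _ => by rw [hg]
  have hne : ∃ m1 ∈ f.support.filter (fun m => A (E m) = A (E m0)), m1 ≠ m0 := by
    by_contra hcon
    push Not at hcon
    have h1 : f.support.filter (fun m => A (E m) = A (E m0)) = {m0} := by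
      ext m
      rw [Finset.mem_singleton]
      constructor
      · exact hcon m
      · rintro rfl
        exact Finset.mem_filter.2 ⟨hm0, rfl⟩
    rw [h1, Finset.sum_singleton, sub_self] at hlp'
    rcases mul_eq_zero.1 hlp' with h2 | h2
    · exact (mem_support_iff.1 hm0) (by exact_mod_cast h2)
    · exact h.ne 0 (map_zero A) h2
  obtain ⟨m1, hm1, hne⟩ := hne
  exact ⟨f.support.filter (fun m => A (E m) = A (E m0)), m0, m1, Finset.filter_subset _ _,
    Finset.mem_filter.2 ⟨hm0, rfl⟩, hm1, hne, fun m hm => (Finset.mem_filter.1 hm).2, hlp'⟩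

/-- the logarithms of the absolute values of the leading coefficients -/
noncomputable def lg (h : LPr x A M c) : A.ker →+ ℝ where
  toFun a := Real.log ‖c a.1‖
  map_zero' := by
    have h1 := h.add 0 0 (map_zero A) (map_zero A)
    have h2 := h.ne 0 (map_zero A)
    rw [add_zero] at h1
    have h3 : c 0 = 1 := by
      have := mul_left_cancel₀ h2 (h1.symm.trans (mul_one _).symm)
      exact this
    show Real.log ‖c 0‖ = 0
    rw [h3, norm_one, Real.log_one]
  map_add' a b := by
    show Real.log ‖c (a.1 + b.1)‖ = Real.log ‖c a.1‖ + Real.log ‖c b.1‖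
    rw [h.add _ _ a.2 b.2, norm_mul, Real.log_mul (norm_ne_zero_iff.2 (h.ne _ a.2))
      (norm_ne_zero_iff.2 (h.ne _ b.2))]

theorem lg_apply (h : LPr x A M c) (a : A.ker) : lg h a = Real.log ‖c a.1‖ := rfl

/-- vectors of the kernel supported in a set of independent coordinates vanish -/
theorem eq_zero_of_supp {r : ℕ} {B0 : Fin r → Fin n} (hB0 : Function.Injective B0)
    (hli : LinearIndependent ℝ fun i => rv (A (Pi.single (B0 i) 1))) (a : Fin n → ℤ)
    (ha : A a = 0) (hs : ∀ l, a l ≠ 0 → l ∈ Set.range B0) : a = 0 := by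
  classical
  have h1 : a = exJ B0 fun i => a (B0 i) := by
    funext l
    by_cases hl : l ∈ Set.range B0
    · obtain ⟨i, rfl⟩ := hl
      rw [exJ_apply hB0]
    · rw [exJ_off _ hl]
      by_contra h0
      exact hl (hs l h0)
  have h2 : ∑ i, (a (B0 i) : ℝ) • rv (A (Pi.single (B0 i) 1)) = 0 := by
    have h3 : A a = ∑ i, a (B0 i) • A (Pi.single (B0 i) 1) := by
      conv_lhs => rw [h1, exJ, map_sum]
      exact Finset.sum_congr rfl fun i _ => map_zsmul A _ _
    rw [ha] at h3
    have h4 := congrArg rv h3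
    rw [rv_zero, rv_sum] at h4
    rw [h4]
    exact Finset.sum_congr rfl fun i _ => (rv_zsmul _ _).symm
  have h3 := Fintype.linearIndependent_iff.1 hli _ h2
  funext l
  by_contra h0
  obtain ⟨i, rfl⟩ := hs l h0
  exact h0 (by exact_mod_cast h3 i)

theorem supp_card {r δ : ℕ} (f : MvPolynomial (Fin r) ℤ) (hf : f.totalDegree ≤ δ) :
    f.support.card ≤ (δ + 1) ^ r := by
  classical
  let g : (Fin r →₀ ℕ) → Fin r → Fin (δ + 1) := fun m i => Fin.ofNat (δ + 1) (m i)
  have hdeg : ∀ m ∈ f.support, ∀ i, m i ≤ δ := by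
    intro m hm i
    refine le_trans ?_ ((le_totalDegree hm).trans hf)
    rw [Finsupp.sum_fintype _ _ fun _ => rfl]
    exact Finset.single_le_sum (f := fun i => m i) (fun _ _ => Nat.zero_le _) (Finset.mem_univ i)
  have hg : Set.InjOn g (f.support : Set (Fin r →₀ ℕ)) := by
    intro m hm m' hm' h
    ext i
    have h1 := congrArg Fin.val (congrFun h i)
    have h2 : (g m i : ℕ) = m i := Nat.mod_eq_of_lt (Nat.lt_succ_of_le (hdeg m hm i))
    have h3 : (g m' i : ℕ) = m' i := Nat.mod_eq_of_lt (Nat.lt_succ_of_le (hdeg m' hm' i))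
    rw [h2, h3] at h1
    exact h1
  have h1 := Finset.card_le_card_of_injOn (t := (Finset.univ : Finset (Fin r → Fin (δ + 1)))) g
    (fun _ _ => Finset.mem_coe.2 (Finset.mem_univ _)) hg
  rw [Finset.card_univ, Fintype.card_fun, Fintype.card_fin, Fintype.card_fin] at h1
  exact h1

/-- independent coordinates -/
theorem exists_basis (hx : ∀ i, x i ≠ 0) (h : LPr x A M c) (hA : Function.Surjective A)
    {β : Type} [Fintype β] [DecidableEq β] {blk : Fin n → β} {T : β → ℕ} {δ : ℕ} {σ : β → ℝ}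
    (hrel : RelZ x blk T δ σ) (hT : ∑ j, T j = t) :
    ∃ B0 : Fin t → Fin n, Function.Injective B0 ∧
      (LinearIndependent ℝ fun i => rv (A (Pi.single (B0 i) 1))) ∧
      ∀ j, (Finset.univ.filter fun i => blk (B0 i) = j).card = T j := by
  classical
  have htop : Submodule.span ℝ (Set.range fun l => rv (A (Pi.single l 1))) = ⊤ := by
    rw [eq_top_iff]
    intro v _
    have h1 : v = ∑ i, v i • rv (Pi.single i 1 : Fin t → ℤ) := by
      funext l
      rw [Finset.sum_apply, Finset.sum_eq_single l]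
      · rw [Pi.smul_apply, rv_single, Pi.single_eq_same, smul_eq_mul, mul_one]
      · intro i _ hi
        rw [Pi.smul_apply, rv_single, Pi.single_eq_of_ne hi.symm, smul_zero]
      · intro hl
        exact absurd (Finset.mem_univ l) hl
    rw [h1]
    refine Submodule.sum_mem _ fun i _ => Submodule.smul_mem _ _ ?_
    obtain ⟨a, ha⟩ := hA (Pi.single i 1)
    rw [← ha, Cones.apply_eq A a, rv_sum]
    refine Submodule.sum_mem _ fun l _ => ?_
    rw [rv_zsmul]
    exact Submodule.smul_mem _ _ (Submodule.subset_span ⟨l, rfl⟩)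
  obtain ⟨f, hf, hli, -⟩ := Sel.exists_fin (L := ℝ) (Set.range fun l => rv (A (Pi.single l 1)))
    inferInstance t (by rw [htop, finrank_top, finrank_fin_fun])
  choose B0 hB0 using hf
  have hfe : f = fun i => rv (A (Pi.single (B0 i) 1)) := funext fun i => (hB0 i).symm
  rw [hfe] at hli
  have hinj : Function.Injective B0 := by
    intro i i' hii
    apply hli.injective
    show rv (A (Pi.single (B0 i) 1)) = rv (A (Pi.single (B0 i') 1))
    rw [hii]
  refine ⟨B0, hinj, hli, ?_⟩
  have hle : ∀ j, (Finset.univ.filter fun i => blk (B0 i) = j).card ≤ T j := by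
    intro j
    by_contra hcon
    push Not at hcon
    obtain ⟨s, hs, hsc⟩ := Finset.exists_subset_card_eq (Nat.succ_le_of_lt hcon)
    let e : Fin (T j + 1) ≃ s := (Fintype.equivFinOfCardEq (by rw [Fintype.card_coe, hsc])).symm
    have he : Function.Injective fun i => (e i : Fin t) := Subtype.val_injective.comp e.injective
    have hJ : Function.Injective fun i => B0 (e i) := hinj.comp he
    obtain ⟨g, hg, -, -, hg0⟩ := hrel j (fun i => B0 (e i)) hJ
      (fun i => (Finset.mem_filter.1 (hs (e i).2)).2)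
    obtain ⟨s', m0, m1, -, -, hm1, hne, hA', -⟩ := exists_form hx h hJ g hg hg0
    have h1 := hA' m1 hm1
    have h2 : exJ (fun i => B0 (e i)) ((fun i => (m1 i : ℤ)) - fun i => (m0 i : ℤ)) = 0 := by
      refine eq_zero_of_supp hinj hli _ ?_ ?_
      · rw [exJ_sub, map_sub, h1, sub_self]
      · intro l hl
        by_contra h0
        refine hl (exJ_off _ ?_)
        rintro ⟨i, rfl⟩
        exact h0 ⟨_, rfl⟩
    refine hne ?_
    ext i
    have h3 := congrFun h2 (B0 (e i))
    rw [exJ_apply hJ, Pi.zero_apply, Pi.sub_apply, sub_eq_zero] at h3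
    exact_mod_cast h3
  have hsum : ∑ j, (Finset.univ.filter fun i => blk (B0 i) = j).card = ∑ j, T j := by
    have h1 := Finset.card_eq_sum_card_fiberwise (f := fun i => blk (B0 i))
      (s := (Finset.univ : Finset (Fin t))) (t := (Finset.univ : Finset β))
      (fun _ _ => Finset.mem_coe.2 (Finset.mem_univ _))
    rw [Finset.card_univ, Fintype.card_fin] at h1
    rw [← h1, hT]
  intro j
  exact (Finset.sum_eq_sum_iff_of_le fun j _ => hle j).1 hsum j (Finset.mem_univ j)

/-- the vector of the kernel attached to a further coordinate -/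
theorem exists_vec (hx : ∀ i, x i ≠ 0) (h : LPr x A M c)
    {β : Type} [Fintype β] [DecidableEq β] {blk : Fin n → β} {T : β → ℕ} {δ : ℕ} {σ : β → ℝ}
    (hrel : RelZ x blk T δ σ) {B0 : Fin t → Fin n} (hB0 : Function.Injective B0)
    (hli : LinearIndependent ℝ fun i => rv (A (Pi.single (B0 i) 1)))
    (hcard : ∀ j, (Finset.univ.filter fun i => blk (B0 i) = j).card = T j) (k : Fin n)
    (hk : k ∉ Set.range B0) :
    ∃ (b : A.ker) (lam : ℝ), b.1 k ≠ 0 ∧
      (∀ l, l ≠ k → b.1 l ≠ 0 → l ∈ Set.range B0 ∧ blk l = blk k) ∧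
      lg h b = b.1 k * lam ∧ |lam| ≤ σ (blk k) + n * Real.log (δ + 1) := by
  classical
  let s := Finset.univ.filter fun i => blk (B0 i) = blk k
  let e : Fin (T (blk k)) ≃ s :=
    (Fintype.equivFinOfCardEq (by rw [Fintype.card_coe]; exact hcard _)).symm
  let J : Fin (T (blk k) + 1) → Fin n := Fin.cons k fun i => B0 (e i)
  have hJ : Function.Injective J := by
    refine Fin.cons_injective_iff.2 ⟨?_, hB0.comp (Subtype.val_injective.comp e.injective)⟩
    rintro ⟨i, hi⟩
    exact hk ⟨_, hi⟩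
  have hJb : ∀ i, blk (J i) = blk k := by
    intro i
    refine Fin.cases ?_ (fun i => ?_) i
    · rfl
    · exact (Finset.mem_filter.1 (e i).2).2
  have hJr : ∀ l, l ∈ Set.range J → l ≠ k → l ∈ Set.range B0 := by
    rintro _ ⟨i, rfl⟩
    refine Fin.cases (fun h => absurd rfl h) (fun i _ => ⟨_, rfl⟩) i
  obtain ⟨f, hf, hfd, hfc, hf0⟩ := hrel (blk k) J hJ hJb
  obtain ⟨s', m0, m1, hss, hm0, hm1, hne, hA', hsum⟩ := exists_form hx h hJ f hf hf0
  have hJ0 : J 0 = k := rfl
  have hker : ∀ m ∈ s', (exJ J fun i => (m i : ℤ)) - (exJ J fun i => (m0 i : ℤ)) ∈ A.ker := by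
    intro m hm
    rw [AddMonoidHom.mem_ker, map_sub, hA' m hm, sub_self]
  have hoff : ∀ (u : Fin (T (blk k) + 1) → ℤ) (l : Fin n), exJ J u l ≠ 0 → l ∈ Set.range J := by
    intro u l hl
    by_contra h0
    exact hl (exJ_off _ h0)
  -- different exponents of the variable `k`
  have hinj : Set.InjOn (fun m : Fin (T (blk k) + 1) →₀ ℕ => (m 0 : ℤ))
      (s' : Set (Fin (T (blk k) + 1) →₀ ℕ)) := by
    intro m hm m' hm' hmm
    have h1 : exJ J ((fun i => (m i : ℤ)) - fun i => (m' i : ℤ)) = 0 := by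
      refine eq_zero_of_supp hB0 hli _ ?_ ?_
      · rw [exJ_sub, map_sub, hA' m hm, hA' m' hm', sub_self]
      · intro l hl
        refine hJr l (hoff _ l hl) ?_
        rintro rfl
        refine hl ?_
        have h2 := exJ_apply hJ ((fun i => (m i : ℤ)) - fun i => (m' i : ℤ)) 0
        rw [hJ0] at h2
        rw [h2, Pi.sub_apply]
        exact sub_eq_zero.2 hmm
    ext i
    have h3 := congrFun h1 (J i)
    rw [exJ_apply hJ, Pi.zero_apply, Pi.sub_apply, sub_eq_zero] at h3
    exact_mod_cast h3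
  let b1 : A.ker := ⟨_, hker m1 hm1⟩
  have hb1 : ∀ m : Fin (T (blk k) + 1) →₀ ℕ,
      ((exJ J fun i => (m i : ℤ)) - (exJ J fun i => (m0 i : ℤ))) k = (m 0 : ℤ) - (m0 0 : ℤ) := by
    intro m
    have h1 := exJ_apply hJ (fun i => (m i : ℤ)) 0
    have h2 := exJ_apply hJ (fun i => (m0 i : ℤ)) 0
    rw [hJ0] at h1 h2
    rw [Pi.sub_apply, h1, h2]
  have hb1k : b1.1 k ≠ 0 := by
    show ((exJ J fun i => (m1 i : ℤ)) - (exJ J fun i => (m0 i : ℤ))) k ≠ 0
    rw [hb1]
    intro h0
    exact hne (hinj hm1 hm0 (sub_eq_zero.1 h0))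
  have hb1R : (b1.1 k : ℝ) ≠ 0 := by exact_mod_cast hb1k
  -- all vectors are proportional
  have hprop : ∀ b : A.ker, (∀ l, b.1 l ≠ 0 → l ∈ Set.range J) →
      lg h b = b.1 k * (lg h b1 / b1.1 k) := by
    intro b hb
    have h1 : b1.1 k • b - b.1 k • b1 = 0 := by
      refine Subtype.ext (eq_zero_of_supp hB0 hli _ (b1.1 k • b - b.1 k • b1 : A.ker).2 ?_)
      intro l hl
      have hlk : l ≠ k := by
        rintro rfl
        refine hl ?_
        show b1.1 l • b.1 l - b.1 l • b1.1 l = 0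
        rw [smul_eq_mul, smul_eq_mul, mul_comm, sub_self]
      refine hJr l ?_ hlk
      by_contra h0
      have h2 : b.1 l = 0 := by
        by_contra h3
        exact h0 (hb l h3)
      have h3 : b1.1 l = 0 := by
        show ((exJ J fun i => (m1 i : ℤ)) - (exJ J fun i => (m0 i : ℤ))) l = 0
        rw [Pi.sub_apply, exJ_off _ h0, exJ_off _ h0, sub_zero]
      refine hl ?_
      show b1.1 k • b.1 l - b.1 k • b1.1 l = 0
      rw [h2, h3, smul_zero, smul_zero, sub_zero]
    have h2 := congrArg (lg h) h1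
    rw [map_sub, map_zsmul, map_zsmul, map_zero, sub_eq_zero, zsmul_eq_mul, zsmul_eq_mul] at h2
    rw [← mul_div_assoc, eq_div_iff hb1R, ← h2, mul_comm]
  refine ⟨b1, lg h b1 / b1.1 k, hb1k, ?_, hprop b1 ?_, ?_⟩
  · intro l hlk hl
    have h1 : l ∈ Set.range J := by
      by_contra h0
      refine hl ?_
      show ((exJ J fun i => (m1 i : ℤ)) - (exJ J fun i => (m0 i : ℤ))) l = 0
      rw [Pi.sub_apply, exJ_off _ h0, exJ_off _ h0, sub_zero]
    refine ⟨hJr l h1 hlk, ?_⟩
    obtain ⟨i, rfl⟩ := h1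
    exact hJb i
  · intro l hl
    by_contra h0
    refine hl ?_
    show ((exJ J fun i => (m1 i : ℤ)) - (exJ J fun i => (m0 i : ℤ))) l = 0
    rw [Pi.sub_apply, exJ_off _ h0, exJ_off _ h0, sub_zero]
  · have h1 := root_bound s' (fun m => f.coeff m)
      (fun m => c ((exJ J fun i => (m i : ℤ)) - exJ J fun i => (m0 i : ℤ)))
      (fun m => (m 0 : ℤ)) (lg h b1 / b1.1 k) (σ (blk k)) (-(lg h b1 / b1.1 k) * (m0 0 : ℝ))
      ⟨m0, hm0⟩ (fun m hm => mem_support_iff.1 (hss hm)) (fun m _ => hfc m) hinj (by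
        intro m hm
        have h2 := hprop ⟨_, hker m hm⟩ (by
          intro l hl
          by_contra h0
          refine hl ?_
          show ((exJ J fun i => (m i : ℤ)) - (exJ J fun i => (m0 i : ℤ))) l = 0
          rw [Pi.sub_apply, exJ_off _ h0, exJ_off _ h0, sub_zero])
        rw [lg_apply] at h2
        have h3 : 0 < ‖c ((exJ J fun i => (m i : ℤ)) - exJ J fun i => (m0 i : ℤ))‖ :=
          norm_pos_iff.2 (h.ne _ (AddMonoidHom.mem_ker.1 (hker m hm)))
        rw [← Real.exp_log h3, h2]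
        congr 1
        show ((((exJ J fun i => (m i : ℤ)) - (exJ J fun i => (m0 i : ℤ))) k : ℤ) : ℝ) *
          (lg h b1 / b1.1 k) = _
        rw [hb1 m]
        push_cast
        ring) hsum
    refine h1.trans (add_le_add le_rfl ?_)
    have h2 : (s'.card : ℝ) ≤ ((δ : ℝ) + 1) ^ n := by
      have h3 : s'.card ≤ (δ + 1) ^ (T (blk k) + 1) :=
        (Finset.card_le_card hss).trans (supp_card f hfd)
      have h4 : T (blk k) + 1 ≤ n := by
        have := Fintype.card_le_of_injective J hJ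
        rwa [Fintype.card_fin, Fintype.card_fin] at this
      have h5 : s'.card ≤ (δ + 1) ^ n := h3.trans (Nat.pow_le_pow_right (Nat.succ_pos _) h4)
      exact_mod_cast h5
    have h3 : (0 : ℝ) < s'.card := by exact_mod_cast Finset.card_pos.2 ⟨m0, hm0⟩
    refine (Real.log_le_log h3 h2).trans (le_of_eq ?_)
    rw [Real.log_pow]

end Blocks

/-- the kernel of the type is graded, and the absolute values of the leading coefficients are
bounded by the sizes of the relations -/
theorem LPr.graded (hx : ∀ i, x i ≠ 0) (h : LPr x A M c) (hA : Function.Surjective A)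
    {β : Type} [Fintype β] [DecidableEq β] {blk : Fin n → β} {T : β → ℕ} {δ : ℕ} {σ : β → ℝ}
    (hσ : ∀ j, 0 ≤ σ j) (hrel : RelZ x blk T δ σ) (hT : ∑ j, T j = t) :
    (∀ a, A a = 0 → ∀ j, A (res blk j a) = 0) ∧
      ∃ lam : Fin n → ℝ, (∀ k, |lam k| ≤ σ (blk k) + n * Real.log (δ + 1)) ∧
        ∀ a, A a = 0 → Real.log ‖c a‖ = ∑ k, (a k : ℝ) * lam k := by
  classical
  obtain ⟨B0, hB0, hli, hcard⟩ := exists_basis hx h hA hrel hT
  have hex : ∀ k, ∃ (b : A.ker) (lam : ℝ) (d : ℤ), d ≠ 0 ∧ (k ∉ Set.range B0 → b.1 k = d) ∧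
      (∀ l, l ≠ k → b.1 l ≠ 0 → l ∈ Set.range B0 ∧ blk l = blk k) ∧
      (k ∈ Set.range B0 → b = 0 ∧ lam = 0) ∧
      lg h b = d * lam ∧ |lam| ≤ σ (blk k) + n * Real.log (δ + 1) := by
    intro k
    by_cases hk : k ∈ Set.range B0
    · refine ⟨0, 0, 1, one_ne_zero, fun h => absurd hk h, fun l _ h0 => absurd rfl h0,
        fun _ => ⟨rfl, rfl⟩, ?_, ?_⟩
      · rw [map_zero, mul_zero]
      · rw [abs_zero]
        have := hσ (blk k)
        have h1 : 0 ≤ Real.log ((δ : ℝ) + 1) := Real.log_nonneg (by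
          have : (0 : ℝ) ≤ δ := Nat.cast_nonneg δ
          linarith)
        positivity
    · obtain ⟨b, lam, hb1, hb2, hb3, hb4⟩ := exists_vec hx h hrel hB0 hli hcard k hk
      exact ⟨b, lam, b.1 k, hb1, fun _ => rfl, hb2, fun h => absurd h hk, hb3, hb4⟩
  choose b lam d hd hbd hbs hb0 hlg hlam using hex
  have hP : (∏ k, d k) ≠ 0 := Finset.prod_ne_zero_iff.2 fun k _ => hd k
  have hPR : ((∏ k, d k : ℤ) : ℝ) ≠ 0 := by exact_mod_cast hP
  -- every vector of the kernel is a combination of the vectors `b k`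
  have hkey : ∀ a : A.ker, (∏ k, d k) • a =
      ∑ k, ((∏ l ∈ Finset.univ.erase k, d l) * a.1 k) • b k := by
    intro a
    rw [← sub_eq_zero]
    refine Subtype.ext (eq_zero_of_supp hB0 hli _
      ((∏ k, d k) • a - ∑ k, ((∏ l ∈ Finset.univ.erase k, d l) * a.1 k) • b k : A.ker).2 ?_)
    intro l hl
    by_contra hlr
    refine hl ?_
    have h1 : ((∏ k, d k) • a - ∑ k, ((∏ l ∈ Finset.univ.erase k, d l) * a.1 k) • b k :
        A.ker).1 l = (∏ k, d k) * a.1 l -
          ∑ k, ((∏ l ∈ Finset.univ.erase k, d l) * a.1 k) * (b k).1 l := by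
      rw [AddSubgroup.coe_sub, Pi.sub_apply, AddSubgroup.val_finsetSum, Finset.sum_apply]
      rfl
    rw [h1, Finset.sum_eq_single l]
    · rw [hbd l hlr, ← Finset.mul_prod_erase Finset.univ d (Finset.mem_univ l)]
      ring
    · intro k _ hkl
      have h2 : (b k).1 l = 0 := by
        by_contra h3
        exact hlr (hbs k l hkl.symm h3).1
      rw [h2, mul_zero]
    · intro h0
      exact absurd (Finset.mem_univ l) h0
  refine ⟨fun a ha j => ?_, lam, hlam, fun a ha => ?_⟩
  · have h1 : (∏ k, d k) • res blk j a =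
        ∑ k with blk k = j, ((∏ l ∈ Finset.univ.erase k, d l) * a k) • (b k).1 := by
      have h2 := congrArg Subtype.val (hkey ⟨a, ha⟩)
      rw [AddSubgroup.val_finsetSum] at h2
      funext l
      have h3 := congrFun h2 l
      rw [Finset.sum_apply] at h3 ⊢
      have hsupp : ∀ k, blk k ≠ blk l → (b k).1 l = 0 := by
        intro k hkl
        by_contra h4
        refine hkl ?_
        by_cases h5 : l = k
        · rw [h5]
        · exact (hbs k l h5 h4).2.symm
      by_cases hl : blk l = j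
      · have h4 : ((∏ k, d k) • res blk j a) l = (∏ k, d k) • a l := by
          rw [Pi.smul_apply, res, if_pos hl]
        rw [h4]
        have h5 : (∏ k, d k) • a l = ∑ k, (((∏ l ∈ Finset.univ.erase k, d l) * a k) • (b k).1) l :=
          h3
        rw [h5, Finset.sum_filter]
        refine Finset.sum_congr rfl fun k _ => ?_
        by_cases hk : blk k = j
        · rw [if_pos hk]
        · rw [if_neg hk, Pi.smul_apply, hsupp k (fun h => hk (h.trans hl)), smul_zero]
      · rw [Pi.smul_apply, res, if_neg hl, smul_zero]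
        symm
        refine Finset.sum_eq_zero fun k hk => ?_
        have hk' := (Finset.mem_filter.1 hk).2
        rw [Pi.smul_apply, hsupp k (fun h => hl (h.symm.trans hk')), smul_zero]
    have h2 : (∏ k, d k) • A (res blk j a) = 0 := by
      rw [← map_zsmul, h1, map_sum]
      refine Finset.sum_eq_zero fun k _ => ?_
      rw [map_zsmul, AddMonoidHom.mem_ker.1 (b k).2, smul_zero]
    exact (smul_eq_zero.1 h2).resolve_left hP
  · have h1 := congrArg (lg h) (hkey ⟨a, ha⟩)
    rw [map_zsmul, map_sum, zsmul_eq_mul] at h1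
    have h2 : ((∏ k, d k : ℤ) : ℝ) * Real.log ‖c a‖ =
        ((∏ k, d k : ℤ) : ℝ) * ∑ k, (a k : ℝ) * lam k := by
      rw [Finset.mul_sum]
      refine Eq.trans h1 (Finset.sum_congr rfl fun k _ => ?_)
      rw [map_zsmul, zsmul_eq_mul, hlg k, ← Finset.mul_prod_erase Finset.univ d
        (Finset.mem_univ k)]
      push_cast
      ring
    exact mul_left_cancel₀ hPR h2

end

end Pool.Agent.GC
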