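import Mathlib
import Pool.Agent.Lib.MP_c95b3b_ag_GC.Blocks

set_option autoImplicit false

/-! Project GC: types of a sequence of varieties, along an ultrafilter. -/

namespace Pool.Agent.GC

open Pool.Agent.SD Module Filter Topology

/-- choice of an element of a finite set along an ultrafilter -/
theorem exists_fix {α : Type} {𝓤 : Ultrafilter ℕ} {S : Set α} (hS : S.Finite)
    {P : ℕ → α → Prop} (h : ∀ᶠ ν in (𝓤 : Filter ℕ), ∃ a ∈ S, P ν a) :
    ∃ a ∈ S, ∀ᶠ ν in (𝓤 : Filter ℕ), P ν a := by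
  have h1 : (⋃ a ∈ S, {ν | P ν a}) ∈ 𝓤 := by
    refine Filter.mem_of_superset h fun ν hν => ?_
    obtain ⟨a, ha, hPa⟩ := hν
    exact Set.mem_biUnion ha hPa
  exact (Ultrafilter.finite_biUnion_mem_iff hS).1 h1

/-- linear independence of the values of the real extension of the type: values of real
combinations -/
theorem AR_sum {n t r : ℕ} (A : (Fin n → ℤ) →+ (Fin t → ℤ)) (α : Fin r → Fin n → ℝ)
    (w : Fin r → ℝ) : AR A (∑ i, w i • α i) = ∑ i, w i • AR A (α i) := by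
  funext l
  rw [AR, Finset.sum_apply]
  simp only [Finset.sum_apply, Pi.smul_apply, smul_eq_mul, AR, Finset.mul_sum, Finset.sum_mul]
  rw [Finset.sum_comm]
  exact Finset.sum_congr rfl fun i _ => Finset.sum_congr rfl fun l _ => by ring

/-- if `t` vectors have independent values, every vector of `ℝ^t` is the value of a combination -/
theorem exists_AR {n t : ℕ} (A : (Fin n → ℤ) →+ (Fin t → ℤ)) (α : Fin t → Fin n → ℝ)
    (h : LinearIndependent ℝ (fun i => AR A (α i))) (y : Fin t → ℝ) :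
    ∃ w : Fin t → ℝ, AR A (∑ i, w i • α i) = y := by
  have h1 := h.span_eq_top_of_card_eq_finrank' (by rw [Fintype.card_fin, finrank_fin_fun])
  have h2 : y ∈ Submodule.span ℝ (Set.range fun i => AR A (α i)) := by
    rw [h1]
    trivial
  obtain ⟨w, hw⟩ := (Submodule.mem_span_range_iff_exists_fun ℝ).1 h2
  exact ⟨w, (AR_sum A α w).trans hw⟩

/-- The types of a sequence of varieties with generic points `x ν` and with blocks of
coordinates: the type is the same for almost all `ν`, its kernel is graded, and the absolute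
values of the leading coefficients are bounded by the sizes of the relations. -/
theorem type_seq {𝓤 : Ultrafilter ℕ} {n t δ : ℕ} (L : ℕ → Type) [∀ ν, Field (L ν)]
    [∀ ν, Algebra ℂ (L ν)] (x : ∀ ν, Fin n → L ν) {β : Type} [Fintype β] [DecidableEq β]
    (blk : Fin n → β) (T : β → ℕ) (hT : ∑ j, T j = t) (σ : ℕ → β → ℝ)
    (hx : ∀ᶠ ν in (𝓤 : Filter ℕ), ∀ i, x ν i ≠ 0)
    (hd : ∀ᶠ ν in (𝓤 : Filter ℕ), dm (x ν) = t)
    (hσ : ∀ᶠ ν in (𝓤 : Filter ℕ), ∀ j, 0 ≤ σ ν j)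
    (hrel : ∀ᶠ ν in (𝓤 : Filter ℕ), RelZ (x ν) blk T δ (σ ν)) {r : ℕ} (α : Fin r → Fin n → ℝ)
    (hα : ∀ᶠ ν in (𝓤 : Filter ℕ), LinearIndependent (L ν) (fun i => om (x ν) (α i))) :
    ∃ A : (Fin n → ℤ) →+ (Fin t → ℤ), Function.Surjective A ∧
      (∀ a, A a = 0 → ∀ j, A (res blk j a) = 0) ∧
      LinearIndependent ℝ (fun i => AR A (α i)) ∧
      ∀ᶠ ν in (𝓤 : Filter ℕ), ∃ (M : Matrix (Fin t) (Fin t) ℤ) (c : (Fin n → ℤ) → ℂ)
        (lam : Fin n → ℝ), LPr (x ν) A M c ∧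
          (∀ k, |lam k| ≤ σ ν (blk k) + n * Real.log (δ + 1)) ∧
          ∀ a, A a = 0 → Real.log ‖c a‖ = ∑ k, (a k : ℝ) * lam k := by
  classical
  have h1 : ∀ᶠ ν in (𝓤 : Filter ℕ), ∃ A ∈ AA n t δ, Function.Surjective A ∧
      (∀ a, A a = 0 → ∀ j, A (res blk j a) = 0) ∧
      LinearIndependent ℝ (fun i => AR A (α i)) ∧
      ∃ (M : Matrix (Fin t) (Fin t) ℤ) (c : (Fin n → ℤ) → ℂ)
        (lam : Fin n → ℝ), LPr (x ν) A M c ∧
          (∀ k, |lam k| ≤ σ ν (blk k) + n * Real.log (δ + 1)) ∧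
          ∀ a, A a = 0 → Real.log ‖c a‖ = ∑ k, (a k : ℝ) * lam k := by
    filter_upwards [hx, hd, hσ, hrel, hα] with ν hx hd hσ hrel hα
    obtain ⟨A, hA, hs, hli, M, c, h2, h3, h4, h5⟩ :=
      cones n t δ (L ν) (x ν) hx hd (hrel.relB hT) r α hα
    have h6 : LPr (x ν) A M c := ⟨h2, h3, h4, h5⟩
    obtain ⟨h7, lam, h8, h9⟩ := h6.graded hx hs hσ hrel hT
    exact ⟨A, hA, hs, h7, hli, M, c, lam, h6, h8, h9⟩
  obtain ⟨A, -, hA⟩ := exists_fix (AA_finite n t δ) h1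
  obtain ⟨ν, hν⟩ := hA.exists
  exact ⟨A, hν.1, hν.2.1, hν.2.2.1, hA.mono fun ν h => h.2.2.2⟩

end Pool.Agent.GC
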